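import Pool.Agent.OMin.KcD

/-! # module CC : the class `Cc` -/

namespace OMin
open Set Filter Topology
open scoped ContDiff

theorem Cc_of_Kc {ι : Type} [Finite ι] {A : Set (ι → ℝ)} (hA : Kc ι A) : Cc ι A := by
  refine ⟨Empty, inferInstance, {x | (fun i => x (Sum.inl i)) ∈ A}, Kc_pull Sum.inl hA, ?_⟩
  ext x
  constructor
  · intro hx
    exact ⟨fun e => e.elim, hx⟩
  · rintro ⟨y, hy⟩
    exact hy

theorem Cc_univ (ι : Type) [Finite ι] : Cc ι (Set.univ : Set (ι → ℝ)) := Cc_of_Kc (Kc_univ ι)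

theorem Cc_empty (ι : Type) [Finite ι] : Cc ι (∅ : Set (ι → ℝ)) := Cc_of_Kc (Kc_empty ι)

theorem Cc_pull {ι ι' : Type} [Finite ι] [Finite ι'] (σ : ι → ι') {A : Set (ι → ℝ)}
    (hA : Cc ι A) : Cc ι' {x | (fun i => x (σ i)) ∈ A} := by
  obtain ⟨κ, hκ, B, hB, rfl⟩ := hA
  refine ⟨κ, hκ, {z | (fun i => z (Sum.map σ id i)) ∈ B}, Kc_pull (Sum.map σ id) hB, ?_⟩
  ext x
  have key : ∀ y : κ → ℝ, (fun i => (Sum.elim x y : ι' ⊕ κ → ℝ) (Sum.map σ id i)) =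
      Sum.elim (fun i => x (σ i)) y := by
    intro y
    funext i
    rcases i with i | i <;> rfl
  constructor
  · rintro ⟨y, hy⟩
    refine ⟨y, ?_⟩
    change (fun i => (Sum.elim x y : ι' ⊕ κ → ℝ) (Sum.map σ id i)) ∈ B
    rw [key y]
    exact hy
  · rintro ⟨y, hy⟩
    refine ⟨y, ?_⟩
    change (fun i => (Sum.elim x y : ι' ⊕ κ → ℝ) (Sum.map σ id i)) ∈ B at hy
    rw [key y] at hy
    exact hy

private theorem exists_common {ι : Type} [Finite ι] {A A' : Set (ι → ℝ)} (hA : Cc ι A)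
    (hA' : Cc ι A') : ∃ (κ : Type) (_ : Finite κ) (B B' : Set (ι ⊕ κ → ℝ)), Kc (ι ⊕ κ) B ∧
      Kc (ι ⊕ κ) B' ∧ (∀ x, x ∈ A ↔ ∃ y : κ → ℝ, Sum.elim x y ∈ B) ∧
      (∀ x, x ∈ A' ↔ ∃ y : κ → ℝ, Sum.elim x y ∈ B') ∧
      ∀ x, x ∈ A → x ∈ A' → ∃ y : κ → ℝ, Sum.elim x y ∈ B ∧ Sum.elim x y ∈ B' := by
  obtain ⟨κ, hκ, B, hB, rfl⟩ := hA
  obtain ⟨κ', hκ', B', hB', rfl⟩ := hA'
  let σ : ι ⊕ κ → ι ⊕ (κ ⊕ κ') := Sum.map id Sum.inl
  let σ' : ι ⊕ κ' → ι ⊕ (κ ⊕ κ') := Sum.map id Sum.inr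
  have h1 : ∀ (x : ι → ℝ) (w : κ ⊕ κ' → ℝ), (fun i => (Sum.elim x w : ι ⊕ (κ ⊕ κ') → ℝ) (σ i)) =
      Sum.elim x (fun k => w (Sum.inl k)) := by
    intro x w
    funext i
    rcases i with i | i <;> rfl
  have h2 : ∀ (x : ι → ℝ) (w : κ ⊕ κ' → ℝ), (fun i => (Sum.elim x w : ι ⊕ (κ ⊕ κ') → ℝ) (σ' i)) =
      Sum.elim x (fun k => w (Sum.inr k)) := by
    intro x w
    funext i
    rcases i with i | i <;> rfl
  have m1 : ∀ (x : ι → ℝ) (w : κ ⊕ κ' → ℝ),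
      (Sum.elim x w : ι ⊕ (κ ⊕ κ') → ℝ) ∈ {z : ι ⊕ (κ ⊕ κ') → ℝ | (fun i => z (σ i)) ∈ B} ↔
      (Sum.elim x (fun k => w (Sum.inl k)) : ι ⊕ κ → ℝ) ∈ B := by
    intro x w
    rw [Set.mem_setOf_eq, h1]
  have m2 : ∀ (x : ι → ℝ) (w : κ ⊕ κ' → ℝ),
      (Sum.elim x w : ι ⊕ (κ ⊕ κ') → ℝ) ∈ {z : ι ⊕ (κ ⊕ κ') → ℝ | (fun i => z (σ' i)) ∈ B'} ↔
      (Sum.elim x (fun k => w (Sum.inr k)) : ι ⊕ κ' → ℝ) ∈ B' := by
    intro x w
    rw [Set.mem_setOf_eq, h2]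
  refine ⟨κ ⊕ κ', inferInstance, _, _, Kc_pull σ hB, Kc_pull σ' hB', fun x => ⟨?_, ?_⟩,
    fun x => ⟨?_, ?_⟩, ?_⟩
  · rintro ⟨y, hy⟩
    exact ⟨Sum.elim y (fun _ => 0), (m1 x _).2 hy⟩
  · rintro ⟨w, hw⟩
    exact ⟨_, (m1 x w).1 hw⟩
  · rintro ⟨y, hy⟩
    exact ⟨Sum.elim (fun _ => 0) y, (m2 x _).2 hy⟩
  · rintro ⟨w, hw⟩
    exact ⟨_, (m2 x w).1 hw⟩
  · rintro x ⟨y, hy⟩ ⟨y', hy'⟩
    exact ⟨Sum.elim y y', (m1 x _).2 hy, (m2 x _).2 hy'⟩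

theorem Cc_inter {ι : Type} [Finite ι] {A B : Set (ι → ℝ)} (hA : Cc ι A) (hB : Cc ι B) :
    Cc ι (A ∩ B) := by
  obtain ⟨κ, hκ, C, D, hC, hD, h1, h2, h3⟩ := exists_common hA hB
  refine ⟨κ, hκ, C ∩ D, Kc_inter hC hD, ?_⟩
  ext x
  constructor
  · rintro ⟨hx, hx'⟩
    exact h3 x hx hx'
  · rintro ⟨y, hy, hy'⟩
    exact ⟨(h1 x).2 ⟨y, hy⟩, (h2 x).2 ⟨y, hy'⟩⟩

theorem Cc_union {ι : Type} [Finite ι] {A B : Set (ι → ℝ)} (hA : Cc ι A) (hB : Cc ι B) :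
    Cc ι (A ∪ B) := by
  obtain ⟨κ, hκ, C, D, hC, hD, h1, h2, -⟩ := exists_common hA hB
  refine ⟨κ, hκ, C ∪ D, Kc_union hC hD, ?_⟩
  ext x
  constructor
  · rintro (hx | hx)
    · obtain ⟨y, hy⟩ := (h1 x).1 hx
      exact ⟨y, Or.inl hy⟩
    · obtain ⟨y, hy⟩ := (h2 x).1 hx
      exact ⟨y, Or.inr hy⟩
  · rintro ⟨y, hy | hy⟩
    · exact Or.inl ((h1 x).2 ⟨y, hy⟩)
    · exact Or.inr ((h2 x).2 ⟨y, hy⟩)

theorem Cc_iInter {ι α : Type} [Finite ι] [Finite α] {A : α → Set (ι → ℝ)}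
    (hA : ∀ a, Cc ι (A a)) : Cc ι (⋂ a, A a) := by
  classical
  cases nonempty_fintype α
  have h : ∀ s : Finset α, Cc ι (⋂ a ∈ s, A a) := by
    intro s
    induction s using Finset.induction_on with
    | empty =>
      simpa using Cc_univ ι
    | insert a s ha ih =>
      rw [Finset.set_biInter_insert]
      exact Cc_inter (hA a) ih
  simpa using h Finset.univ

theorem Cc_iUnion {ι α : Type} [Finite ι] [Finite α] {A : α → Set (ι → ℝ)}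
    (hA : ∀ a, Cc ι (A a)) : Cc ι (⋃ a, A a) := by
  classical
  cases nonempty_fintype α
  have h : ∀ s : Finset α, Cc ι (⋃ a ∈ s, A a) := by
    intro s
    induction s using Finset.induction_on with
    | empty =>
      simpa using Cc_empty ι
    | insert a s ha ih =>
      rw [Finset.set_biUnion_insert]
      exact Cc_union (hA a) ih
  simpa using h Finset.univ

theorem Cc_proj {ι κ : Type} [Finite ι] [Finite κ] {A : Set (ι ⊕ κ → ℝ)} (hA : Cc (ι ⊕ κ) A) :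
    Cc ι {x | ∃ y : κ → ℝ, Sum.elim x y ∈ A} := by
  obtain ⟨κ', hκ', B, hB, rfl⟩ := hA
  let e : (ι ⊕ κ) ⊕ κ' → ι ⊕ (κ ⊕ κ') := Equiv.sumAssoc ι κ κ'
  refine ⟨κ ⊕ κ', inferInstance, {z | (fun i => z (e i)) ∈ B}, Kc_pull e hB, ?_⟩
  have key : ∀ (x : ι → ℝ) (w : κ ⊕ κ' → ℝ),
      (fun i => (Sum.elim x w : ι ⊕ (κ ⊕ κ') → ℝ) (e i)) =
      Sum.elim (Sum.elim x (fun k => w (Sum.inl k))) (fun k => w (Sum.inr k)) := by
    intro x w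
    funext i
    rcases i with (i | i) | i <;> rfl
  ext x
  constructor
  · rintro ⟨y, y', hy⟩
    refine ⟨Sum.elim y y', ?_⟩
    rw [Set.mem_setOf_eq, key]
    exact hy
  · rintro ⟨w, hw⟩
    rw [Set.mem_setOf_eq, key] at hw
    exact ⟨_, _, hw⟩

theorem Cc_exists {ι : Type} [Finite ι] {A : Set (Option ι → ℝ)} (hA : Cc (Option ι) A) :
    Cc ι {x | ∃ s : ℝ, (fun o : Option ι => o.elim s x) ∈ A} := by
  let σ : Option ι → ι ⊕ Unit := fun o => o.elim (Sum.inr ()) Sum.inl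
  have h := Cc_proj (Cc_pull σ hA)
  have key : ∀ (x : ι → ℝ) (y : Unit → ℝ), (fun o => (Sum.elim x y : ι ⊕ Unit → ℝ) (σ o)) =
      fun o : Option ι => o.elim (y ()) x := by
    intro x y
    funext o
    rcases o with _ | o <;> rfl
  convert h using 1
  ext x
  constructor
  · rintro ⟨s, hs⟩
    refine ⟨fun _ => s, ?_⟩
    rw [Set.mem_setOf_eq, key]
    exact hs
  · rintro ⟨y, hy⟩
    rw [Set.mem_setOf_eq, key] at hy
    exact ⟨_, hy⟩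

theorem Cc_eq {ι : Type} [Finite ι] {f g : (ι → ℝ) → ℝ} (hf : f ∈ E ι) (hg : g ∈ E ι) :
    Cc ι {x | f x = g x} := by
  have h := Cc_of_Kc (Kc_zero (EJ_sub hf hg))
  convert h using 1
  ext x
  simp only [Set.mem_setOf_eq, sub_eq_zero]

theorem Cc_lt {ι : Type} [Finite ι] {f g : (ι → ℝ) → ℝ} (hf : f ∈ E ι) (hg : g ∈ E ι) :
    Cc ι {x | f x < g x} := by
  have hf' : (fun z : ι ⊕ Unit → ℝ => f (fun i => z (Sum.inl i))) ∈ E (ι ⊕ Unit) :=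
    EJ_comp Sum.inl (fun _ _ => Set.mem_univ _) hf
  have hg' : (fun z : ι ⊕ Unit → ℝ => g (fun i => z (Sum.inl i))) ∈ E (ι ⊕ Unit) :=
    EJ_comp Sum.inl (fun _ _ => Set.mem_univ _) hg
  have hs : (fun z : ι ⊕ Unit → ℝ => z (Sum.inr ())) ∈ E (ι ⊕ Unit) := EJ_coord _
  have h1 : (fun z : ι ⊕ Unit → ℝ => (g (fun i => z (Sum.inl i)) - f (fun i => z (Sum.inl i))) *
      z (Sum.inr ()) ^ 2 - 1) ∈ E (ι ⊕ Unit) :=
    EJ_sub (EJ_mul (EJ_sub hg' hf') (EJ_pow hs 2)) (EJ_const 1)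
  have h := Cc_proj (Cc_of_Kc (Kc_zero h1))
  convert h using 1
  ext x
  simp only [Set.mem_setOf_eq]
  constructor
  · intro hx
    refine ⟨fun _ => (Real.sqrt (g x - f x))⁻¹, ?_⟩
    have h0 : 0 < g x - f x := by linarith
    change (g x - f x) * (Real.sqrt (g x - f x))⁻¹ ^ 2 - 1 = 0
    rw [inv_pow, Real.sq_sqrt h0.le, mul_inv_cancel₀ h0.ne', sub_self]
  · rintro ⟨y, hy⟩
    change (g x - f x) * y () ^ 2 - 1 = 0 at hy
    by_contra hcon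
    have h0 : g x - f x ≤ 0 := by linarith
    have h2 : (g x - f x) * y () ^ 2 ≤ 0 := mul_nonpos_of_nonpos_of_nonneg h0 (sq_nonneg _)
    linarith

theorem Cc_le {ι : Type} [Finite ι] {f g : (ι → ℝ) → ℝ} (hf : f ∈ E ι) (hg : g ∈ E ι) :
    Cc ι {x | f x ≤ g x} := by
  have h := Cc_union (Cc_lt hf hg) (Cc_eq hf hg)
  convert h using 1
  ext x
  simp only [Set.mem_setOf_eq, Set.mem_union]
  exact le_iff_lt_or_eq

/-- the closure of a projection of a `Kc` set is `Kc` -/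
theorem Kc_closure {ι : Type} [Finite ι] {A : Set (ι → ℝ)} (hA : Cc ι A) :
    Kc ι (closure A) := by
  obtain ⟨κ, hκ, B, hB, rfl⟩ := hA
  exact Kc_closure_proj hB

theorem Cc_Fsigma {ι : Type} [Finite ι] {A : Set (ι → ℝ)} (hA : Cc ι A) :
    ∃ C : ℕ → Set (ι → ℝ), (∀ m, IsClosed (C m)) ∧ A = ⋃ m, C m := by
  obtain ⟨κ, hκ, B, hB, rfl⟩ := hA
  cases nonempty_fintype κ
  have hBc := Kc_isClosed hB
  refine ⟨fun m => {x | ∃ y : κ → ℝ, (∀ i, y i ∈ Set.Icc (-(m : ℝ)) m) ∧ Sum.elim x y ∈ B},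
    fun m => ?_, ?_⟩
  · let Y : Set (κ → ℝ) := Set.pi Set.univ fun _ => Set.Icc (-(m : ℝ)) m
    have hY : IsCompact Y := isCompact_univ_pi fun _ => isCompact_Icc
    haveI : CompactSpace Y := isCompact_iff_compactSpace.1 hY
    have hcont : Continuous fun q : (ι → ℝ) × Y => (Sum.elim q.1 q.2.1 : ι ⊕ κ → ℝ) := by
      refine continuous_pi fun i => ?_
      rcases i with i | i
      · exact (continuous_apply i).comp continuous_fst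
      · exact (continuous_apply i).comp (continuous_subtype_val.comp continuous_snd)
    have h1 : IsClosed (Prod.fst '' ((fun q : (ι → ℝ) × Y =>
        (Sum.elim q.1 q.2.1 : ι ⊕ κ → ℝ)) ⁻¹' B)) :=
      isClosedMap_fst_of_compactSpace _ (hBc.preimage hcont)
    convert h1 using 1
    ext x
    constructor
    · rintro ⟨y, hy, hB⟩
      exact ⟨(x, ⟨y, fun i _ => hy i⟩), hB, rfl⟩
    · rintro ⟨⟨x', y⟩, hB, rfl⟩
      exact ⟨y.1, fun i => y.2 i (Set.mem_univ i), hB⟩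
  · ext x
    rw [Set.mem_iUnion]
    constructor
    · rintro ⟨y, hy⟩
      obtain ⟨m, hm⟩ := exists_nat_ge (∑ i, |y i|)
      refine ⟨m, y, fun i => ?_, hy⟩
      have h1 : |y i| ≤ ∑ i, |y i| :=
        Finset.single_le_sum (f := fun i => |y i|) (fun _ _ => abs_nonneg _) (Finset.mem_univ i)
      exact abs_le.1 (h1.trans hm)
    · rintro ⟨m, y, -, hy⟩
      exact ⟨y, hy⟩

end OMin
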