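import Pool.Agent.OMin.EBasic
import Pool.Agent.OMin.CcKit

/-! # The critical set: in the class, with empty interior -/

namespace OMin
open Set Filter Topology
open scoped ContDiff

namespace SNullAux

/-- slot of `c j` -/
def ic (m p : ℕ) (j : Fin m) : Fin (m + (2 + p)) := Fin.castAdd (2 + p) j
/-- slot of `η` -/
def ie (m p : ℕ) : Fin (m + (2 + p)) := Fin.natAdd m (Fin.castAdd p 0)
/-- slot of `ρ` -/
def ir (m p : ℕ) : Fin (m + (2 + p)) := Fin.natAdd m (Fin.castAdd p 1)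
/-- slot of `ε k` -/
def iE (m p : ℕ) (k : Fin p) : Fin (m + (2 + p)) := Fin.natAdd m (Fin.natAdd 2 k)

theorem forall_fin {m p : ℕ} {P : Fin (m + (2 + p)) → Prop} (h1 : ∀ j, P (ic m p j))
    (h2 : P (ie m p)) (h3 : P (ir m p)) (h4 : ∀ k, P (iE m p k)) (i) : P i := by
  refine Fin.addCases (motive := P) h1 (fun i => ?_) i
  refine Fin.addCases (motive := fun i => P (Fin.natAdd m i)) (fun i => ?_) h4 i
  fin_cases i
  · exact h2
  · exact h3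

theorem app_ic {m p : ℕ} (c : Fin m → ℝ) (η ρ : ℝ) (ε : Fin p → ℝ) (j : Fin m) :
    (Fin.append c (Fin.append ![η, ρ] ε) : Fin (m + (2 + p)) → ℝ) (ic m p j) = c j := by
  unfold ic; rw [Fin.append_left]
theorem app_ie {m p : ℕ} (c : Fin m → ℝ) (η ρ : ℝ) (ε : Fin p → ℝ) :
    (Fin.append c (Fin.append ![η, ρ] ε) : Fin (m + (2 + p)) → ℝ) (ie m p) = η := by
  unfold ie; rw [Fin.append_right, Fin.append_left]; rfl
theorem app_ir {m p : ℕ} (c : Fin m → ℝ) (η ρ : ℝ) (ε : Fin p → ℝ) :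
    (Fin.append c (Fin.append ![η, ρ] ε) : Fin (m + (2 + p)) → ℝ) (ir m p) = ρ := by
  unfold ir; rw [Fin.append_right, Fin.append_left]; rfl
theorem app_iE {m p : ℕ} (c : Fin m → ℝ) (η ρ : ℝ) (ε : Fin p → ℝ) (k : Fin p) :
    (Fin.append c (Fin.append ![η, ρ] ε) : Fin (m + (2 + p)) → ℝ) (iE m p k) = ε k := by
  unfold iE; rw [Fin.append_right, Fin.append_right]

theorem ext_elim {ι : Type} {m p : ℕ} (z : ι ⊕ Fin (m + (2 + p)) → ℝ) :
    z = Sum.elim (fun i => z (Sum.inl i)) (Fin.append (fun j => z (Sum.inr (ic m p j)))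
      (Fin.append ![z (Sum.inr (ie m p)), z (Sum.inr (ir m p))]
        (fun k => z (Sum.inr (iE m p k))))) := by
  funext s
  rcases s with s | s
  · rfl
  · simp only [Sum.elim_inr]
    refine forall_fin (P := fun s => z (Sum.inr s) = _) (fun j => ?_) ?_ ?_ (fun k => ?_) s
    · rw [app_ic]
    · rw [app_ie]
    · rw [app_ir]
    · rw [app_iE]

theorem fderiv_mid {ι : Type} [Fintype ι] [DecidableEq ι] {m p : ℕ}
    {f : (ι ⊕ (Fin m ⊕ Fin p) → ℝ) → ℝ} (hf : ContDiff ℝ ∞ f) (x : ι → ℝ) (y : Fin m → ℝ)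
    (ε : Fin p → ℝ) (j : Fin m) :
    fderiv ℝ (fun y' : Fin m → ℝ => f (Sum.elim x (Sum.elim y' ε))) y (Pi.single j 1) =
      fderiv ℝ f (Sum.elim x (Sum.elim y ε)) (Pi.single (Sum.inr (Sum.inl j)) 1) := by
  have h0 : HasFDerivAt (fun y' : Fin m → ℝ =>
      (Sum.elim x (Sum.elim y' ε) : ι ⊕ (Fin m ⊕ Fin p) → ℝ))
      (ContinuousLinearMap.pi (Sum.elim (fun _ => 0)
        (Sum.elim (fun i => ContinuousLinearMap.proj i) (fun _ => 0))) :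
        (Fin m → ℝ) →L[ℝ] (ι ⊕ (Fin m ⊕ Fin p) → ℝ)) y := by
    rw [hasFDerivAt_pi]
    rintro (i | i | k)
    · exact hasFDerivAt_const (x i) y
    · exact hasFDerivAt_apply (𝕜 := ℝ) i y
    · exact hasFDerivAt_const (ε k) y
  have h1 : HasFDerivAt f (fderiv ℝ f (Sum.elim x (Sum.elim y ε))) (Sum.elim x (Sum.elim y ε)) :=
    ((hf.differentiable (by simp)) _).hasFDerivAt
  have h2 := h1.comp y h0
  have h3 : fderiv ℝ (fun y' : Fin m → ℝ => f (Sum.elim x (Sum.elim y' ε))) y = _ := h2.fderiv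
  rw [h3]
  show fderiv ℝ f (Sum.elim x (Sum.elim y ε)) _ = _
  congr 1
  funext s
  rcases s with s | s | s
  · simp
  · by_cases h : s = j
    · subst h; simp
    · simp [h]
  · simp

/-- the substitution of variables -/
def sg (ι : Type) (m p : ℕ) : ι ⊕ (Fin m ⊕ Fin p) → (ι ⊕ Fin (m + (2 + p))) ⊕ Fin m :=
  Sum.elim (fun i => Sum.inl (Sum.inl i))
    (Sum.elim (fun j => Sum.inr j) (fun k => Sum.inl (Sum.inr (iE m p k))))

theorem sg_comp {ι : Type} {m p : ℕ} (z : ι ⊕ Fin (m + (2 + p)) → ℝ) (y : Fin m → ℝ) :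
    (fun i => (Sum.elim z y : (ι ⊕ Fin (m + (2 + p))) ⊕ Fin m → ℝ) (sg ι m p i)) =
      Sum.elim (fun i => z (Sum.inl i)) (Sum.elim y (fun k => z (Sum.inr (iE m p k)))) := by
  funext s
  rcases s with s | s | s <;> rfl

end SNullAux

open SNullAux

theorem Sset_Cc {ι : Type} [Fintype ι] {m p : ℕ} {f : (ι ⊕ (Fin m ⊕ Fin p) → ℝ) → ℝ}
    (hf : f ∈ E (ι ⊕ (Fin m ⊕ Fin p))) : Cc (ι ⊕ Fin (m + (2 + p))) (Sset f) := by
  classical
  have hfs : ContDiff ℝ ∞ f := EJ_contDiff hf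
  let c' : Fin m → ((ι ⊕ Fin (m + (2 + p))) ⊕ Fin m → ℝ) → ℝ :=
    fun j w => w (Sum.inl (Sum.inr (ic m p j)))
  let e' : ((ι ⊕ Fin (m + (2 + p))) ⊕ Fin m → ℝ) → ℝ := fun w => w (Sum.inl (Sum.inr (ie m p)))
  let r' : ((ι ⊕ Fin (m + (2 + p))) ⊕ Fin m → ℝ) → ℝ := fun w => w (Sum.inl (Sum.inr (ir m p)))
  let y' : Fin m → ((ι ⊕ Fin (m + (2 + p))) ⊕ Fin m → ℝ) → ℝ := fun j w => w (Sum.inr j)
  have hc : ∀ j, c' j ∈ E ((ι ⊕ Fin (m + (2 + p))) ⊕ Fin m) := fun j => EJ_coord _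
  have he : e' ∈ E ((ι ⊕ Fin (m + (2 + p))) ⊕ Fin m) := EJ_coord _
  have hr : r' ∈ E ((ι ⊕ Fin (m + (2 + p))) ⊕ Fin m) := EJ_coord _
  have hy : ∀ j, y' j ∈ E ((ι ⊕ Fin (m + (2 + p))) ⊕ Fin m) := fun j => EJ_coord _
  let F0 : ((ι ⊕ Fin (m + (2 + p))) ⊕ Fin m → ℝ) → ℝ := fun w => f (fun i => w (sg ι m p i))
  have hF0 : F0 ∈ E ((ι ⊕ Fin (m + (2 + p))) ⊕ Fin m) :=
    EJ_comp (sg ι m p) (fun _ _ => mem_univ _) hf
  let D : Fin m → ((ι ⊕ Fin (m + (2 + p))) ⊕ Fin m → ℝ) → ℝ := fun j w =>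
    fderiv ℝ f (fun i => w (sg ι m p i)) (Pi.single (Sum.inr (Sum.inl j)) 1)
  have hD : ∀ j, D j ∈ E ((ι ⊕ Fin (m + (2 + p))) ⊕ Fin m) := fun j =>
    EJ_comp (sg ι m p) (fun _ _ => mem_univ _) (EJ_pderiv hf (Sum.inr (Sum.inl j)))
  let G1 : Fin m → Set ((ι ⊕ Fin (m + (2 + p))) ⊕ Fin m → ℝ) := fun j =>
    {w | c' j w = - D j w - 2 * e' w * r' w ^ 2 * y' j w}
  let G2 : Set ((ι ⊕ Fin (m + (2 + p))) ⊕ Fin m → ℝ) :=
    {w | F0 w + e' w * r' w ^ 2 * ∑ j, y' j w ^ 2 + ∑ j, c' j w * y' j w = e' w}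
  have h2 : ((fun _ => 2) : ((ι ⊕ Fin (m + (2 + p))) ⊕ Fin m → ℝ) → ℝ) ∈
      E ((ι ⊕ Fin (m + (2 + p))) ⊕ Fin m) := EJ_const 2
  have hG1 : ∀ j, Cc _ (G1 j) := fun j =>
    Cc_eq (hc j) (EJ_sub (EJ_neg (hD j))
      (EJ_mul (EJ_mul (EJ_mul h2 he) (EJ_pow hr 2)) (hy j)))
  have hG2 : Cc _ G2 :=
    Cc_eq (EJ_add (EJ_add hF0 (EJ_mul (EJ_mul he (EJ_pow hr 2))
      (EJ_sum Finset.univ (fun j _ => EJ_pow (hy j) 2))))
      (EJ_sum Finset.univ (fun j _ => EJ_mul (hc j) (hy j)))) he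
  have hG : Cc (ι ⊕ Fin (m + (2 + p)))
      {z | ∃ y : Fin m → ℝ, Sum.elim z y ∈ (⋂ j, G1 j) ∩ G2} :=
    Cc_proj (Cc_inter (Cc_iInter hG1) hG2)
  have hEq : Sset f = {z | ∃ y : Fin m → ℝ, Sum.elim z y ∈ (⋂ j, G1 j) ∩ G2} := by
    ext z
    constructor
    · rintro ⟨x, y, c, η, ρ, ε, rfl, h1, h2⟩
      refine ⟨y, mem_iInter.2 fun j => ?_, ?_⟩
      · show _ = - fderiv ℝ f _ _ - _
        simp only [c', e', r', y', Sum.elim_inl, Sum.elim_inr, app_ic, app_ie, app_ir, sg_comp,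
          app_iE]
        rw [h1 j, fderiv_mid hfs]
      · show f _ + _ + _ = _
        simp only [c', e', r', y', Sum.elim_inl, Sum.elim_inr, app_ic, app_ie, app_ir, sg_comp,
          app_iE]
        exact h2
    · rintro ⟨y, h1, h2⟩
      refine ⟨fun i => z (Sum.inl i), y, fun j => z (Sum.inr (ic m p j)), z (Sum.inr (ie m p)),
        z (Sum.inr (ir m p)), fun k => z (Sum.inr (iE m p k)), ext_elim z, fun j => ?_, ?_⟩
      · have h3 : _ = - fderiv ℝ f _ _ - _ := mem_iInter.1 h1 j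
        simp only [c', e', r', y', Sum.elim_inl, Sum.elim_inr, sg_comp] at h3
        rw [fderiv_mid hfs]
        exact h3
      · have h3 : f _ + _ + _ = _ := h2
        simp only [c', e', r', y', Sum.elim_inl, Sum.elim_inr, sg_comp] at h3
        exact h3
  rw [hEq]
  exact hG

namespace SNullAux

/-- the variables of the parametrisation -/
def vr {ι : Type} {m p : ℕ} (z : ι ⊕ Fin (m + (2 + p)) → ℝ) : ι ⊕ (Fin m ⊕ Fin p) → ℝ :=
  Sum.elim (fun i => z (Sum.inl i))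
    (Sum.elim (fun j => z (Sum.inr (ic m p j))) (fun k => z (Sum.inr (iE m p k))))

open Classical in
/-- the value of `η` -/
noncomputable def et {ι : Type} [Fintype ι] {m p : ℕ} (f : (ι ⊕ (Fin m ⊕ Fin p) → ℝ) → ℝ)
    (z : ι ⊕ Fin (m + (2 + p)) → ℝ) : ℝ :=
  (f (vr z) - ∑ j, fderiv ℝ f (vr z) (Pi.single (Sum.inr (Sum.inl j)) 1) *
      z (Sum.inr (ic m p j))) /
    (1 + z (Sum.inr (ir m p)) ^ 2 * ∑ j, z (Sum.inr (ic m p j)) ^ 2)

open Classical in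
/-- the parametrisation; the slot of `η` is ignored -/
noncomputable def Ps {ι : Type} [Fintype ι] {m p : ℕ} (f : (ι ⊕ (Fin m ⊕ Fin p) → ℝ) → ℝ)
    (z : ι ⊕ Fin (m + (2 + p)) → ℝ) : ι ⊕ Fin (m + (2 + p)) → ℝ :=
  Sum.elim (fun i => z (Sum.inl i)) (Fin.append
    (fun j => - fderiv ℝ f (vr z) (Pi.single (Sum.inr (Sum.inl j)) 1) -
      2 * et f z * z (Sum.inr (ir m p)) ^ 2 * z (Sum.inr (ic m p j)))
    (Fin.append ![et f z, z (Sum.inr (ir m p))] (fun k => z (Sum.inr (iE m p k)))))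

theorem vr_contDiff {ι : Type} [Fintype ι] {m p : ℕ} :
    ContDiff ℝ 1 (vr : (ι ⊕ Fin (m + (2 + p)) → ℝ) → (ι ⊕ (Fin m ⊕ Fin p) → ℝ)) := by
  rw [contDiff_pi]
  rintro (i | j | k)
  · exact contDiff_apply ℝ ℝ _
  · exact contDiff_apply ℝ ℝ _
  · exact contDiff_apply ℝ ℝ _

theorem fd_contDiff {ι : Type} [Fintype ι] {m p : ℕ} {f : (ι ⊕ (Fin m ⊕ Fin p) → ℝ) → ℝ}
    (hf : ContDiff ℝ ∞ f) (v : ι ⊕ (Fin m ⊕ Fin p) → ℝ) :
    ContDiff ℝ 1 (fun z : ι ⊕ Fin (m + (2 + p)) → ℝ => fderiv ℝ f (vr z) v) := by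
  have h1 : ContDiff ℝ 1 (fderiv ℝ f) := hf.fderiv_right (m := 1) (by norm_cast)
  exact (h1.comp vr_contDiff).clm_apply contDiff_const

theorem et_contDiff {ι : Type} [Fintype ι] {m p : ℕ} {f : (ι ⊕ (Fin m ⊕ Fin p) → ℝ) → ℝ}
    (hf : ContDiff ℝ ∞ f) :
    ContDiff ℝ 1 (et f : (ι ⊕ Fin (m + (2 + p)) → ℝ) → ℝ) := by
  unfold et
  refine ContDiff.div ?_ ?_ ?_
  · refine ((hf.of_le (by norm_cast)).comp vr_contDiff).sub ?_
    exact ContDiff.sum fun j _ => (fd_contDiff hf _).mul (contDiff_apply ℝ ℝ _)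
  · refine contDiff_const.add (((contDiff_apply ℝ ℝ _).pow 2).mul ?_)
    exact ContDiff.sum fun j _ => (contDiff_apply ℝ ℝ _).pow 2
  · intro z
    have : 0 ≤ z (Sum.inr (ir m p)) ^ 2 * ∑ j, z (Sum.inr (ic m p j)) ^ 2 := by positivity
    positivity

theorem Ps_contDiff {ι : Type} [Fintype ι] {m p : ℕ} {f : (ι ⊕ (Fin m ⊕ Fin p) → ℝ) → ℝ}
    (hf : ContDiff ℝ ∞ f) :
    ContDiff ℝ 1 (Ps f : (ι ⊕ Fin (m + (2 + p)) → ℝ) → (ι ⊕ Fin (m + (2 + p)) → ℝ)) := by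
  classical
  rw [contDiff_pi]
  rintro (i | s)
  · exact contDiff_apply ℝ ℝ _
  · unfold Ps
    simp only [Sum.elim_inr]
    refine forall_fin (P := fun s => ContDiff ℝ 1 (fun x : ι ⊕ Fin (m + (2 + p)) → ℝ =>
      (Fin.append (fun j => -(fderiv ℝ f (vr x)) (Pi.single (Sum.inr (Sum.inl j)) 1) -
          2 * et f x * x (Sum.inr (ir m p)) ^ 2 * x (Sum.inr (ic m p j)))
      (Fin.append ![et f x, x (Sum.inr (ir m p))] fun k => x (Sum.inr (iE m p k))) :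
        Fin (m + (2 + p)) → ℝ) s)) (fun j => ?_) ?_ ?_ (fun k => ?_) s
    · simp only [app_ic]
      exact (fd_contDiff hf _).neg.sub
        (((contDiff_const.mul (et_contDiff hf)).mul ((contDiff_apply ℝ ℝ _).pow 2)).mul
          (contDiff_apply ℝ ℝ _))
    · simp only [app_ie]
      exact et_contDiff hf
    · simp only [app_ir]
      exact contDiff_apply ℝ ℝ _
    · simp only [app_iE]
      exact contDiff_apply ℝ ℝ _

theorem ic_ne {m p : ℕ} (j : Fin m) : ic m p j ≠ ie m p := by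
  unfold ic ie; intro h
  have := congrArg Fin.val h
  simp at this
  have := j.isLt
  omega

theorem ir_ne {m p : ℕ} : ir m p ≠ ie m p := by
  unfold ir ie; intro h
  have := congrArg Fin.val h
  simp at this

theorem iE_ne {m p : ℕ} (k : Fin p) : iE m p k ≠ ie m p := by
  unfold iE ie; intro h
  have := congrArg Fin.val h
  simp at this

open Classical in
theorem Ps_add {ι : Type} [Fintype ι] {m p : ℕ} (f : (ι ⊕ (Fin m ⊕ Fin p) → ℝ) → ℝ)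
    (z : ι ⊕ Fin (m + (2 + p)) → ℝ) (t : ℝ) :
    Ps f (z + t • Pi.single (Sum.inr (ie m p)) (1 : ℝ)) = Ps f z := by
  have hl : ∀ i, (z + t • (Pi.single (Sum.inr (ie m p)) (1 : ℝ) :
      ι ⊕ Fin (m + (2 + p)) → ℝ)) (Sum.inl i) = z (Sum.inl i) := by intro i; simp
  have hr : ∀ s, s ≠ ie m p → (z + t • (Pi.single (Sum.inr (ie m p)) (1 : ℝ) :
      ι ⊕ Fin (m + (2 + p)) → ℝ)) (Sum.inr s) = z (Sum.inr s) := by
    intro s hs
    simp [hs]
  have hv : vr (z + t • (Pi.single (Sum.inr (ie m p)) (1 : ℝ) :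
      ι ⊕ Fin (m + (2 + p)) → ℝ)) = vr z := by
    unfold vr
    simp only [hl, hr _ (ic_ne _), hr _ (iE_ne _)]
  have he : et f (z + t • (Pi.single (Sum.inr (ie m p)) (1 : ℝ) :
      ι ⊕ Fin (m + (2 + p)) → ℝ)) = et f z := by
    unfold et
    simp only [hv, hr _ (ic_ne _), hr _ ir_ne]
  unfold Ps
  simp only [he, hv, hl, hr _ (ic_ne _), hr _ ir_ne, hr _ (iE_ne _)]

theorem Ps_det {ι : Type} [Fintype ι] {m p : ℕ} {f : (ι ⊕ (Fin m ⊕ Fin p) → ℝ) → ℝ}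
    (hf : ContDiff ℝ ∞ f) (z : ι ⊕ Fin (m + (2 + p)) → ℝ) :
    (fderiv ℝ (Ps f) z).det = 0 := by
  classical
  set v : ι ⊕ Fin (m + (2 + p)) → ℝ := Pi.single (Sum.inr (ie m p)) (1 : ℝ) with hv
  have hd : HasFDerivAt (Ps f) (fderiv ℝ (Ps f) z) z :=
    (((Ps_contDiff hf).differentiable (by norm_num)) z).hasFDerivAt
  have h0 : HasDerivAt (fun t : ℝ => z + t • v) v 0 := by
    simpa using ((hasDerivAt_id (0 : ℝ)).smul_const v).const_add z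
  have h1 : HasDerivAt (fun t : ℝ => Ps f (z + t • v)) (fderiv ℝ (Ps f) z v) 0 := by
    have hd' : HasFDerivAt (Ps f) (fderiv ℝ (Ps f) z) (z + (0 : ℝ) • v) := by simpa using hd
    exact hd'.comp_hasDerivAt (0 : ℝ) h0
  have h2 : (fun t : ℝ => Ps f (z + t • v)) = fun _ => Ps f z := by
    funext t; exact Ps_add f z t
  rw [h2] at h1
  have h3 : fderiv ℝ (Ps f) z v = 0 := h1.unique (hasDerivAt_const (0 : ℝ) (Ps f z))
  by_contra hne
  have h4 : LinearMap.det ((fderiv ℝ (Ps f) z) : (ι ⊕ Fin (m + (2 + p)) → ℝ) →ₗ[ℝ] _) ≠ 0 := hne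
  have h5 : LinearMap.ker ((fderiv ℝ (Ps f) z) : (ι ⊕ Fin (m + (2 + p)) → ℝ) →ₗ[ℝ]
      (ι ⊕ Fin (m + (2 + p)) → ℝ)) = ⊥ := by
    by_contra h6
    exact h4 (LinearMap.det_eq_zero_iff_ker_ne_bot.2 h6)
  have h7 : v ∈ LinearMap.ker ((fderiv ℝ (Ps f) z) : (ι ⊕ Fin (m + (2 + p)) → ℝ) →ₗ[ℝ]
      (ι ⊕ Fin (m + (2 + p)) → ℝ)) := h3
  rw [h5] at h7
  have h8 : v = 0 := h7
  have h9 := congrFun h8 (Sum.inr (ie m p))
  simp [hv] at h9

theorem Sset_subset {ι : Type} [Fintype ι] {m p : ℕ} {f : (ι ⊕ (Fin m ⊕ Fin p) → ℝ) → ℝ}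
    (hf : ContDiff ℝ ∞ f) : Sset f ⊆ Ps f '' {z | (fderiv ℝ (Ps f) z).det = 0} := by
  classical
  rintro z ⟨x, y, c, η, ρ, ε, rfl, h1, h2⟩
  refine ⟨Sum.elim x (Fin.append y (Fin.append ![0, ρ] ε)), Ps_det hf _, ?_⟩
  have hv : vr (Sum.elim x (Fin.append y (Fin.append ![0, ρ] ε)) :
      ι ⊕ Fin (m + (2 + p)) → ℝ) = Sum.elim x (Sum.elim y ε) := by
    unfold vr
    simp only [Sum.elim_inl, Sum.elim_inr, app_ic, app_iE]
  have h3 : ∀ j, c j = - fderiv ℝ f (Sum.elim x (Sum.elim y ε))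
      (Pi.single (Sum.inr (Sum.inl j)) 1) - 2 * η * ρ ^ 2 * y j := by
    intro j; rw [h1 j, fderiv_mid hf]
  have hs : ∑ j, c j * y j = - (∑ j, fderiv ℝ f (Sum.elim x (Sum.elim y ε))
      (Pi.single (Sum.inr (Sum.inl j)) 1) * y j) - 2 * η * ρ ^ 2 * ∑ j, y j ^ 2 := by
    rw [Finset.mul_sum, ← Finset.sum_neg_distrib, ← Finset.sum_sub_distrib]
    refine Finset.sum_congr rfl fun j _ => ?_
    rw [h3 j]; ring
  have he : et f (Sum.elim x (Fin.append y (Fin.append ![0, ρ] ε))) = η := by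
    unfold et
    rw [hv]
    simp only [Sum.elim_inr, app_ic, app_ir]
    have hpos : 0 < 1 + ρ ^ 2 * ∑ j, y j ^ 2 := by positivity
    rw [div_eq_iff hpos.ne']
    rw [hs] at h2
    linear_combination h2
  unfold Ps
  rw [hv, he]
  simp only [Sum.elim_inl, Sum.elim_inr, app_ic, app_ir, app_iE]
  congr 2
  funext j
  rw [h3 j]

end SNullAux

theorem Sset_interior {ι : Type} [Fintype ι] {m p : ℕ} {f : (ι ⊕ (Fin m ⊕ Fin p) → ℝ) → ℝ}
    (hf : ContDiff ℝ ∞ f) : interior (Sset f) = ∅ := by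
  have h0 : MeasureTheory.volume (Ps f '' {z | (fderiv ℝ (Ps f) z).det = 0}) = 0 := by
    refine MeasureTheory.addHaar_image_eq_zero_of_det_fderivWithin_eq_zero MeasureTheory.volume
      (f' := fun z => fderiv ℝ (Ps f) z) (fun z _ => ?_) (fun z hz => hz)
    exact ((((Ps_contDiff hf).differentiable (by norm_num)) z).hasFDerivAt).hasFDerivWithinAt
  have h1 : MeasureTheory.volume (Sset f) = 0 :=
    MeasureTheory.measure_mono_null (Sset_subset hf) h0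
  exact MeasureTheory.Measure.interior_eq_empty_of_null h1

end OMin
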