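import Pool.Agent.OMin.Defs

/-! # The iterated filter (module NF) -/

namespace OMin
open Set Filter Topology

section NF

theorem eventually_nested_succ {p : ℕ} {P : (Fin (p + 1) → ℝ) → Prop} :
    (∀ᶠ t in nested (p + 1), P t) ↔
      ∀ᶠ t in nested p, ∀ᶠ s in 𝓝[>] (0 : ℝ), P (Fin.cons s t) := by
  show (∀ᶠ t in (nested p).bind fun t =>
    (𝓝[>] (0 : ℝ)).map fun s => (Fin.cons s t : Fin (p + 1) → ℝ), P t) ↔ _
  rw [Filter.eventually_bind]
  simp only [Filter.eventually_map]

theorem nested_neBot (p : ℕ) : (nested p).NeBot := by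
  induction p with
  | zero => exact (inferInstance : (⊤ : Filter (Fin 0 → ℝ)).NeBot)
  | succ p ih =>
    rw [Filter.neBot_iff, Ne, ← Filter.eventually_false_iff_eq_bot, eventually_nested_succ]
    simp only [Filter.eventually_const]
    exact id

private theorem eventually_nested_cast {m n : ℕ} (h : n = m) {P : (Fin m → ℝ) → Prop} :
    (∀ᶠ t in nested m, P t) ↔ ∀ᶠ t in nested n, P (t ∘ Fin.cast h.symm) := by
  subst h
  rfl

theorem eventually_nested_append {a b : ℕ} {P : (Fin (a + b) → ℝ) → Prop} :
    (∀ᶠ t in nested (a + b), P t) ↔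
      ∀ᶠ t in nested b, ∀ᶠ s in nested a, P (Fin.append s t) := by
  induction a with
  | zero =>
    rw [eventually_nested_cast (Nat.zero_add b).symm]
    apply Filter.eventually_congr
    refine Filter.Eventually.of_forall fun t => ?_
    have h : ∀ s : Fin 0 → ℝ, Fin.append s t = t ∘ Fin.cast (Nat.zero_add b) := by
      intro s
      exact Fin.append_left_nil s t rfl
    simp only [h]
    show _ ↔ ∀ᶠ s in (⊤ : Filter (Fin 0 → ℝ)), _
    simp
  | succ a ih =>
    rw [eventually_nested_cast (Nat.add_right_comm a 1 b).symm, eventually_nested_succ, ih]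
    apply Filter.eventually_congr
    refine Filter.Eventually.of_forall fun t => ?_
    rw [eventually_nested_succ]
    apply Filter.eventually_congr
    refine Filter.Eventually.of_forall fun t' => ?_
    apply Filter.eventually_congr
    refine Filter.Eventually.of_forall fun s => ?_
    rw [Fin.append_cons]

theorem eventually_nested_one {P : (Fin 1 → ℝ) → Prop} :
    (∀ᶠ t in nested 1, P t) ↔ ∀ᶠ s in 𝓝[>] (0 : ℝ), P (fun _ => s) := by
  rw [eventually_nested_succ]
  have h : ∀ (t : Fin 0 → ℝ) (s : ℝ), (Fin.cons s t : Fin 1 → ℝ) = fun _ => s := by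
    intro t s
    funext i
    refine Fin.cases ?_ (fun j => j.elim0) i
    rfl
  simp only [h]
  show (∀ᶠ t in (⊤ : Filter (Fin 0 → ℝ)), _) ↔ _
  simp

theorem nested_pos (p : ℕ) : ∀ᶠ t in nested p, ∀ i, 0 < t i := by
  induction p with
  | zero => exact Filter.Eventually.of_forall fun t i => i.elim0
  | succ p ih =>
    rw [eventually_nested_succ]
    filter_upwards [ih] with t ht
    filter_upwards [self_mem_nhdsWithin] with s hs
    intro i
    refine Fin.cases ?_ (fun j => ?_) i
    · exact hs
    · exact ht j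

end NF

end OMin
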