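import Pool.Agent.OMin.LemL
import Pool.Agent.OMin.Nested

/-! # Iterated limits -/

namespace OMin
open Set Filter Topology

theorem lim0_Cc {ι : Type} [Finite ι] {D : Set (Option ι → ℝ)}
    (hD : Cc (Option ι) D) : Cc ι (lim0 D) := by
  have h1 : Cc (Option ι) (closure (D ∩ {z | 0 < z none}) ∩ {z | z none = 0}) :=
    Cc_inter (Cc_of_Kc (Kc_closure (Cc_inter hD
      (Cc_lt (f := fun _ => 0) (g := fun z => z none) (EJ_const 0) (EJ_coord none)))))
      (Cc_eq (f := fun z => z none) (g := fun _ => 0) (EJ_coord none) (EJ_const 0))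
  have h2 := Cc_exists h1
  convert h2 using 1
  ext u
  constructor
  · intro hu
    exact ⟨0, hu, rfl⟩
  · rintro ⟨s, hs, hs0⟩
    have hs0 : s = 0 := hs0
    subst hs0
    exact hs

theorem limT_eq {ι : Type} {p : ℕ} (D : Set (ι ⊕ Fin (p + 1) → ℝ)) :
    limT D = lim0 {x : Option (ι ⊕ Fin p) → ℝ | (fun i => x ((Sum.elim (fun i => some (Sum.inl i))
      (Fin.cons none (fun j => some (Sum.inr j))) : ι ⊕ Fin (p + 1) → Option (ι ⊕ Fin p)) i)) ∈
        D} := by
  let F : ι ⊕ Fin (p + 1) → Option (ι ⊕ Fin p) := Sum.elim (fun i => some (Sum.inl i))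
    (Fin.cons none (fun j => some (Sum.inr j)))
  let F' : Option (ι ⊕ Fin p) → ι ⊕ Fin (p + 1) := fun o => o.elim (Sum.inr 0)
    (Sum.elim Sum.inl (fun j => Sum.inr j.succ))
  let Eq : Option (ι ⊕ Fin p) ≃ ι ⊕ Fin (p + 1) :=
    { toFun := F'
      invFun := F
      left_inv := by rintro (_ | i | j) <;> simp [F, F']
      right_inv := by
        rintro (i | j)
        · simp [F, F']
        · refine Fin.cases ?_ (fun j => ?_) j <;> simp [F, F'] }
  let G : (Option (ι ⊕ Fin p) → ℝ) ≃ₜ (ι ⊕ Fin (p + 1) → ℝ) :=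
    Homeomorph.piCongrLeft (Y := fun _ => ℝ) Eq
  have hG : ∀ x : Option (ι ⊕ Fin p) → ℝ, G x = fun i => x (F i) := by
    intro x
    funext i
    have := Homeomorph.piCongrLeft_apply_apply (Y := fun _ => ℝ) Eq x (Eq.symm i)
    rw [Equiv.apply_symm_apply] at this
    exact this
  have h0 : {x : Option (ι ⊕ Fin p) → ℝ | (fun i => x ((Sum.elim (fun i => some (Sum.inl i))
      (Fin.cons none (fun j => some (Sum.inr j))) : ι ⊕ Fin (p + 1) → Option (ι ⊕ Fin p)) i)) ∈
        D} = G ⁻¹' D := by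
    ext x
    show _ ↔ G x ∈ D
    rw [hG]; rfl
  rw [h0]
  have h5 : G ⁻¹' D ∩ {z | 0 < z none} = G ⁻¹' (D ∩ {z | 0 < z (Sum.inr 0)}) := by
    ext z
    constructor
    · rintro ⟨hz1, hz2⟩
      refine ⟨hz1, ?_⟩
      show 0 < G z (Sum.inr 0)
      rw [hG]
      exact hz2
    · rintro ⟨hz1, hz2⟩
      refine ⟨hz1, ?_⟩
      have hz2 : 0 < G z (Sum.inr 0) := hz2
      rw [hG] at hz2
      exact hz2
  unfold lim0 limT
  rw [h5, ← G.preimage_closure]
  ext u
  show _ ↔ G (fun o : Option (ι ⊕ Fin p) => o.elim (0 : ℝ) u) ∈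
    closure (D ∩ {z | 0 < z (Sum.inr 0)})
  have h6 : G (fun o : Option (ι ⊕ Fin p) => o.elim (0 : ℝ) u) =
      (Sum.elim (fun i => u (Sum.inl i)) (Fin.cons (0 : ℝ) (fun j => u (Sum.inr j))) :
    ι ⊕ Fin (p + 1) → ℝ) := by
    rw [hG]
    funext o
    rcases o with i | j
    · simp [F]
    · refine Fin.cases ?_ (fun j => ?_) j <;> simp [F]
  rw [h6]
  rfl

theorem limT_Cc {ι : Type} [Finite ι] {p : ℕ} {D : Set (ι ⊕ Fin (p + 1) → ℝ)}
    (hD : Cc (ι ⊕ Fin (p + 1)) D) : Cc (ι ⊕ Fin p) (limT D) := by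
  rw [limT_eq]
  exact lim0_Cc (Cc_pull _ hD)

theorem tower_small {ι : Type} [Finite ι] {p : ℕ} {S : Set (ι ⊕ Fin p → ℝ)}
    (hS : Cc (ι ⊕ Fin p) S) (h : interior S = ∅) :
    Cc ι (tower p S) ∧ interior (tower p S) = ∅ := by
  induction p with
  | zero =>
    let Eq : ι ⊕ Fin 0 ≃ ι :=
      { toFun := Sum.elim id (fun j => j.elim0)
        invFun := Sum.inl
        left_inv := by
          rintro (i | j)
          · rfl
          · exact j.elim0
        right_inv := by intro i; rfl }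
    let G : (ι → ℝ) ≃ₜ (ι ⊕ Fin 0 → ℝ) := Homeomorph.piCongrLeft (Y := fun _ => ℝ) Eq.symm
    have hG : ∀ x : ι → ℝ, G x = Sum.elim x (fun j => j.elim0) := by
      intro x
      funext i
      rcases i with i | j
      · have := Homeomorph.piCongrLeft_apply_apply (Y := fun _ => ℝ) Eq.symm x i
        exact this
      · exact j.elim0
    have h0 : tower 0 S = G ⁻¹' S := by
      ext x
      show _ ↔ G x ∈ S
      rw [hG]; rfl
    constructor
    · have : tower 0 S = {x | (fun i => x (Eq i)) ∈ S} := by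
        ext x
        show (Sum.elim x (fun j => j.elim0) : ι ⊕ Fin 0 → ℝ) ∈ S ↔ (fun i => x (Eq i)) ∈ S
        have : (Sum.elim x (fun j => j.elim0) : ι ⊕ Fin 0 → ℝ) = fun i => x (Eq i) := by
          funext i
          rcases i with i | j
          · rfl
          · exact j.elim0
        rw [this]
      rw [this]
      exact Cc_pull _ hS
    · rw [h0, ← G.preimage_interior, h, Set.preimage_empty]
  | succ p IH => exact IH (limT_Cc hS) (lemLT hS h)

theorem mem_tower {ι : Type} [Finite ι] {p : ℕ} {S : Set (ι ⊕ Fin p → ℝ)} {x : ι → ℝ}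
    (h : ∀ U ∈ 𝓝 x, ∀ᶠ t in nested p, ∃ x' ∈ U, Sum.elim x' t ∈ S) :
    x ∈ closure (tower p S) := by
  have := Fintype.ofFinite ι
  induction p with
  | zero =>
    rw [mem_closure_iff_nhds]
    intro U hU
    have := nested_neBot 0
    obtain ⟨t, x', hx', hS⟩ := (h U hU).exists
    refine ⟨x', hx', ?_⟩
    show (Sum.elim x' (fun j => j.elim0) : ι ⊕ Fin 0 → ℝ) ∈ S
    have : t = fun j => j.elim0 := by funext j; exact j.elim0
    rw [← this]; exact hS
  | succ p IH =>
    apply IH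
    intro U hU
    obtain ⟨K, hK, hKU, hKc⟩ := local_compact_nhds hU
    have h1 := h K hK
    rw [eventually_nested_succ] at h1
    filter_upwards [h1] with t ht
    -- choose points
    classical
    let g : ℝ → (ι → ℝ) := fun s =>
      if hs : ∃ x' ∈ K, Sum.elim x' (Fin.cons s t : Fin (p + 1) → ℝ) ∈ S then hs.choose else 0
    have hg : ∀ᶠ s in 𝓝[>] (0 : ℝ), g s ∈ K ∧ Sum.elim (g s) (Fin.cons s t : Fin (p + 1) → ℝ) ∈ S := by
      filter_upwards [ht] with s hs
      have : g s = hs.choose := dif_pos hs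
      rw [this]
      exact hs.choose_spec
    have hmap : Filter.map g (𝓝[>] (0 : ℝ)) ≤ 𝓟 K := by
      rw [le_principal_iff, mem_map]
      filter_upwards [hg] with s hs
      exact hs.1
    obtain ⟨x'', hx'', hcl⟩ := hKc.exists_mapClusterPt_of_frequently
      (show ∃ᶠ s in 𝓝[>] (0 : ℝ), g s ∈ K from (hg.mono fun s hs => hs.1).frequently)
    refine ⟨x'', hKU hx'', ?_⟩
    show (Sum.elim (fun i => x'' i) (Fin.cons (0 : ℝ) (fun j => t j)) : ι ⊕ Fin (p + 1) → ℝ) ∈
      closure (S ∩ {z | 0 < z (Sum.inr 0)})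
    rw [mem_closure_iff_nhds]
    intro N hN
    have hcont : Continuous (fun q : (ι → ℝ) × ℝ =>
        (Sum.elim q.1 (Fin.cons q.2 t : Fin (p + 1) → ℝ) : ι ⊕ Fin (p + 1) → ℝ)) := by
      apply continuous_pi
      rintro (i | j)
      · exact (continuous_apply i).comp continuous_fst
      · refine Fin.cases ?_ (fun j => ?_) j
        · simpa using continuous_snd
        · simp only [Sum.elim_inr, Fin.cons_succ]
          exact continuous_const
    have hN' : (fun q : (ι → ℝ) × ℝ =>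
        (Sum.elim q.1 (Fin.cons q.2 t : Fin (p + 1) → ℝ) : ι ⊕ Fin (p + 1) → ℝ)) ⁻¹' N ∈
        𝓝 (x'', (0 : ℝ)) := hcont.continuousAt.preimage_mem_nhds hN
    obtain ⟨N1, hN1, N2, hN2, hsub⟩ := mem_nhds_prod_iff.mp hN'
    have hf1 : ∃ᶠ s in 𝓝[>] (0 : ℝ), g s ∈ N1 := hcl.frequently hN1
    have hf2 : ∀ᶠ s in 𝓝[>] (0 : ℝ), s ∈ N2 := nhdsWithin_le_nhds hN2
    obtain ⟨s, hs1, hs2, hs3, hs4⟩ :=
      (hf1.and_eventually (hf2.and (hg.and self_mem_nhdsWithin))).exists
    have hs4 : 0 < s := hs4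
    refine ⟨Sum.elim (g s) (Fin.cons s t : Fin (p + 1) → ℝ), ?_, hs3.2, ?_⟩
    · exact hsub (Set.mk_mem_prod hs1 hs2)
    · show 0 < (Sum.elim (g s) (Fin.cons s t : Fin (p + 1) → ℝ) : ι ⊕ Fin (p + 1) → ℝ) (Sum.inr 0)
      simpa using hs4

end OMin
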