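import Pool.Agent.OMin.Defs

/-! # The frontier of the sublevel projections (module VF) -/

namespace OMin
open Set Filter Topology
open scoped ContDiff

private theorem compact_sqVF {m : ℕ} (R : ℝ) : IsCompact {y : Fin m → ℝ | ∑ j, y j ^ 2 ≤ R} := by
  apply Metric.isCompact_of_isClosed_isBounded
  · exact isClosed_le (by fun_prop) continuous_const
  · rw [isBounded_iff_forall_norm_le]
    refine ⟨max R 1, ?_⟩
    intro y hy
    rw [pi_norm_le_iff_of_nonneg (le_trans zero_le_one (le_max_right _ _))]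
    intro i
    have h1 : y i ^ 2 ≤ R := by
      refine le_trans ?_ hy
      exact Finset.single_le_sum (f := fun j => y j ^ 2) (fun j _ => sq_nonneg _)
        (Finset.mem_univ i)
    rw [Real.norm_eq_abs]
    by_contra hcon
    push Not at hcon
    have h2 : R < |y i| := lt_of_le_of_lt (le_max_left _ _) hcon
    have h3 : 1 < |y i| := lt_of_le_of_lt (le_max_right _ _) hcon
    have h4 : y i ^ 2 = |y i| * |y i| := by rw [← sq, sq_abs]
    nlinarith

private theorem closed_projVF {X Y : Type} [TopologicalSpace X] [TopologicalSpace Y]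
    (G : X × Y → ℝ) (hG : Continuous G) {K : Set Y} (hK : IsCompact K) (b : ℝ) :
    IsClosed {x : X | ∃ y ∈ K, G (x, y) ≤ b} := by
  have : CompactSpace K := isCompact_iff_compactSpace.1 hK
  have h1 : IsClosed {z : X × K | G (z.1, (z.2 : Y)) ≤ b} :=
    isClosed_le (hG.comp (by fun_prop)) continuous_const
  have h2 := isClosedMap_fst_of_compactSpace (X := X) (Y := K) _ h1
  convert h2 using 1
  ext x
  simp only [mem_ofPred_eq, mem_image, Prod.exists, exists_and_right, exists_eq_right,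
    Subtype.exists, exists_prop]

theorem frontier_Vset {ι : Type} [Fintype ι] {m p : ℕ} {f : (ι ⊕ (Fin m ⊕ Fin p) → ℝ) → ℝ}
    (hf : ContDiff ℝ ∞ f) (h0 : ∀ z, 0 ≤ f z) {c : Fin m → ℝ} {η ρ : ℝ} (hη : 0 < η)
    (hρ : 0 < ρ) {ε : Fin p → ℝ} {x : ι → ℝ} (hx : x ∈ frontier (Vset f c η ρ ε)) :
    (Sum.elim x (Fin.append c (Fin.append ![η, ρ] ε)) : ι ⊕ Fin (m + (2 + p)) → ℝ) ∈ Sset f := by
  have hq : 0 < η * ρ ^ 2 := by positivity
  set q : ℝ := η * ρ ^ 2 with hqdef
  set G : (ι → ℝ) × (Fin m → ℝ) → ℝ := fun z =>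
    f (Sum.elim z.1 (Sum.elim z.2 ε)) + q * ∑ j, z.2 j ^ 2 + ∑ j, c j * z.2 j with hG
  have hel : Continuous (fun z : (ι → ℝ) × (Fin m → ℝ) =>
      (Sum.elim z.1 (Sum.elim z.2 ε) : ι ⊕ (Fin m ⊕ Fin p) → ℝ)) := by
    rw [continuous_pi_iff]
    intro i
    rcases i with i | i | i
    · exact (continuous_apply i).comp continuous_fst
    · exact (continuous_apply i).comp continuous_snd
    · exact continuous_const
  have hGc : Continuous G := by
    have h1 := hf.continuous.comp hel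
    have h2 : Continuous (fun z : (ι → ℝ) × (Fin m → ℝ) => q * ∑ j, z.2 j ^ 2 + ∑ j, c j * z.2 j) := by
      fun_prop
    have h3 := h1.add h2
    convert h3 using 1
    funext z
    simp only [hG, Function.comp_apply, Pi.add_apply]
    ring
  set R : ℝ := 2 / q * (η + ∑ j, c j ^ 2 / (2 * q)) with hR
  have hK := compact_sqVF (m := m) R
  have hbd : ∀ (x' : ι → ℝ) (y : Fin m → ℝ), G (x', y) ≤ η → ∑ j, y j ^ 2 ≤ R := by
    intro x' y hy
    have h1 : -(q / 2 * ∑ j, y j ^ 2) - ∑ j, c j ^ 2 / (2 * q) ≤ ∑ j, c j * y j := by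
      rw [Finset.mul_sum, ← Finset.sum_neg_distrib, ← Finset.sum_sub_distrib]
      apply Finset.sum_le_sum
      intro j _
      have h3 : c j * y j + (q / 2 * y j ^ 2 + c j ^ 2 / (2 * q)) =
          (q / 2) * (y j + c j / q) ^ 2 := by
        field_simp
        ring
      have h4 : 0 ≤ (q / 2) * (y j + c j / q) ^ 2 := by positivity
      linarith
    have h2 := h0 (Sum.elim x' (Sum.elim y ε))
    simp only [hG] at hy
    have h3 : q / 2 * ∑ j, y j ^ 2 ≤ η + ∑ j, c j ^ 2 / (2 * q) := by linarith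
    have h4 : 2 / q * (q / 2 * ∑ j, y j ^ 2) ≤ R := mul_le_mul_of_nonneg_left h3 (by positivity)
    have h5 : 2 / q * (q / 2 * ∑ j, y j ^ 2) = ∑ j, y j ^ 2 := by
      field_simp
    rwa [h5] at h4
  have hV : Vset f c η ρ ε = {x : ι → ℝ | ∃ y ∈ {y : Fin m → ℝ | ∑ j, y j ^ 2 ≤ R}, G (x, y) ≤ η} := by
    ext x'
    constructor
    · rintro ⟨y, hy⟩
      exact ⟨y, hbd x' y hy, hy⟩
    · rintro ⟨y, -, hy⟩
      exact ⟨y, hy⟩
  have hcl : IsClosed (Vset f c η ρ ε) := by
    rw [hV]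
    exact closed_projVF G hGc hK η
  have hxV : x ∈ Vset f c η ρ ε := by
    have := hx.1
    rwa [hcl.closure_eq] at this
  rw [hV] at hxV
  obtain ⟨y0, hy0K, hy0⟩ := hxV
  have hGx : Continuous (fun y => G (x, y)) := hGc.comp (by fun_prop)
  obtain ⟨y1, hy1K, hy1⟩ := hK.exists_isMinOn ⟨y0, hy0K⟩ hGx.continuousOn
  have hy1e : G (x, y1) ≤ η := le_trans (hy1 hy0K) hy0
  have hmin : ∀ y, G (x, y1) ≤ G (x, y) := by
    intro y
    by_cases hy : y ∈ {y : Fin m → ℝ | ∑ j, y j ^ 2 ≤ R}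
    · exact hy1 hy
    · have : ¬ G (x, y) ≤ η := fun h => hy (hbd x y h)
      push Not at this
      exact le_trans hy1e this.le
  have heq : G (x, y1) = η := by
    refine le_antisymm hy1e ?_
    by_contra hcon
    push Not at hcon
    have hGy : Continuous (fun x' => G (x', y1)) := hGc.comp (by fun_prop)
    have hev : ∀ᶠ x' in 𝓝 x, G (x', y1) < η := (hGy.tendsto x).eventually (gt_mem_nhds hcon)
    apply hx.2
    rw [mem_interior_iff_mem_nhds]
    filter_upwards [hev] with x' hx'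
    exact ⟨y1, hx'.le⟩
  refine ⟨x, y1, c, η, ρ, ε, rfl, ?_, heq⟩
  intro j
  set g : (Fin m → ℝ) → ℝ := fun y' => f (Sum.elim x (Sum.elim y' ε)) with hg
  have hgd : DifferentiableAt ℝ g y1 := by
    have h1 : ContDiff ℝ ∞ (fun y' : Fin m → ℝ =>
        (Sum.elim x (Sum.elim y' ε) : ι ⊕ (Fin m ⊕ Fin p) → ℝ)) := by
      rw [contDiff_pi]
      intro i
      rcases i with i | i | i
      · exact contDiff_const
      · simpa using contDiff_apply ℝ ℝ i
      · exact contDiff_const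
    exact ((hf.comp h1).differentiable (by simp)).differentiableAt
  have hline : HasDerivAt (fun t : ℝ => y1 + t • (Pi.single j (1:ℝ) : Fin m → ℝ))
      (Pi.single j (1:ℝ) : Fin m → ℝ) 0 := by
    have h1 := ((hasDerivAt_id (0:ℝ)).smul_const (Pi.single j (1:ℝ) : Fin m → ℝ)).const_add y1
    simpa using h1
  have hgd2 : HasDerivAt (fun t : ℝ => g (y1 + t • (Pi.single j (1:ℝ) : Fin m → ℝ)))
      (fderiv ℝ g y1 (Pi.single j 1)) 0 := by
    have h2 : HasFDerivAt g (fderiv ℝ g y1) (y1 + (0:ℝ) • (Pi.single j (1:ℝ) : Fin m → ℝ)) := by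
      simpa using hgd.hasFDerivAt
    exact h2.comp_hasDerivAt (0:ℝ) hline
  have hco : ∀ i : Fin m, HasDerivAt (fun t : ℝ => (y1 + t • (Pi.single j (1:ℝ) : Fin m → ℝ)) i)
      ((Pi.single j (1:ℝ) : Fin m → ℝ) i) 0 := fun i => (hasDerivAt_pi.1 hline) i
  have hd : HasDerivAt (fun t : ℝ => G (x, y1 + t • (Pi.single j (1:ℝ) : Fin m → ℝ)))
      (fderiv ℝ g y1 (Pi.single j 1) +
        q * ∑ i, (2 : ℕ) * (y1 + (0:ℝ) • (Pi.single j (1:ℝ) : Fin m → ℝ)) i ^ (2 - 1) *
          (Pi.single j (1:ℝ) : Fin m → ℝ) i +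
        ∑ i, c i * (Pi.single j (1:ℝ) : Fin m → ℝ) i) 0 := by
    refine (hgd2.add ?_).add ?_
    · refine HasDerivAt.const_mul q ?_
      refine HasDerivAt.fun_sum (fun i _ => (hco i).pow 2)
    · refine HasDerivAt.fun_sum (fun i _ => (hco i).const_mul (c i))
  have hloc : IsLocalMin (fun t : ℝ => G (x, y1 + t • (Pi.single j (1:ℝ) : Fin m → ℝ))) 0 := by
    refine Eventually.of_forall ?_
    intro t
    simpa using hmin (y1 + t • (Pi.single j (1:ℝ) : Fin m → ℝ))
  have hz := hloc.hasDerivAt_eq_zero hd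
  have hs1 : ∑ i, (2 : ℕ) * (y1 + (0:ℝ) • (Pi.single j (1:ℝ) : Fin m → ℝ)) i ^ (2 - 1) *
          (Pi.single j (1:ℝ) : Fin m → ℝ) i = 2 * y1 j := by
    rw [Finset.sum_eq_single j]
    · simp
    · intro b _ hb
      simp [Pi.single_eq_of_ne hb]
    · intro h
      exact absurd (Finset.mem_univ j) h
  have hs2 : ∑ i, c i * (Pi.single j (1:ℝ) : Fin m → ℝ) i = c j := by
    rw [Finset.sum_eq_single j]
    · simp
    · intro b _ hb
      simp [Pi.single_eq_of_ne hb]
    · intro h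
      exact absurd (Finset.mem_univ j) h
  rw [hs1, hs2] at hz
  rw [hqdef] at hz
  linarith

end OMin
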