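import Pool.Agent.OMin.Nested

/-! # Frontiers of the approximating sets come close to frontier points of the limit -/

namespace OMin
open Set Filter Topology

private theorem nested_smallVL (p : ℕ) {δ : ℝ} (hδ : 0 < δ) :
    ∀ᶠ t in nested p, ∀ i, 0 < t i ∧ t i < δ := by
  induction p with
  | zero => exact Eventually.of_forall (fun t i => i.elim0)
  | succ p ih =>
    rw [eventually_nested_succ]
    filter_upwards [ih] with t ht
    have h1 : ∀ᶠ s in 𝓝[>] (0:ℝ), s ∈ Ioo (0:ℝ) δ := Ioo_mem_nhdsGT hδ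
    filter_upwards [h1] with s hs
    intro i
    refine Fin.cases ?_ ?_ i
    · simpa using hs
    · intro j; simpa using ht j

private theorem nested_le_nhdsVL (p : ℕ) : nested p ≤ 𝓝 (0 : Fin p → ℝ) := by
  rw [Metric.nhds_basis_ball.ge_iff]
  intro δ hδ
  have h := nested_smallVL p hδ
  filter_upwards [h] with t ht
  rw [Metric.mem_ball, dist_pi_lt_iff hδ]
  intro i
  have h2 := ht i
  simp only [Pi.zero_apply, Real.dist_eq, sub_zero]
  rw [abs_of_pos h2.1]
  exact h2.2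

private theorem frontier_interVL {X : Type} [TopologicalSpace X] {V B : Set X}
    (hB : IsPreconnected B) (h1 : (V ∩ B).Nonempty) (h2 : ∃ x ∈ B, x ∉ V) :
    (frontier V ∩ B).Nonempty := by
  by_contra hcon
  rw [not_nonempty_iff_eq_empty] at hcon
  have hcov : B ⊆ interior V ∪ (closure V)ᶜ := by
    intro x hx
    by_cases hxc : x ∈ closure V
    · left
      by_contra hxi
      have : x ∈ frontier V ∩ B := ⟨⟨hxc, hxi⟩, hx⟩
      rw [hcon] at this
      exact this
    · right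
      exact hxc
  obtain ⟨x1, hx1V, hx1B⟩ := h1
  obtain ⟨x2, hx2B, hx2V⟩ := h2
  have ha : (B ∩ interior V).Nonempty := by
    refine ⟨x1, hx1B, ?_⟩
    rcases hcov hx1B with h | h
    · exact h
    · exact absurd (subset_closure hx1V) h
  have hb : (B ∩ (closure V)ᶜ).Nonempty := by
    refine ⟨x2, hx2B, ?_⟩
    rcases hcov hx2B with h | h
    · exact absurd (interior_subset h) hx2V
    · exact h
  obtain ⟨x3, -, hx3, hx4⟩ := hB _ _ isOpen_interior isClosed_closure.isOpen_compl hcov ha hb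
  exact hx4 (subset_closure (interior_subset hx3))

private theorem compact_boundVL {m : ℕ} (g : (Fin m → ℝ) → ℝ) (hg : Continuous g)
    (hpos : ∀ y, 0 < g y) (R : ℝ) : ∃ m0 : ℝ, 0 < m0 ∧ ∀ y : Fin m → ℝ, ∑ j, y j ^ 2 ≤ R → m0 ≤ g y := by
  have hK : IsCompact {y : Fin m → ℝ | ∑ j, y j ^ 2 ≤ R} := by
    apply Metric.isCompact_of_isClosed_isBounded
    · exact isClosed_le (by fun_prop) continuous_const
    · rw [isBounded_iff_forall_norm_le]
      refine ⟨max R 1, ?_⟩
      intro y hy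
      rw [pi_norm_le_iff_of_nonneg (le_trans zero_le_one (le_max_right _ _))]
      intro i
      have h1 : y i ^ 2 ≤ R := by
        refine le_trans ?_ hy
        exact Finset.single_le_sum (f := fun j => y j ^ 2) (fun j _ => sq_nonneg _) (Finset.mem_univ i)
      rw [Real.norm_eq_abs]
      by_contra hcon
      push Not at hcon
      have h2 : R < |y i| := lt_of_le_of_lt (le_max_left _ _) hcon
      have h3 : 1 < |y i| := lt_of_le_of_lt (le_max_right _ _) hcon
      have h4 : y i ^ 2 = |y i| * |y i| := by rw [← sq, sq_abs]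
      nlinarith
  by_cases hne : {y : Fin m → ℝ | ∑ j, y j ^ 2 ≤ R}.Nonempty
  · obtain ⟨y0, -, hy0⟩ := hK.exists_isMinOn hne hg.continuousOn
    exact ⟨g y0, hpos y0, fun y hy => hy0 hy⟩
  · refine ⟨1, one_pos, fun y hy => absurd ⟨y, hy⟩ hne⟩

theorem Vset_frontier_near {ι : Type} [Fintype ι] {m p : ℕ}
    {f : (ι ⊕ (Fin m ⊕ Fin p) → ℝ) → ℝ} (hf : Continuous f) (h0 : ∀ z, 0 ≤ f z)
    {A : Set (ι → ℝ)} (hA : KLim (nested p) (ProjZero f) A) {x : ι → ℝ} (hx : x ∈ frontier A)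
    {U : Set (ι → ℝ)} (hU : U ∈ 𝓝 x) :
    ∀ᶠ t in nested (m + (2 + p)), ∃ (c : Fin m → ℝ) (η ρ : ℝ) (ε : Fin p → ℝ),
      t = Fin.append c (Fin.append ![η, ρ] ε) ∧ 0 < η ∧ 0 < ρ ∧
      (frontier (Vset f c η ρ ε) ∩ U).Nonempty := by
  obtain ⟨r, hr, hrU⟩ := Metric.mem_nhds_iff.1 hU
  have hBn : Metric.ball x r ∈ 𝓝 x := Metric.ball_mem_nhds x hr
  have hBc : IsPreconnected (Metric.ball x r) := (convex_ball x r).isPreconnected
  obtain ⟨x1, hx1B, hx1A⟩ : (Metric.ball x r ∩ A).Nonempty := mem_closure_iff_nhds.1 hx.1 _ hBn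
  obtain ⟨x2, hx2B, hx2A⟩ : ∃ x2 ∈ Metric.ball x r, x2 ∉ A := by
    by_contra hcon
    push Not at hcon
    exact hx.2 (mem_interior_iff_mem_nhds.2 (Filter.mem_of_superset hBn hcon))
  have e1 := hA.1 x1 hx1A _ (Metric.isOpen_ball.mem_nhds hx1B)
  obtain ⟨U2, hU2, e2⟩ := hA.2 x2 hx2A
  rw [eventually_nested_append, eventually_nested_append]
  filter_upwards [e1, e2] with ε h1 h2
  obtain ⟨x1', ⟨y1, hy1⟩, hx1'B⟩ := h1
  have hx2' : ∀ y : Fin m → ℝ, 0 < f (Sum.elim x2 (Sum.elim y ε)) := by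
    intro y
    refine lt_of_le_of_ne (h0 _) ?_
    intro heq
    have : x2 ∈ ProjZero f ε ∩ U2 := ⟨⟨y, heq.symm⟩, mem_of_mem_nhds hU2⟩
    rw [h2] at this
    exact this
  have hgc : Continuous (fun y : Fin m → ℝ => f (Sum.elim x2 (Sum.elim y ε))) := by
    apply hf.comp
    rw [continuous_pi_iff]
    intro i
    rcases i with i | i | i
    · exact continuous_const
    · simpa using continuous_apply i
    · exact continuous_const
  rw [eventually_nested_succ (p := 1), eventually_nested_one]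
  have e3 : ∀ᶠ ρ in 𝓝[>] (0:ℝ), ρ ^ 2 * ∑ j, y1 j ^ 2 < 1 / 2 := by
    have hc : Continuous (fun ρ : ℝ => ρ ^ 2 * ∑ j, y1 j ^ 2) := by fun_prop
    have := hc.tendsto 0
    simp only [ne_eq, OfNat.ofNat_ne_zero, not_false_eq_true, zero_pow, zero_mul] at this
    exact (this.eventually (gt_mem_nhds (by norm_num))).filter_mono nhdsWithin_le_nhds
  filter_upwards [e3, self_mem_nhdsWithin] with ρ hρ1 hρ0
  rw [mem_Ioi] at hρ0
  obtain ⟨m0, hm0, hm1⟩ := compact_boundVL _ hgc hx2' (2 / ρ ^ 2)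
  have e4 : ∀ᶠ η in 𝓝[>] (0:ℝ), η ∈ Ioo (0:ℝ) (m0 / 2) := Ioo_mem_nhdsGT (by positivity)
  filter_upwards [e4] with η hη
  have hη0 : 0 < η := hη.1
  have e5 : ∀ᶠ c in nested m, ∑ j, c j * y1 j < η / 2 := by
    have hc : Continuous (fun c : Fin m → ℝ => ∑ j, c j * y1 j) := by fun_prop
    have := hc.tendsto 0
    simp only [Pi.zero_apply, zero_mul, Finset.sum_const_zero] at this
    exact (this.eventually (gt_mem_nhds (by positivity))).filter_mono (nested_le_nhdsVL m)
  have e6 : ∀ᶠ c in nested m, ∑ j, c j ^ 2 < η ^ 2 * ρ ^ 2 / 2 := by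
    have hc : Continuous (fun c : Fin m → ℝ => ∑ j, c j ^ 2) := by fun_prop
    have := hc.tendsto 0
    simp only [Pi.zero_apply, ne_eq, OfNat.ofNat_ne_zero, not_false_eq_true, zero_pow,
      Finset.sum_const_zero] at this
    exact (this.eventually (gt_mem_nhds (by positivity))).filter_mono (nested_le_nhdsVL m)
  filter_upwards [e5, e6] with c hc1 hc2
  refine ⟨c, η, ρ, ε, ?_, hη0, hρ0, ?_⟩
  · congr 2
    funext i
    fin_cases i <;> rfl
  · refine (frontier_interVL hBc ?_ ?_).mono (inter_subset_inter_right _ hrU)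
    · refine ⟨x1', ⟨y1, ?_⟩, hx1'B⟩
      rw [hy1, zero_add]
      have : η * (ρ ^ 2 * ∑ j, y1 j ^ 2) < η * (1 / 2) := mul_lt_mul_of_pos_left hρ1 hη0
      nlinarith
    · refine ⟨x2, hx2B, ?_⟩
      rintro ⟨y, hy⟩
      have hkey : -(η * ρ ^ 2 / 4 * ∑ j, y j ^ 2) - (∑ j, c j ^ 2) / (η * ρ ^ 2) ≤
          ∑ j, c j * y j := by
        rw [Finset.mul_sum, Finset.sum_div, ← Finset.sum_neg_distrib, ← Finset.sum_sub_distrib]
        apply Finset.sum_le_sum
        intro j _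
        have hq : 0 < η * ρ ^ 2 := by positivity
        have h3 : c j * y j + (η * ρ ^ 2 / 4 * y j ^ 2 + c j ^ 2 / (η * ρ ^ 2)) =
            (η * ρ ^ 2) * (y j / 2 + c j / (η * ρ ^ 2)) ^ 2 := by
          field_simp
          ring
        have h4 : 0 ≤ (η * ρ ^ 2) * (y j / 2 + c j / (η * ρ ^ 2)) ^ 2 := by positivity
        linarith
      have hc3 : (∑ j, c j ^ 2) / (η * ρ ^ 2) < η / 2 := by
        rw [div_lt_iff₀ (by positivity)]
        nlinarith
      have hf0 : 0 ≤ f (Sum.elim x2 (Sum.elim y ε)) := h0 _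
      have hs0 : 0 ≤ η * ρ ^ 2 * ∑ j, y j ^ 2 := by positivity
      have h5 : f (Sum.elim x2 (Sum.elim y ε)) + 3 / 4 * (η * ρ ^ 2 * ∑ j, y j ^ 2) ≤
          3 / 2 * η := by linarith
      have h6 : ∑ j, y j ^ 2 ≤ 2 / ρ ^ 2 := by
        rw [le_div_iff₀ (by positivity)]
        have h7 : η * (ρ ^ 2 * ∑ j, y j ^ 2) ≤ η * 2 := by nlinarith
        have h8 := le_of_mul_le_mul_left h7 hη0
        linarith
      have h9 := hm1 y h6
      have h10 := hη.2
      linarith

end OMin
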