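import Pool.Agent.OMin.LemL
import Pool.Agent.OMin.Tower
import Pool.Agent.OMin.VFront
import Pool.Agent.OMin.VLim
import Pool.Agent.OMin.SNull

/-! # Frontiers are contained in thin sets -/

namespace OMin
open Set Filter Topology
open scoped ContDiff

theorem Kc_bdry {ι : Type} [Finite ι] {A : Set (ι → ℝ)} (hA : Kc ι A) :
    ∃ T : Set (ι → ℝ), Kc ι T ∧ interior T = ∅ ∧ frontier A ⊆ T := by
  classical
  have := Fintype.ofFinite ι
  obtain ⟨m, p, f, hf, h0, hlim⟩ := Kc_fin hA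
  have hfs : ContDiff ℝ ∞ f := EJ_contDiff hf
  obtain ⟨h1, h2⟩ := tower_small (Sset_Cc hf) (Sset_interior hfs)
  refine ⟨closure (tower _ (Sset f)), Kc_closure h1, lemN' h1 h2,
    fun x hx => mem_tower fun U hU => ?_⟩
  filter_upwards [Vset_frontier_near hfs.continuous h0 hlim hx hU] with t ht
  obtain ⟨c, η, ρ, ε, rfl, hη, hρ, x', hx', hxU⟩ := ht
  exact ⟨x', hxU, frontier_Vset hfs h0 hη hρ hx'⟩

namespace BdryAux

/-- the bounded part -/
def Ast {ι κ : Type} [Fintype κ] (B : Set (ι ⊕ κ → ℝ)) : Set (Option ι → ℝ) :=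
  {z | ∃ y : κ → ℝ, Sum.elim (fun i => z (some i)) y ∈ B ∧ ∑ k, y k ^ 2 ≤ z none}

theorem Ast_Cc {ι κ : Type} [Finite ι] [Fintype κ] {B : Set (ι ⊕ κ → ℝ)} (hB : Kc (ι ⊕ κ) B) :
    Cc (Option ι) (Ast B) := by
  have h1 : Cc (Option ι ⊕ κ) {w | (fun s : ι ⊕ κ => w (Sum.map some id s)) ∈ B} :=
    Cc_pull _ (Cc_of_Kc hB)
  have h2 : Cc (Option ι ⊕ κ) {w | ∑ k, w (Sum.inr k) ^ 2 ≤ w (Sum.inl none)} :=
    Cc_le (EJ_sum Finset.univ fun k _ => EJ_pow (EJ_coord (Sum.inr k)) 2)
      (EJ_coord (Sum.inl none))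
  have h3 := Cc_proj (Cc_inter h1 h2)
  have h4 : Ast B = {x | ∃ y : κ → ℝ, (Sum.elim x y : Option ι ⊕ κ → ℝ) ∈
      {w | (fun s : ι ⊕ κ => w (Sum.map some id s)) ∈ B} ∩
      {w | ∑ k, w (Sum.inr k) ^ 2 ≤ w (Sum.inl none)}} := by
    ext z
    have h5 : ∀ y : κ → ℝ, (fun s : ι ⊕ κ => (Sum.elim z y : Option ι ⊕ κ → ℝ)
        (Sum.map some id s)) = Sum.elim (fun i => z (some i)) y := by
      intro y; funext s; rcases s with s | s <;> rfl
    constructor
    · rintro ⟨y, h6, h7⟩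
      refine ⟨y, ?_, h7⟩
      show _ ∈ B
      rw [h5]; exact h6
    · rintro ⟨y, h6, h7⟩
      refine ⟨y, ?_, h7⟩
      rw [← h5]; exact h6
  rw [h4]; exact h3

theorem Ast_closed {ι κ : Type} [Finite ι] [Fintype κ] {B : Set (ι ⊕ κ → ℝ)}
    (hB : IsClosed B) : IsClosed (Ast B) := by
  have := Fintype.ofFinite ι
  refine IsSeqClosed.isClosed ?_
  intro z w hz hzw
  have hz' : ∀ n, ∃ y : κ → ℝ, Sum.elim (fun i => z n (some i)) y ∈ B ∧
      ∑ k, y k ^ 2 ≤ z n none := hz
  choose y hy1 hy2 using hz'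
  have hc : ∀ o, Tendsto (fun n => z n o) atTop (𝓝 (w o)) := tendsto_pi_nhds.1 hzw
  obtain ⟨M, hM⟩ := (hc none).bddAbove_range
  have hb : ∀ n, y n ∈ Metric.closedBall (0 : κ → ℝ) (Real.sqrt M) := by
    intro n
    rw [mem_closedBall_zero_iff, pi_norm_le_iff_of_nonneg (Real.sqrt_nonneg _)]
    intro k
    rw [Real.norm_eq_abs]
    refine Real.abs_le_sqrt ?_
    calc y n k ^ 2 ≤ ∑ k, y n k ^ 2 :=
          Finset.single_le_sum (f := fun k => y n k ^ 2) (fun i _ => sq_nonneg _)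
            (Finset.mem_univ k)
      _ ≤ z n none := hy2 n
      _ ≤ M := hM ⟨n, rfl⟩
  obtain ⟨y', -, φ, hφ, hlim⟩ := tendsto_subseq_of_bounded Metric.isBounded_closedBall hb
  have hcy : ∀ k, Tendsto (fun n => y (φ n) k) atTop (𝓝 (y' k)) := fun k =>
    (tendsto_pi_nhds.1 hlim) k
  refine ⟨y', ?_, ?_⟩
  · refine hB.mem_of_tendsto (b := atTop)
      (f := fun n => (Sum.elim (fun i => z (φ n) (some i)) (y (φ n)) : ι ⊕ κ → ℝ)) ?_
      (Eventually.of_forall fun n => hy1 (φ n))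
    rw [tendsto_pi_nhds]
    rintro (i | k)
    · exact (hc (some i)).comp hφ.tendsto_atTop
    · exact hcy k
  · refine le_of_tendsto_of_tendsto' (f := fun n => ∑ k, y (φ n) k ^ 2)
      (g := fun n => z (φ n) none) ?_ ((hc none).comp hφ.tendsto_atTop) fun n => hy2 (φ n)
    exact tendsto_finsetSum _ fun k _ => (hcy k).pow 2

/-- inversion of the last coordinate -/
def Inv {ι : Type} (T : Set (Option ι → ℝ)) : Set (Option ι → ℝ) :=
  {z | 0 < z none ∧ (fun o : Option ι => o.elim (z none)⁻¹ (fun i => z (some i))) ∈ T}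

/-- inclusion of the indices -/
def emb {ι : Type} (o : Option ι) : Option (Option ι) := o.elim none (fun i => some (some i))

theorem Inv_Cc {ι : Type} [Finite ι] {T : Set (Option ι → ℝ)} (hT : Cc (Option ι) T) :
    Cc (Option ι) (Inv T) := by
  have h1 : Cc (Option (Option ι)) {w | (fun o : Option ι => w (emb o)) ∈ T} :=
    Cc_pull _ hT
  have h2 : Cc (Option (Option ι)) {w | (0 : ℝ) < w (some none)} :=
    Cc_lt (EJ_const 0) (EJ_coord (some none))
  have h3 : Cc (Option (Option ι)) {w | w none * w (some none) = 1} :=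
    Cc_eq (EJ_mul (EJ_coord none) (EJ_coord (some none))) (EJ_const 1)
  have h4 := Cc_exists (Cc_inter (Cc_inter h1 h2) h3)
  have h5 : Inv T = {x | ∃ s : ℝ, (fun o : Option (Option ι) => o.elim s x) ∈
      ({w | (fun o : Option ι => w (emb o)) ∈ T} ∩ {w | (0 : ℝ) < w (some none)}) ∩
      {w | w none * w (some none) = 1}} := by
    ext z
    have h6 : ∀ s : ℝ, (fun o : Option ι => (fun o : Option (Option ι) => o.elim s z) (emb o)) =
        fun o : Option ι => o.elim s (fun i => z (some i)) := by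
      intro s; funext o; rcases o with _ | o <;> rfl
    constructor
    · rintro ⟨h7, h8⟩
      refine ⟨(z none)⁻¹, ⟨?_, h7⟩, ?_⟩
      · show _ ∈ T
        rw [h6]; exact h8
      · show (z none)⁻¹ * z none = 1
        exact inv_mul_cancel₀ h7.ne'
    · rintro ⟨s, ⟨h7, h8⟩, h9⟩
      have h10 : 0 < z none := h8
      have h11 : s * z none = 1 := h9
      have h12 : s = (z none)⁻¹ := eq_inv_of_mul_eq_one_left h11
      have h13 : _ ∈ T := h7
      rw [h6, h12] at h13
      exact ⟨h10, h13⟩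
  rw [h5]; exact h4

theorem Inv_interior {ι : Type} {T : Set (Option ι → ℝ)} (hT : interior T = ∅) :
    interior (Inv T) = ∅ := by
  rw [eq_empty_iff_forall_notMem]
  intro z hz
  have hz0 : 0 < z none := (interior_subset hz).1
  let g : (Option ι → ℝ) → (Option ι → ℝ) :=
    fun w o => o.elim (w none)⁻¹ (fun i => w (some i))
  have hgg : ∀ w : Option ι → ℝ, g (g w) = w := by
    intro w; funext o; rcases o with _ | o
    · show ((w none)⁻¹)⁻¹ = w none
      exact inv_inv _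
    · rfl
  have hg : ContinuousAt g (g z) := by
    rw [continuousAt_pi]
    rintro (_ | i)
    · refine ContinuousAt.inv₀ (continuous_apply _).continuousAt ?_
      show (z none)⁻¹ ≠ 0
      exact inv_ne_zero hz0.ne'
    · exact (continuous_apply _).continuousAt
  have h1 : g ⁻¹' (Inv T) ∈ 𝓝 (g z) := by
    refine hg.preimage_mem_nhds ?_
    rw [hgg]
    exact mem_interior_iff_mem_nhds.1 hz
  have h2 : g ⁻¹' (Inv T) ⊆ T := by
    intro w hw
    have h3 : g (g w) ∈ T := hw.2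
    rw [hgg] at h3
    exact h3
  have h4 : g z ∈ interior T := mem_interior_iff_mem_nhds.2 (mem_of_superset h1 h2)
  rw [hT] at h4
  exact h4

theorem meets_frontier {X : Type} [TopologicalSpace X] {S u : Set X} (hS : IsPreconnected S)
    {a b : X} (ha : a ∈ S) (hau : a ∈ u) (hb : b ∈ S) (hbu : b ∉ u) : (S ∩ frontier u).Nonempty := by
  by_contra hne
  rw [not_nonempty_iff_eq_empty] at hne
  have hS' : ∀ x ∈ S, x ∉ frontier u := fun x hx hf => by
    have : x ∈ S ∩ frontier u := ⟨hx, hf⟩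
    rw [hne] at this
    exact this
  have h1 : S ⊆ interior u ∪ (closure u)ᶜ := by
    intro x hx
    by_cases h : x ∈ closure u
    · left
      by_contra h2
      exact hS' x hx ⟨h, h2⟩
    · right; exact h
  have h2 := hS (interior u) ((closure u)ᶜ) isOpen_interior isClosed_closure.isOpen_compl h1
    ⟨a, ha, by
      rcases h1 ha with h | h
      · exact h
      · exact absurd (subset_closure hau) h⟩
    ⟨b, hb, by
      rcases h1 hb with h | h
      · exact absurd (interior_subset h) hbu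
      · exact h⟩
  obtain ⟨x, -, hx1, hx2⟩ := h2
  exact hx2 (subset_closure (interior_subset hx1))

end BdryAux

open BdryAux

theorem Cc_bdry {ι : Type} [Finite ι] {A : Set (ι → ℝ)} (hA : Cc ι A) :
    ∃ T : Set (ι → ℝ), Kc ι T ∧ interior T = ∅ ∧ frontier A ⊆ T := by
  classical
  have := Fintype.ofFinite ι
  obtain ⟨κ, hκ, B, hB, rfl⟩ := hA
  have := Fintype.ofFinite κ
  have hAst : Kc (Option ι) (Ast B) := by
    have h := Kc_closure (Ast_Cc hB)
    rwa [(Ast_closed (Kc_isClosed hB)).closure_eq] at h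
  obtain ⟨T, hT, hTi, hfr⟩ := Kc_bdry hAst
  have hD : Cc (Option ι) (Inv T) := Inv_Cc (Cc_of_Kc hT)
  have hDi : interior (Inv T) = ∅ := Inv_interior hTi
  refine ⟨closure (lim0 (Inv T)), Kc_closure (lim0_Cc hD), lemN' (lim0_Cc hD) (lemLO hD hDi),
    fun x hx => subset_closure ?_⟩
  show _ ∈ closure _
  rw [Metric.mem_closure_iff]
  intro ε hε
  rw [frontier_eq_closure_inter_closure] at hx
  obtain ⟨x1, ⟨y1, hy1⟩, hx1⟩ := Metric.mem_closure_iff.1 hx.1 ε hε
  obtain ⟨x2, hx2', hx2⟩ := Metric.mem_closure_iff.1 hx.2 ε hε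
  set R : ℝ := max (∑ k, y1 k ^ 2) (ε⁻¹ + 1) with hR
  have hR0 : 0 < R := lt_of_lt_of_le (by positivity) (le_max_right _ _)
  have hRi : R⁻¹ < ε := by
    rw [inv_lt_comm₀ hR0 hε]
    exact lt_of_lt_of_le (by linarith) (le_max_right _ _)
  let g : (ι → ℝ) → (Option ι → ℝ) := fun x' o => o.elim R x'
  have hg : Continuous g := by
    rw [continuous_pi_iff]
    rintro (_ | i)
    · exact continuous_const
    · exact continuous_apply _
  have hS : IsPreconnected (g '' Metric.ball x ε) :=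
    ((convex_ball x ε).isPreconnected).image g hg.continuousOn
  have h1 : g x1 ∈ Ast B := ⟨y1, hy1, le_max_left _ _⟩
  have h2 : g x2 ∉ Ast B := by
    rintro ⟨y, hy, -⟩
    exact hx2' ⟨y, hy⟩
  obtain ⟨w, ⟨x', hx', rfl⟩, hw⟩ := meets_frontier hS
    (mem_image_of_mem g (by rw [Metric.mem_ball']; exact hx1)) h1
    (mem_image_of_mem g (by rw [Metric.mem_ball']; exact hx2)) h2
  have hwT : g x' ∈ T := hfr hw
  refine ⟨fun o => o.elim R⁻¹ x', ⟨⟨?_, ?_⟩, ?_⟩, ?_⟩
  · show 0 < R⁻¹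
    positivity
  · show (fun o : Option ι => o.elim (R⁻¹)⁻¹ x') ∈ T
    rw [inv_inv]
    exact hwT
  · show 0 < R⁻¹
    positivity
  · rw [dist_pi_lt_iff hε]
    rintro (_ | i)
    · show dist (0 : ℝ) R⁻¹ < ε
      rw [Real.dist_eq, zero_sub, abs_neg, abs_of_pos (by positivity)]
      exact hRi
    · show dist (x i) (x' i) < ε
      refine lt_of_le_of_lt (dist_le_pi_dist x x' i) ?_
      rw [dist_comm]
      exact hx'

end OMin
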