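import Pool.Agent.OMin.DecStep
import Pool.Agent.OMin.Bdry

/-! # The complement theorem (module CP) -/

namespace OMin
open Set Filter Topology

namespace ComplStepAux

theorem Cc_exists_cons {n : ℕ} {M : Set (Fin (n + 1) → ℝ)} (h : Cc (Fin (n + 1)) M) :
    Cc (Fin n) {x | ∃ s : ℝ, (Fin.cons s x : Fin (n + 1) → ℝ) ∈ M} := by
  have h1 := Cc_exists (Cc_pull (fun k : Fin (n + 1) =>
    (Fin.cases none some k : Option (Fin n))) h)
  have h2 : ∀ (s : ℝ) (x : Fin n → ℝ), (fun k : Fin (n + 1) =>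
      (fun o : Option (Fin n) => o.elim s x) (Fin.cases none some k : Option (Fin n))) =
      (Fin.cons s x : Fin (n + 1) → ℝ) := by
    intro s x
    funext k
    refine Fin.cases ?_ (fun j => ?_) k
    · rfl
    · rfl
  have h3 : {x : Fin n → ℝ | ∃ s : ℝ, (fun o : Option (Fin n) => o.elim s x) ∈
      {x : Option (Fin n) → ℝ | (fun k : Fin (n + 1) =>
        x (Fin.cases none some k : Option (Fin n))) ∈ M}} =
      {x | ∃ s : ℝ, (Fin.cons s x : Fin (n + 1) → ℝ) ∈ M} := by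
    ext x
    constructor
    · rintro ⟨s, hs⟩
      refine ⟨s, ?_⟩
      rw [← h2 s x]
      exact hs
    · rintro ⟨s, hs⟩
      refine ⟨s, ?_⟩
      rw [← h2 s x] at hs
      exact hs
  rw [h3] at h1
  exact h1

/-- relative position of `s` and the points `b` -/
def Pat {k : ℕ} (σ : Fin k → SignType) (b : Fin k → ℝ) (s : ℝ) : Prop :=
  ∀ i, SignType.sign (s - b i) = σ i

theorem Pat_Cc {n k : ℕ} (σ : Fin k → SignType) :
    Cc (Fin (n + 1) ⊕ Fin k) {w | Pat σ (fun i => w (Sum.inr i)) (w (Sum.inl 0))} := by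
  have h : {w : Fin (n + 1) ⊕ Fin k → ℝ | Pat σ (fun i => w (Sum.inr i)) (w (Sum.inl 0))} =
      ⋂ i : Fin k, {w | SignType.sign (w (Sum.inl 0) - w (Sum.inr i)) = σ i} := by
    ext w
    simp only [Set.mem_iInter]
    exact Iff.rfl
  rw [h]
  apply Cc_iInter
  intro i
  rcases hσ : σ i with _ | _ | _
  · have h1 : {w : Fin (n + 1) ⊕ Fin k → ℝ | SignType.sign (w (Sum.inl 0) - w (Sum.inr i)) =
        SignType.zero} = {w | w (Sum.inl 0) = w (Sum.inr i)} := by
      ext w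
      show SignType.sign (w (Sum.inl 0) - w (Sum.inr i)) = 0 ↔ w (Sum.inl 0) = w (Sum.inr i)
      rw [sign_eq_zero_iff, sub_eq_zero]
    rw [h1]
    exact Cc_eq (EJ_coord _) (EJ_coord _)
  · have h1 : {w : Fin (n + 1) ⊕ Fin k → ℝ | SignType.sign (w (Sum.inl 0) - w (Sum.inr i)) =
        SignType.neg} = {w | w (Sum.inl 0) < w (Sum.inr i)} := by
      ext w
      show SignType.sign (w (Sum.inl 0) - w (Sum.inr i)) = -1 ↔ w (Sum.inl 0) < w (Sum.inr i)
      rw [sign_eq_neg_one_iff, sub_neg]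
    rw [h1]
    exact Cc_lt (EJ_coord _) (EJ_coord _)
  · have h1 : {w : Fin (n + 1) ⊕ Fin k → ℝ | SignType.sign (w (Sum.inl 0) - w (Sum.inr i)) =
        SignType.pos} = {w | w (Sum.inr i) < w (Sum.inl 0)} := by
      ext w
      show SignType.sign (w (Sum.inl 0) - w (Sum.inr i)) = 1 ↔ w (Sum.inr i) < w (Sum.inl 0)
      rw [sign_eq_one_iff, sub_pos]
    rw [h1]
    exact Cc_lt (EJ_coord _) (EJ_coord _)

/-- the interval between two points with the same position contains no point of `b`,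
unless they are equal -/
theorem Pat_interval {k : ℕ} {σ : Fin k → SignType} {b : Fin k → ℝ} {s s' : ℝ}
    (h : Pat σ b s) (h' : Pat σ b s') (hss : s < s') (i : Fin k) : b i ∉ Set.Icc s s' := by
  rintro ⟨h1, h2⟩
  have h3 : SignType.sign (s - b i) = SignType.sign (s' - b i) := (h i).trans (h' i).symm
  rcases lt_or_eq_of_le h1 with h4 | h4
  · have h5 : SignType.sign (s - b i) = -1 := sign_eq_neg_one_iff.2 (by linarith)
    rw [h5] at h3
    have h6 := sign_eq_neg_one_iff.1 h3.symm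
    linarith
  · have h5 : SignType.sign (s - b i) = 0 := sign_eq_zero_iff.2 (by linarith)
    rw [h5] at h3
    have h6 := sign_eq_zero_iff.1 h3.symm
    linarith

theorem inter_frontier {X : Type} [TopologicalSpace X] {I A : Set X} (hI : IsPreconnected I)
    (h1 : (I ∩ A).Nonempty) (h2 : (I ∩ Aᶜ).Nonempty) : (I ∩ frontier A).Nonempty := by
  by_contra hno
  have hdis : ∀ y ∈ I, y ∉ frontier A := fun y hy hy' => hno ⟨y, hy, hy'⟩
  have hor : ∀ y ∈ I, y ∈ interior A ∨ y ∈ (closure A)ᶜ := by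
    intro y hy
    by_contra hcon
    rw [not_or] at hcon
    exact hdis y hy ⟨Set.notMem_compl_iff.1 hcon.2, hcon.1⟩
  obtain ⟨y, hy1, hy2⟩ := h1
  obtain ⟨y', hy1', hy2'⟩ := h2
  have h3 : (I ∩ interior A).Nonempty := by
    rcases hor y hy1 with h | h
    · exact ⟨y, hy1, h⟩
    · exact absurd (subset_closure hy2) h
  have h4 : (I ∩ (closure A)ᶜ).Nonempty := by
    rcases hor y' hy1' with h | h
    · exact absurd (interior_subset h) hy2'
    · exact ⟨y', hy1', h⟩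
  obtain ⟨w, hw1, hw2, hw3⟩ := hI _ _ isOpen_interior isClosed_closure.isOpen_compl
    (fun y hy => hor y hy) h3 h4
  exact hw3 (subset_closure (interior_subset hw2))

theorem const_aux {n : ℕ} {A B : Set (Fin (n + 1) → ℝ)} (hfr : frontier A ⊆ B) {x : Fin n → ℝ}
    {k : ℕ} {σ : Fin k → SignType} {b : Fin k → ℝ}
    (hb : {s : ℝ | (Fin.cons s x : Fin (n + 1) → ℝ) ∈ B} = Set.range b) {s s' : ℝ}
    (h : Pat σ b s) (h' : Pat σ b s') (hss : s < s') :
    (Fin.cons s x : Fin (n + 1) → ℝ) ∈ A ↔ (Fin.cons s' x : Fin (n + 1) → ℝ) ∈ A := by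
  set I : Set (Fin (n + 1) → ℝ) := (fun t : ℝ => (Fin.cons t x : Fin (n + 1) → ℝ)) '' Set.Icc s s'
    with hI
  have hcont : Continuous (fun t : ℝ => (Fin.cons t x : Fin (n + 1) → ℝ)) := by
    rw [continuous_pi_iff]
    intro i
    refine Fin.cases ?_ (fun j => ?_) i
    · exact continuous_id
    · exact continuous_const
  have hpre : IsPreconnected I := isPreconnected_Icc.image _ hcont.continuousOn
  have hno : ¬ (I ∩ frontier A).Nonempty := by
    rintro ⟨_, ⟨t, ht, rfl⟩, ht'⟩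
    have h1 : t ∈ {s : ℝ | (Fin.cons s x : Fin (n + 1) → ℝ) ∈ B} := hfr ht'
    rw [hb] at h1
    obtain ⟨i, rfl⟩ := h1
    exact Pat_interval h h' hss i ht
  have hs : (Fin.cons s x : Fin (n + 1) → ℝ) ∈ I := ⟨s, ⟨le_refl _, hss.le⟩, rfl⟩
  have hs' : (Fin.cons s' x : Fin (n + 1) → ℝ) ∈ I := ⟨s', ⟨hss.le, le_refl _⟩, rfl⟩
  constructor
  · intro h1
    by_contra h2
    exact hno (inter_frontier hpre ⟨_, hs, h1⟩ ⟨_, hs', h2⟩)
  · intro h1
    by_contra h2
    exact hno (inter_frontier hpre ⟨_, hs', h1⟩ ⟨_, hs, h2⟩)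

theorem const_fib {n : ℕ} {A B : Set (Fin (n + 1) → ℝ)} (hfr : frontier A ⊆ B) {x : Fin n → ℝ}
    {k : ℕ} {σ : Fin k → SignType} {b : Fin k → ℝ}
    (hb : {s : ℝ | (Fin.cons s x : Fin (n + 1) → ℝ) ∈ B} = Set.range b) {s s' : ℝ}
    (h : Pat σ b s) (h' : Pat σ b s') :
    (Fin.cons s x : Fin (n + 1) → ℝ) ∈ A ↔ (Fin.cons s' x : Fin (n + 1) → ℝ) ∈ A := by
  rcases lt_trichotomy s s' with h1 | h1 | h1
  · exact const_aux hfr hb h h' h1
  · rw [h1]
  · exact (const_aux hfr hb h' h h1).symm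

/-- the points `(s, x)` over the set where the fibre of `B` has `k` points, with `s` in the
position `σ` -/
def Cell {n : ℕ} (B : Set (Fin (n + 1) → ℝ)) (k : ℕ) (σ : Fin k → SignType) :
    Set (Fin (n + 1) → ℝ) :=
  {z | ∃ b : Fin k → ℝ, (Sum.elim z b : Fin (n + 1) ⊕ Fin k → ℝ) ∈
    ({w | (fun q : Fin n ⊕ Fin k => w (Sum.map Fin.succ id q)) ∈
        {z | StrictMono (fun i : Fin k => z (Sum.inr i)) ∧
          {s : ℝ | (Fin.cons s (fun i => z (Sum.inl i)) : Fin (n + 1) → ℝ) ∈ B} =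
            Set.range (fun i : Fin k => z (Sum.inr i))}} ∩
      {w | Pat σ (fun i => w (Sum.inr i)) (w (Sum.inl 0))} : Set (Fin (n + 1) ⊕ Fin k → ℝ))}

theorem mem_Cell {n : ℕ} {B : Set (Fin (n + 1) → ℝ)} {k : ℕ} {σ : Fin k → SignType}
    {z : Fin (n + 1) → ℝ} : z ∈ Cell B k σ ↔ ∃ b : Fin k → ℝ, StrictMono b ∧
      {s : ℝ | (Fin.cons s (Fin.tail z) : Fin (n + 1) → ℝ) ∈ B} = Set.range b ∧
      Pat σ b (z 0) := by
  constructor
  · rintro ⟨b, ⟨hb1, hb2⟩, hb3⟩
    exact ⟨b, hb1, hb2, hb3⟩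
  · rintro ⟨b, hb1, hb2, hb3⟩
    exact ⟨b, ⟨hb1, hb2⟩, hb3⟩

theorem Cell_Cc {n : ℕ} (hC : ComplN n) {B : Set (Fin (n + 1) → ℝ)}
    (hB : Cc (Fin (n + 1)) B) (k : ℕ) (σ : Fin k → SignType) :
    Cc (Fin (n + 1)) (Cell B k σ) := by
  apply Cc_proj
  apply Cc_inter
  · exact Cc_pull (Sum.map Fin.succ id) (fibList_Cc hC hB k)
  · exact Pat_Cc σ

end ComplStepAux

open ComplStepAux

theorem compl_fin (n : ℕ) (hC : ComplN n) {A B : Set (Fin (n + 1) → ℝ)}
    (hA : Cc (Fin (n + 1)) A) (hB : Cc (Fin (n + 1)) B) (hfr : frontier A ⊆ B)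
    (hcl : IsClosed B) :
    Cc (Fin (n + 1)) {z | z ∉ A ∧ Fin.tail z ∉ bigFib B} := by
  classical
  obtain ⟨N, hN⟩ := fib_card hB
  -- the sets of `x` over which a position meets `A`
  have hW : ∀ (k : ℕ) (σ : Fin k → SignType), Cc (Fin n)
      {x | ∃ s : ℝ, (Fin.cons s x : Fin (n + 1) → ℝ) ∈ Cell B k σ ∩ A}ᶜ :=
    fun k σ => hC _ (Cc_exists_cons (Cc_inter (Cell_Cc hC hB k σ) hA))
  have heq : {z : Fin (n + 1) → ℝ | z ∉ A ∧ Fin.tail z ∉ bigFib B} =
      ⋃ k : Fin (N + 1), ⋃ σ : Fin k → SignType, Cell B k σ ∩ {z | (fun i => z (Fin.succ i)) ∈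
        {x : Fin n → ℝ | ∃ s : ℝ, (Fin.cons s x : Fin (n + 1) → ℝ) ∈ Cell B k σ ∩ A}ᶜ} := by
    ext z
    simp only [Set.mem_iUnion]
    constructor
    · rintro ⟨hzA, hzb⟩
      have hfin : {s : ℝ | (Fin.cons s (Fin.tail z) : Fin (n + 1) → ℝ) ∈ B}.Finite :=
        Set.not_infinite.1 hzb
      have hcard := hN _ hfin
      rw [Set.ncard_eq_toFinset_card _ hfin] at hcard
      set F := hfin.toFinset with hF
      set b := F.orderEmbOfFin rfl with hbdef
      have hr : Set.range b = {s : ℝ | (Fin.cons s (Fin.tail z) : Fin (n + 1) → ℝ) ∈ B} := by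
        rw [hbdef, Finset.range_orderEmbOfFin, hF, Set.Finite.coe_toFinset]
      refine ⟨⟨F.card, Nat.lt_succ_of_le hcard⟩, fun i => SignType.sign (z 0 - b i), ?_, ?_⟩
      · exact mem_Cell.2 ⟨b, b.strictMono, hr.symm, fun i => rfl⟩
      · rintro ⟨s, hs1, hs2⟩
        obtain ⟨b', hb1, hb2, hb3⟩ := mem_Cell.1 hs1
        have e1 : Fin.tail (Fin.cons s (fun i => z (Fin.succ i)) : Fin (n + 1) → ℝ) =
            Fin.tail z := Fin.tail_cons _ _
        rw [e1, ← hr] at hb2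
        have e2 : b' = b := ((StrictMono.range_inj b.strictMono hb1).1 hb2).symm
        have e3 : (Fin.cons s (fun i => z (Fin.succ i)) : Fin (n + 1) → ℝ) 0 = s := rfl
        rw [e2, e3] at hb3
        apply hzA
        rw [← Fin.cons_self_tail z]
        exact (const_fib hfr hr.symm (fun i => rfl) hb3).2 hs2
    · rintro ⟨k, σ, hz1, hz2⟩
      obtain ⟨b, hb1, hb2, hb3⟩ := mem_Cell.1 hz1
      constructor
      · intro hzA
        apply hz2
        refine ⟨z 0, ?_⟩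
        have e1 : (Fin.cons (z 0) (fun i => z (Fin.succ i)) : Fin (n + 1) → ℝ) = z :=
          Fin.cons_self_tail z
        rw [e1]
        exact ⟨hz1, hzA⟩
      · intro hzb
        have h1 : {s : ℝ | (Fin.cons s (Fin.tail z) : Fin (n + 1) → ℝ) ∈ B}.Infinite := hzb
        rw [hb2] at h1
        exact h1 (Set.finite_range b)
  rw [heq]
  apply Cc_iUnion
  intro k
  apply Cc_iUnion
  intro σ
  exact Cc_inter (Cell_Cc hC hB k σ) (Cc_pull Fin.succ (hW k σ))

theorem compl_big (n : ℕ) (hC : ComplN n) {A : Set (Fin (n + 1) → ℝ)} {G : Set (Fin n → ℝ)}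
    {i : Fin n} (hA : Cc (Fin (n + 1)) A) (hG : Cc (Fin n) G) (hi : DropInj G i) :
    Cc (Fin (n + 1)) {z | z ∉ A ∧ Fin.tail z ∈ G} := by
  classical
  have hG' : Cc (Fin (n + 1)) {z | (fun j => z (Fin.succ j)) ∈ G} := Cc_pull Fin.succ hG
  set e := finSuccEquiv' (i.succ) with he
  have h1 := Cc_exists (Cc_pull (fun k : Fin (n + 1) => e k) (Cc_inter hA hG'))
  set A' : Set (Fin n → ℝ) := {x : Fin n → ℝ | ∃ s : ℝ, (fun o : Option (Fin n) => o.elim s x) ∈
      {x : Option (Fin n) → ℝ | (fun k : Fin (n + 1) => x (e k)) ∈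
        A ∩ {z | (fun j => z (Fin.succ j)) ∈ G}}} with hA'
  have h2 := Cc_pull (i.succ).succAbove (hC A' h1)
  have key : ∀ (z : Fin (n + 1) → ℝ) (s : ℝ) (k : Fin (n + 1)), k ≠ i.succ →
      (e k).elim s (fun j => z (i.succ.succAbove j)) = z k := by
    intro z s k hk
    obtain ⟨j, rfl⟩ := Fin.exists_succAbove_eq hk
    rw [he, finSuccEquiv'_succAbove]
    rfl
  have heq : {z : Fin (n + 1) → ℝ | z ∉ A ∧ Fin.tail z ∈ G} =
      {z | (fun j => z (i.succ.succAbove j)) ∈ A'ᶜ} ∩ {z | (fun j => z (Fin.succ j)) ∈ G} := by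
    ext z
    constructor
    · rintro ⟨hzA, hzG⟩
      refine ⟨?_, hzG⟩
      rintro ⟨s, hs1, hs2⟩
      set w : Fin (n + 1) → ℝ := fun k => (e k).elim s (fun j => z (i.succ.succAbove j)) with hw
      have hw1 : w ∈ A := hs1
      have hw2 : Fin.tail w ∈ G := hs2
      have hwz : ∀ k, k ≠ i.succ → w k = z k := fun k hk => key z s k hk
      have htail : Fin.tail w = Fin.tail z := by
        apply hi _ hw2 _ hzG
        intro j hj
        exact hwz _ (fun h => hj (Fin.succ_injective _ h))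
      have h0 : w 0 = z 0 := hwz 0 (Fin.succ_ne_zero _).symm
      have hwz' : w = z := by
        rw [← Fin.cons_self_tail w, ← Fin.cons_self_tail z, htail, h0]
      rw [hwz'] at hw1
      exact hzA hw1
    · rintro ⟨hz1, hz2⟩
      refine ⟨?_, hz2⟩
      intro hzA
      apply hz1
      refine ⟨z i.succ, ?_⟩
      have hwz : (fun k => (e k).elim (z i.succ) (fun j => z (i.succ.succAbove j))) = z := by
        funext k
        by_cases hk : k = i.succ
        · rw [hk, he, finSuccEquiv'_at]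
          rfl
        · exact key z _ k hk
      show (fun k => (e k).elim (z i.succ) (fun j => z (i.succ.succAbove j))) ∈
        A ∩ {z | (fun j => z (Fin.succ j)) ∈ G}
      rw [hwz]
      exact ⟨hzA, hz2⟩
  rw [heq]
  exact Cc_inter h2 hG'

theorem compl_succ (n : ℕ) (hC : ComplN n) (hD : DecN n) : ComplN (n + 1) := by
  intro A hA
  obtain ⟨T, hT, hTi, hTA⟩ := Cc_bdry hA
  have hTC : Cc (Fin (n + 1)) T := Cc_of_Kc hT
  obtain ⟨k, H, i, hH1, hH2, hH3⟩ := hD (bigFib T) (bigFib_Cc hTC) (bigFib_interior hTC hTi)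
  have heq : Aᶜ = {z : Fin (n + 1) → ℝ | z ∉ A ∧ Fin.tail z ∉ bigFib T} ∪
      ⋃ l, {z : Fin (n + 1) → ℝ | z ∉ A ∧ Fin.tail z ∈ H l} := by
    ext z
    constructor
    · intro hz
      by_cases h : Fin.tail z ∈ bigFib T
      · right
        rw [hH3] at h
        obtain ⟨l, hl⟩ := Set.mem_iUnion.1 h
        exact Set.mem_iUnion.2 ⟨l, hz, hl⟩
      · exact Or.inl ⟨hz, h⟩
    · rintro (h | h)
      · exact h.1
      · obtain ⟨l, hl⟩ := Set.mem_iUnion.1 h
        exact hl.1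
  rw [heq]
  exact Cc_union (compl_fin n hC hA hTC hTA (Kc_isClosed hT))
    (Cc_iUnion fun l => compl_big n hC hA (hH1 l) (hH2 l))

theorem complAll (n : ℕ) : ComplN n := by
  have h : ComplN n ∧ DecN n := by
    induction n with
    | zero => exact ⟨compl_zero, dec_zero⟩
    | succ n ih => exact ⟨compl_succ n ih.1 ih.2, dec_succ n ih.1 ih.2⟩
  exact h.1

end OMin
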