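import Pool.Agent.OMin.Defs

/-! # module CK : sets that cannot be cut into many pieces -/

namespace OMin
open Set Filter Topology
open scoped ContDiff

theorem compLe_image {X Y : Type} [TopologicalSpace X] [TopologicalSpace Y] {N : ℕ} {S : Set X}
    (h : CompLe N S) {f : X → Y} (hf : Continuous f) : CompLe N (f '' S) := by
  rintro ⟨U, hU, hcov, hne, hd⟩
  refine h ⟨fun i => f ⁻¹' U i, fun i => (hU i).preimage hf, fun x hx => ?_, fun i => ?_,
    fun i j hij => ?_⟩
  · obtain ⟨i, hi⟩ := mem_iUnion.1 (hcov (mem_image_of_mem f hx))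
    exact mem_iUnion.2 ⟨i, hi⟩
  · obtain ⟨y, ⟨x, hx, rfl⟩, hy⟩ := hne i
    exact ⟨x, hx, hy⟩
  · rw [eq_empty_iff_forall_notMem]
    rintro x ⟨⟨hx, hi⟩, hj⟩
    have : f x ∈ f '' S ∩ U i ∩ U j := ⟨⟨mem_image_of_mem f hx, hi⟩, hj⟩
    rw [hd i j hij] at this
    exact this

private theorem split_mono {X : Type} [TopologicalSpace X] {N M : ℕ} (hNM : N ≤ M) {S : Set X}
    (h : Split M S) : Split N S := by
  obtain ⟨U, hU, hcov, hne, hd⟩ := h
  refine ⟨fun i => ⋃ j : {j : Fin (M + 1) // min j.val N = i.val}, U j.1,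
    fun i => isOpen_iUnion fun j => hU j.1, fun x hx => ?_, fun i => ?_, fun i j hij => ?_⟩
  · obtain ⟨j, hj⟩ := mem_iUnion.1 (hcov hx)
    refine mem_iUnion.2 ⟨⟨min j.val N, by omega⟩, mem_iUnion.2 ⟨⟨j, rfl⟩, hj⟩⟩
  · obtain ⟨x, hx, hx'⟩ := hne ⟨i.val, by omega⟩
    refine ⟨x, hx, mem_iUnion.2 ⟨⟨⟨i.val, by omega⟩, ?_⟩, hx'⟩⟩
    change min i.val N = i.val
    omega
  · rw [eq_empty_iff_forall_notMem]
    rintro x ⟨⟨hx, hi⟩, hj⟩
    obtain ⟨⟨a, ha⟩, hxa⟩ := mem_iUnion.1 hi
    obtain ⟨⟨b, hb⟩, hxb⟩ := mem_iUnion.1 hj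
    have hab : a ≠ b := by
      rintro rfl
      exact hij (Fin.ext (ha.symm.trans hb))
    have : x ∈ S ∩ U a ∩ U b := ⟨⟨hx, hxa⟩, hxb⟩
    rw [hd a b hab] at this
    exact this

theorem compLe_mono {X : Type} [TopologicalSpace X] {N M : ℕ} (hNM : N ≤ M) {S : Set X}
    (h : CompLe N S) : CompLe M S := fun h' => h (split_mono hNM h')

private theorem split_succ {X : Type} [TopologicalSpace X] {k : ℕ} {S : Set X}
    {U : Fin (k + 1) → Set X} (hU : ∀ i, IsOpen (U i)) (hcov : S ⊆ ⋃ i, U i)
    (hne : ∀ i, (S ∩ U i).Nonempty) (hd : ∀ i j, i ≠ j → S ∩ U i ∩ U j = ∅) {i : Fin (k + 1)}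
    (h : ¬ IsPreconnected (S ∩ U i)) : Split (k + 1) S := by
  classical
  rw [IsPreconnected] at h
  push Not at h
  obtain ⟨V, W, hV, hW, hVW, hSV, hSW, hdis⟩ := h
  have key : ∀ j, j ≠ i → ∀ x, x ∈ S → x ∈ U j → x ∈ U i → False := by
    intro j hj x hx hxj hxi
    have : x ∈ S ∩ U j ∩ U i := ⟨⟨hx, hxj⟩, hxi⟩
    rw [hd j i hj] at this
    exact this
  have hVWx : ∀ x, x ∈ S → x ∈ U i → x ∈ V → x ∈ W → False := by
    intro x hx hxi hxV hxW
    have : x ∈ S ∩ U i ∩ (V ∩ W) := ⟨⟨hx, hxi⟩, hxV, hxW⟩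
    rw [hdis] at this
    exact this
  -- the pieces
  have hpiece : ∀ j x, x ∈ Function.update U i (U i ∩ V) j → x ∈ U j := by
    intro j x hx
    by_cases hj : j = i
    · subst hj
      rw [Function.update_self] at hx
      exact hx.1
    · rwa [Function.update_of_ne hj] at hx
  refine ⟨Fin.cons (U i ∩ W) (Function.update U i (U i ∩ V)), ?_, ?_, ?_, ?_⟩
  · intro j
    refine Fin.cases ?_ (fun j => ?_) j
    · rw [Fin.cons_zero]
      exact (hU i).inter hW
    · rw [Fin.cons_succ]
      by_cases hj : j = i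
      · subst hj
        rw [Function.update_self]
        exact (hU _).inter hV
      · rw [Function.update_of_ne hj]
        exact hU j
  · intro x hx
    obtain ⟨j, hj⟩ := mem_iUnion.1 (hcov hx)
    by_cases hji : j = i
    · subst hji
      rcases hVW ⟨hx, hj⟩ with h | h
      · refine mem_iUnion.2 ⟨j.succ, ?_⟩
        rw [Fin.cons_succ, Function.update_self]
        exact ⟨hj, h⟩
      · refine mem_iUnion.2 ⟨0, ?_⟩
        rw [Fin.cons_zero]
        exact ⟨hj, h⟩
    · refine mem_iUnion.2 ⟨j.succ, ?_⟩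
      rw [Fin.cons_succ, Function.update_of_ne hji]
      exact hj
  · intro j
    refine Fin.cases ?_ (fun j => ?_) j
    · rw [Fin.cons_zero]
      obtain ⟨x, ⟨hx, hxi⟩, hxW⟩ := hSW
      exact ⟨x, hx, hxi, hxW⟩
    · rw [Fin.cons_succ]
      by_cases hj : j = i
      · subst hj
        rw [Function.update_self]
        obtain ⟨x, ⟨hx, hxi⟩, hxV⟩ := hSV
        exact ⟨x, hx, hxi, hxV⟩
      · rw [Function.update_of_ne hj]
        exact hne j
  · have key0 : ∀ j x, x ∈ S → x ∈ U i ∩ W → x ∈ Function.update U i (U i ∩ V) j → False := by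
      intro j x hx hxW hxj
      by_cases hj : j = i
      · subst hj
        rw [Function.update_self] at hxj
        exact hVWx x hx hxj.1 hxj.2 hxW.2
      · rw [Function.update_of_ne hj] at hxj
        exact key j hj x hx hxj hxW.1
    have main : ∀ (a b : Fin (k + 2)) (x : X), x ∈ S → a ≠ b →
        x ∈ (Fin.cons (U i ∩ W) (Function.update U i (U i ∩ V)) : Fin (k + 2) → Set X) a →
        x ∈ (Fin.cons (U i ∩ W) (Function.update U i (U i ∩ V)) : Fin (k + 2) → Set X) b →
        False := by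
      intro a b x hx
      refine Fin.cases ?_ (fun a => ?_) a
      · refine Fin.cases ?_ (fun b => ?_) b
        · intro hab; exact absurd rfl hab
        · intro _ ha hb
          rw [Fin.cons_zero] at ha
          rw [Fin.cons_succ] at hb
          exact key0 b x hx ha hb
      · refine Fin.cases ?_ (fun b => ?_) b
        · intro _ ha hb
          rw [Fin.cons_zero] at hb
          rw [Fin.cons_succ] at ha
          exact key0 a x hx hb ha
        · intro hab ha hb
          rw [Fin.cons_succ] at ha hb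
          have hab' : a ≠ b := fun h => hab (by rw [h])
          have : x ∈ S ∩ U a ∩ U b := ⟨⟨hx, hpiece a x ha⟩, hpiece b x hb⟩
          rw [hd a b hab'] at this
          exact this
    intro a b hab
    rw [eq_empty_iff_forall_notMem]
    rintro x ⟨⟨hx, ha⟩, hb⟩
    exact main a b x hx hab ha hb

theorem compLe_real {N : ℕ} {S : Set ℝ} (h : CompLe N S) :
    ∃ C : Fin N → Set ℝ, (∀ i, (C i).OrdConnected) ∧ S = ⋃ i, C i := by
  classical
  have hex : ∃ N, CompLe N S := ⟨N, h⟩
  have hle : Nat.find hex ≤ N := Nat.find_le h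
  have hmin := Nat.find_spec hex
  rcases hk : Nat.find hex with _ | k
  · rw [hk] at hmin
    have hS : S = ∅ := by
      by_contra hS
      apply hmin
      refine ⟨fun _ => univ, fun _ => isOpen_univ, fun x _ => mem_iUnion.2 ⟨0, mem_univ x⟩,
        fun i => ?_, fun i j hij => absurd (Fin.ext (by omega)) hij⟩
      rw [inter_univ]
      exact nonempty_iff_ne_empty.2 hS
    refine ⟨fun _ => ∅, fun _ => ordConnected_empty, ?_⟩
    rw [hS]
    simp
  · have hsp : Split k S := by
      by_contra hcon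
      have := Nat.find_le (h := hex) (show CompLe k S from hcon)
      omega
    rw [hk] at hmin hle
    obtain ⟨U, hU, hcov, hne, hd⟩ := hsp
    have hpre : ∀ i, IsPreconnected (S ∩ U i) := by
      intro i
      by_contra hcon
      exact hmin (split_succ hU hcov hne hd hcon)
    refine ⟨fun i => if hi : i.val < k + 1 then S ∩ U ⟨i.val, hi⟩ else ∅, fun i => ?_, ?_⟩
    · dsimp only
      split_ifs with hi
      · exact (hpre _).ordConnected
      · exact ordConnected_empty
    · apply subset_antisymm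
      · intro x hx
        obtain ⟨j, hj⟩ := mem_iUnion.1 (hcov hx)
        refine mem_iUnion.2 ⟨⟨j.val, by omega⟩, ?_⟩
        rw [dif_pos j.2]
        exact ⟨hx, hj⟩
      · refine iUnion_subset fun i => ?_
        split_ifs with hi
        · exact inter_subset_left
        · exact empty_subset _

end OMin
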