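import Pool.Agent.OMin.Defs

/-! # Upward continuation (module CT) -/

namespace OMin
open Set Filter Topology

section Continuation

variable {X Y : Type} [TopologicalSpace X] [TopologicalSpace Y]

private theorem image_nhds {Φ : X → Y × ℝ} {x : X} (e : OpenPartialHomeomorph X (Y × ℝ))
    (hx : x ∈ e.source) (he : Set.EqOn Φ e e.source) {V : Set X} (hV : V ∈ 𝓝 x) :
    Φ '' V ∈ 𝓝 (Φ x) := by
  have h1 : Filter.map e (𝓝 x) = 𝓝 (e x) := e.map_nhds_eq hx
  have h2 : Φ =ᶠ[𝓝 x] e := by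
    filter_upwards [e.open_source.mem_nhds hx] with y hy
    exact he hy
  rw [he hx, ← h1, ← Filter.map_congr h2]
  exact Filter.image_mem_map hV

/-- the number of points of a level is at most the number of boundary points above -/
private def Lev (Φ : X → Y × ℝ) (L : Set X) (c : Y) (T : Finset X) (σ : ℝ) : Prop :=
  ∀ F : Finset X, (∀ q ∈ F, q ∈ L ∧ Φ q = (c, σ)) →
    F.card ≤ (T.filter (fun q => σ ≤ (Φ q).2)).card

private theorem persist_up [T2Space X] {Φ : X → Y × ℝ} {L : Set X}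
    (hloc : ∀ x ∈ L, ∃ e : OpenPartialHomeomorph X (Y × ℝ), x ∈ e.source ∧ Set.EqOn Φ e e.source)
    {c : Y} {σ : ℝ} (F : Finset X) (hF : ∀ q ∈ F, q ∈ interior L ∧ Φ q = (c, σ)) :
    ∀ᶠ σ' in 𝓝 σ, ∃ F' : Finset X, F'.card = F.card ∧ ∀ q ∈ F', q ∈ L ∧ Φ q = (c, σ') := by
  classical
  obtain ⟨U, hU, hdis⟩ := (F.finite_toSet).t2_separation
  have key : ∀ q ∈ F, ∀ᶠ σ' in 𝓝 σ, ∃ q' ∈ U q ∩ interior L, Φ q' = (c, σ') := by
    intro q hq
    obtain ⟨hqi, hqΦ⟩ := hF q hq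
    obtain ⟨e, he, hee⟩ := hloc q (interior_subset hqi)
    have hV : U q ∩ interior L ∈ 𝓝 q :=
      Filter.inter_mem ((hU q).2.mem_nhds (hU q).1) (isOpen_interior.mem_nhds hqi)
    have h1 := image_nhds e he hee hV
    rw [hqΦ] at h1
    have h2 : Continuous (fun σ' : ℝ => ((c, σ') : Y × ℝ)) := by fun_prop
    have h3 : ∀ᶠ σ' in 𝓝 σ, ((c, σ') : Y × ℝ) ∈ Φ '' (U q ∩ interior L) :=
      (h2.tendsto σ).eventually h1
    filter_upwards [h3] with σ' hσ'
    obtain ⟨q', hq', hq''⟩ := hσ'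
    exact ⟨q', hq', hq''⟩
  have key' : ∀ᶠ σ' in 𝓝 σ, ∀ q ∈ F, ∃ q' ∈ U q ∩ interior L, Φ q' = (c, σ') :=
    (Filter.eventually_all_finset F).2 key
  filter_upwards [key'] with σ' hσ'
  choose! g hg1 hg2 using hσ'
  refine ⟨F.image g, ?_, ?_⟩
  · apply Finset.card_image_of_injOn
    intro a ha b hb hab
    by_contra hne
    have h := hdis ha hb hne
    exact Set.disjoint_left.1 h (hg1 a ha).1 (by
      have := (hg1 b hb).1
      simpa [hab] using this)
  · intro q hq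
    obtain ⟨a, ha, rfl⟩ := Finset.mem_image.1 hq
    exact ⟨interior_subset (hg1 a ha).2, hg2 a ha⟩

private theorem upper_semi [T2Space X] [T2Space Y] {Φ : X → Y × ℝ} {L : Set X} (hL : IsCompact L)
    (hcont : Continuous Φ)
    (hloc : ∀ x ∈ L, ∃ e : OpenPartialHomeomorph X (Y × ℝ), x ∈ e.source ∧ Set.EqOn Φ e e.source)
    (c : Y) (σ : ℝ) :
    ∃ F : Finset X, (∀ q ∈ F, q ∈ L ∧ Φ q = (c, σ)) ∧ ∀ᶠ σ' in 𝓝 σ, ∀ F' : Finset X,
      (∀ q ∈ F', q ∈ L ∧ Φ q = (c, σ')) → F'.card ≤ F.card := by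
  classical
  -- choose the neighbourhoods of injectivity
  have hinj : ∀ x ∈ L, ∃ O : Set X, IsOpen O ∧ x ∈ O ∧ Set.InjOn Φ O := by
    intro x hx
    obtain ⟨e, he, hee⟩ := hloc x hx
    exact ⟨e.source, e.open_source, he, (hee.injOn_iff).2 e.injOn⟩
  choose! O hOo hOx hOi using hinj
  -- the level
  have hK : IsCompact (L ∩ Φ ⁻¹' {(c, σ)}) :=
    hL.inter_right (isClosed_singleton.preimage hcont)
  obtain ⟨F, hF1, hF2⟩ := hK.elim_nhds_subcover O
    (fun x hx => (hOo x hx.1).mem_nhds (hOx x hx.1))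
  refine ⟨F, fun q hq => ⟨(hF1 q hq).1, (hF1 q hq).2⟩, ?_⟩
  -- outside of the neighbourhoods
  set W : Set X := ⋃ x ∈ F, O x with hW
  have hWo : IsOpen W := isOpen_biUnion fun x hx => hOo x (hF1 x hx).1
  have hD : IsCompact ((L \ W) ∩ Φ ⁻¹' (Prod.fst ⁻¹' {c})) :=
    (hL.diff hWo).inter_right ((isClosed_singleton.preimage continuous_fst).preimage hcont)
  have hD' : IsCompact ((fun x => (Φ x).2) '' ((L \ W) ∩ Φ ⁻¹' (Prod.fst ⁻¹' {c}))) :=
    hD.image (continuous_snd.comp hcont)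
  have hσ : σ ∉ (fun x => (Φ x).2) '' ((L \ W) ∩ Φ ⁻¹' (Prod.fst ⁻¹' {c})) := by
    rintro ⟨x, ⟨⟨hxL, hxW⟩, hxc⟩, hxσ⟩
    apply hxW
    apply hF2
    refine ⟨hxL, ?_⟩
    have h1 : (Φ x).1 = c := hxc
    have h2 : (Φ x).2 = σ := hxσ
    show Φ x = (c, σ)
    exact Prod.ext h1 h2
  filter_upwards [hD'.isClosed.isOpen_compl.mem_nhds hσ] with σ' hσ' F' hF'
  -- every point of the level lies in some neighbourhood
  have hmem : ∀ q ∈ F', ∃ x ∈ F, q ∈ O x := by
    intro q hq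
    by_contra hcon
    apply hσ'
    refine ⟨q, ⟨⟨(hF' q hq).1, ?_⟩, ?_⟩, ?_⟩
    · intro hqW
      rw [hW] at hqW
      simp only [Set.mem_iUnion] at hqW
      obtain ⟨x, hx, hqx⟩ := hqW
      exact hcon ⟨x, hx, hqx⟩
    · show (Φ q).1 = c
      rw [(hF' q hq).2]
    · show (Φ q).2 = σ'
      rw [(hF' q hq).2]
  choose! h hh1 hh2 using hmem
  apply Finset.card_le_card_of_injOn h hh1
  intro a ha b hb hab
  have ha' := (hF' a ha).2
  have hb' := (hF' b hb).2
  refine hOi (h a) (hF1 _ (hh1 a ha)).1 (hh2 a ha) ?_ (ha'.trans hb'.symm)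
  rw [hab]
  exact hh2 b hb

theorem continuation {X Y : Type} [TopologicalSpace X] [T2Space X] [TopologicalSpace Y]
    (Φ : X → Y × ℝ) (L : Set X) (hL : IsCompact L) (hcont : Continuous Φ) [T2Space Y]
    (hloc : ∀ x ∈ L, ∃ e : OpenPartialHomeomorph X (Y × ℝ), x ∈ e.source ∧ Set.EqOn Φ e e.source)
    (c : Y) (s₀ : ℝ) (s : Finset X) (hs : ∀ q ∈ s, q ∈ interior L ∧ Φ q = (c, s₀)) :
    ∃ t : Finset X, t.card = s.card ∧ ∀ q ∈ t, q ∈ L ∧ q ∉ interior L ∧ (Φ q).1 = c := by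
  classical
  set T : Set X := {q | q ∈ L ∧ q ∉ interior L ∧ (Φ q).1 = c} with hTdef
  by_cases hTinf : T.Infinite
  · obtain ⟨t, ht1, ht2⟩ := hTinf.exists_subset_card_eq s.card
    exact ⟨t, ht2, fun q hq => ht1 hq⟩
  have hTfin : T.Finite := Set.not_infinite.1 hTinf
  set T' : Finset X := hTfin.toFinset with hT'
  have hmemT : ∀ q, q ∈ T' ↔ q ∈ L ∧ q ∉ interior L ∧ (Φ q).1 = c := by
    intro q
    rw [hT', Set.Finite.mem_toFinset]
    exact Iff.rfl
  -- closing step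
  have stepA : ∀ σ : ℝ, (∀ σ' > σ, Lev Φ L c T' σ') → Lev Φ L c T' σ := by
    intro σ hσ F hF
    have hsplit := Finset.card_filter_add_card_filter_not (s := F) (fun q => q ∈ interior L)
    have h1 : ∀ᶠ σ' in 𝓝[>] σ, ∃ F' : Finset X,
        F'.card = (F.filter (fun q => q ∈ interior L)).card ∧
        ∀ q ∈ F', q ∈ L ∧ Φ q = (c, σ') := by
      apply Filter.Eventually.filter_mono nhdsWithin_le_nhds
      apply persist_up hloc
      intro q hq
      rw [Finset.mem_filter] at hq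
      exact ⟨hq.2, (hF q hq.1).2⟩
    obtain ⟨σ', ⟨F', hF'1, hF'2⟩, hσ'⟩ := (h1.and self_mem_nhdsWithin).exists
    have h2 := hσ σ' hσ' F' hF'2
    rw [hF'1] at h2
    have h3 : (T'.filter (fun q => σ' ≤ (Φ q).2)).card ≤
        (T'.filter (fun q => σ < (Φ q).2)).card := by
      apply Finset.card_le_card
      intro q hq
      rw [Finset.mem_filter] at hq ⊢
      exact ⟨hq.1, lt_of_lt_of_le hσ' hq.2⟩
    have h4 : (F.filter (fun q => ¬ q ∈ interior L)).card ≤
        (T'.filter (fun q => (Φ q).2 = σ)).card := by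
      apply Finset.card_le_card
      intro q hq
      rw [Finset.mem_filter] at hq ⊢
      obtain ⟨hq1, hq2⟩ := hq
      obtain ⟨hq3, hq4⟩ := hF q hq1
      refine ⟨(hmemT q).2 ⟨hq3, hq2, ?_⟩, ?_⟩
      · rw [hq4]
      · rw [hq4]
    have h5 : (T'.filter (fun q => σ < (Φ q).2)).card + (T'.filter (fun q => (Φ q).2 = σ)).card ≤
        (T'.filter (fun q => σ ≤ (Φ q).2)).card := by
      rw [← Finset.card_union_of_disjoint]
      · apply Finset.card_le_card
        intro q hq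
        rw [Finset.mem_union, Finset.mem_filter, Finset.mem_filter] at hq
        rw [Finset.mem_filter]
        rcases hq with hq | hq
        · exact ⟨hq.1, hq.2.le⟩
        · exact ⟨hq.1, hq.2.ge⟩
      · rw [Finset.disjoint_left]
        intro q hq hq'
        rw [Finset.mem_filter] at hq hq'
        exact absurd hq'.2 (ne_of_gt hq.2)
    omega
  -- opening step
  have stepB : ∀ σ : ℝ, Lev Φ L c T' σ → ∀ᶠ σ' in 𝓝[<] σ, Lev Φ L c T' σ' := by
    intro σ hσ
    obtain ⟨F, hF1, hF2⟩ := upper_semi hL hcont hloc c σ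
    have h1 := hσ F hF1
    filter_upwards [Filter.Eventually.filter_mono nhdsWithin_le_nhds hF2, self_mem_nhdsWithin]
      with σ' hσ' hlt F' hF'
    refine (hσ' F' hF').trans (h1.trans ?_)
    apply Finset.card_le_card
    intro q hq
    rw [Finset.mem_filter] at hq ⊢
    exact ⟨hq.1, (le_of_lt hlt).trans hq.2⟩
  -- large levels are empty
  have hbig : ∃ B : ℝ, ∀ σ > B, Lev Φ L c T' σ := by
    obtain ⟨B, hB⟩ := (hL.image (continuous_snd.comp hcont)).bddAbove
    refine ⟨B, fun σ hσ F hF => ?_⟩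
    have : F = ∅ := by
      apply Finset.eq_empty_of_forall_notMem
      intro q hq
      obtain ⟨h1, h2⟩ := hF q hq
      have h3 := hB ⟨q, h1, rfl⟩
      simp only [Function.comp, h2] at h3
      exact absurd h3 (not_le.2 hσ)
    rw [this]
    simp
  -- real induction
  have hall : ∀ σ, Lev Φ L c T' σ := by
    by_contra hcon
    rw [not_forall] at hcon
    obtain ⟨σ₁, hσ₁⟩ := hcon
    obtain ⟨B, hB⟩ := hbig
    set S : Set ℝ := {σ | ¬ Lev Φ L c T' σ} with hS
    have hne : S.Nonempty := ⟨σ₁, hσ₁⟩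
    have hbdd : BddAbove S := by
      refine ⟨B, fun σ hσ => ?_⟩
      by_contra h
      exact hσ (hB σ (not_le.1 h))
    set m := sSup S with hm
    have h1 : ∀ σ > m, Lev Φ L c T' σ := by
      intro σ hσ
      by_contra h
      exact absurd (le_csSup hbdd h) (not_le.2 hσ)
    have h2 : Lev Φ L c T' m := stepA m h1
    have h3 := stepB m h2
    obtain ⟨l, hl, hl'⟩ := (mem_nhdsLT_iff_exists_Ioo_subset).1 h3
    obtain ⟨σ, hσS, hlσ⟩ := exists_lt_of_lt_csSup hne hl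
    have hσm : σ ≤ m := le_csSup hbdd hσS
    rcases lt_or_eq_of_le hσm with h | h
    · exact hσS (hl' ⟨hlσ, h⟩)
    · exact hσS (h ▸ h2)
  have hfin := hall s₀ s (fun q hq => ⟨interior_subset (hs q hq).1, (hs q hq).2⟩)
  have hfin' : s.card ≤ T'.card := hfin.trans (Finset.card_filter_le _ _)
  obtain ⟨t, ht1, ht2⟩ := Finset.exists_subset_card_eq hfin'
  exact ⟨t, ht2, fun q hq => (hmemT q).1 (ht1 hq)⟩

end Continuation

end OMin
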