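import Pool.Agent.OMin.Sard

/-! # module GE : moving the zeros to a generic nearby level -/

namespace OMin
open Set Filter Topology
open scoped ContDiff

/-- changing the sign of the coordinate `none` -/
private noncomputable def flipN (ι : Type) [Fintype ι] : (Option ι → ℝ) →L[ℝ] (Option ι → ℝ) :=
  ContinuousLinearMap.pi fun o : Option ι =>
    (o.elim (-(ContinuousLinearMap.proj none : (Option ι → ℝ) →L[ℝ] ℝ))
      (fun i => ContinuousLinearMap.proj (some i)) : (Option ι → ℝ) →L[ℝ] ℝ)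

/-- moving the zeros to a generic nearby level -/
theorem generic_level {ι : Type} [Fintype ι] (Φ : (Option ι → ℝ) → (Option ι → ℝ))
    (hΦ : ContDiff ℝ 1 Φ) (Q : (Option ι → ℝ) → ℝ) (hQ : ContDiff ℝ 1 Q)
    (hQΦ : ∀ z, Q z = 0 ↔ (fderiv ℝ Φ z).det = 0)
    (s : Finset (Option ι → ℝ))
    (hs : ∀ z ∈ s, (∀ i, Φ z (some i) = 0) ∧ Φ z none = 1 ∧ (fderiv ℝ Φ z).det ≠ 0) :
    ∃ (c : ι → ℝ) (e r : ℝ) (s' : Finset (Option ι → ℝ)), 0 < e ∧ 0 < r ∧ s'.card = s.card ∧
      (∀ z ∈ s', (∀ i, Φ z (some i) = c i) ∧ Φ z none = 1 ∧ e < |Q z| ∧ ∑ o, z o ^ 2 < r) ∧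
      (∀ z, (∀ i, Φ z (some i) = c i) → Q z = e →
        (fderiv ℝ (fun z' (o : Option ι) => o.elim (Q z') (fun i => Φ z' (some i))) z).det ≠ 0) ∧
      (∀ z, (∀ i, Φ z (some i) = c i) → Q z = -e →
        (fderiv ℝ (fun z' (o : Option ι) => o.elim (Q z') (fun i => Φ z' (some i))) z).det ≠ 0) ∧
      (∀ z, (∀ i, Φ z (some i) = c i) → ∑ o, z o ^ 2 = r →
        (fderiv ℝ (fun z' (o : Option ι) =>
          o.elim (∑ o', z' o' ^ 2) (fun i => Φ z' (some i))) z).det ≠ 0) := by
  classical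
  set b : Option ι → ℝ := fun o => o.elim 1 (fun _ => 0) with hb
  have hsb : ∀ z ∈ s, Φ z = b := by
    intro z hz
    funext o
    rcases o with _ | i
    · exact (hs z hz).2.1
    · exact (hs z hz).1 i
  -- the constants
  obtain ⟨e0, he0, hQe⟩ : ∃ e0 : ℝ, 0 < e0 ∧ ∀ z ∈ s, e0 < |Q z| := by
    have h1 : ∀ᶠ e in 𝓝[>] (0 : ℝ), ∀ z ∈ s, e < |Q z| := by
      rw [Filter.eventually_all_finset]
      intro z hz
      have h2 : Q z ≠ 0 := fun h => (hs z hz).2.2 ((hQΦ z).1 h)
      have h3 : (0 : ℝ) < |Q z| := abs_pos.2 h2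
      filter_upwards [Ioo_mem_nhdsGT h3] with e he
      exact he.2
    obtain ⟨e, he1, he2⟩ := (h1.and self_mem_nhdsWithin).exists
    exact ⟨e, he2, he1⟩
  obtain ⟨r0, hr0, hzr⟩ : ∃ r0 : ℝ, 0 < r0 ∧ ∀ z ∈ s, ∑ o, z o ^ 2 < r0 := by
    refine ⟨1 + ∑ z ∈ s, ∑ o, z o ^ 2, ?_, fun z hz => ?_⟩
    · have : (0 : ℝ) ≤ ∑ z ∈ s, ∑ o, z o ^ 2 :=
        Finset.sum_nonneg fun _ _ => Finset.sum_nonneg fun _ _ => sq_nonneg _
      linarith
    · have := Finset.single_le_sum (f := fun z : Option ι → ℝ => ∑ o, z o ^ 2)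
        (fun _ _ => Finset.sum_nonneg fun _ _ => sq_nonneg _) hz
      linarith
  -- the neighbourhoods
  obtain ⟨U, hU, hUd⟩ := s.finite_toSet.t2_separation
  set W : (Option ι → ℝ) → Set (Option ι → ℝ) := fun z =>
    U z ∩ {w | e0 < |Q w| ∧ ∑ o, w o ^ 2 < r0} with hW
  have hcontsq : Continuous fun w : Option ι → ℝ => ∑ o, w o ^ 2 :=
    continuous_finset_sum _ fun o _ => (continuous_apply o).pow 2
  have hWn : ∀ z ∈ s, W z ∈ 𝓝 z := by
    intro z hz
    refine inter_mem ((hU z).2.mem_nhds (hU z).1) ?_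
    have h1 : IsOpen {w : Option ι → ℝ | e0 < |Q w| ∧ ∑ o, w o ^ 2 < r0} :=
      (isOpen_lt continuous_const hQ.continuous.abs).inter (isOpen_lt hcontsq continuous_const)
    exact h1.mem_nhds ⟨hQe z hz, hzr z hz⟩
  have himg : ∀ z ∈ s, Φ '' W z ∈ 𝓝 b := by
    intro z hz
    have h1 : HasStrictFDerivAt Φ (fderiv ℝ Φ z) z :=
      hΦ.contDiffAt.hasStrictFDerivAt one_ne_zero
    have h2 : HasStrictFDerivAt Φ
        ((LinearMap.equivOfDetNeZero _ (hs z hz).2.2).toContinuousLinearEquiv :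
          (Option ι → ℝ) →L[ℝ] (Option ι → ℝ)) z := by
      have e5 : ((LinearMap.equivOfDetNeZero _ (hs z hz).2.2).toContinuousLinearEquiv :
          (Option ι → ℝ) →L[ℝ] (Option ι → ℝ)) = fderiv ℝ Φ z :=
        ContinuousLinearMap.ext fun v => rfl
      rw [e5]
      exact h1
    have h3 := h2.map_nhds_eq_of_equiv
    rw [hsb z hz] at h3
    rw [← h3]
    exact image_mem_map (hWn z hz)
  -- the open set of values
  set O : Set (Option ι → ℝ) := {y | (0 < y none ∧ y none < e0) ∧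
    (fun o : Option ι => o.elim (1 : ℝ) (fun i => y (some i))) ∈ ⋂ z ∈ s, interior (Φ '' W z)}
    with hO
  have hcont : Continuous fun (y : Option ι → ℝ) (o : Option ι) =>
      (o.elim (1 : ℝ) (fun i => y (some i)) : ℝ) := by
    refine continuous_pi fun o => ?_
    rcases o with _ | i
    · exact continuous_const
    · exact continuous_apply _
  have hOo : IsOpen O := by
    refine IsOpen.inter ((isOpen_lt continuous_const (continuous_apply _)).inter
      (isOpen_lt (continuous_apply _) continuous_const)) ?_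
    exact (isOpen_biInter_finset fun z _ => isOpen_interior).preimage hcont
  have hOn : O.Nonempty := by
    refine ⟨fun o => o.elim (e0 / 2) (fun _ => 0), ⟨?_, ?_⟩, ?_⟩
    · change 0 < e0 / 2
      linarith
    · change e0 / 2 < e0
      linarith
    · refine mem_iInter₂.2 fun z hz => ?_
      exact mem_interior_iff_mem_nhds.2 (himg z hz)
  -- the three maps
  set G1 : (Option ι → ℝ) → (Option ι → ℝ) :=
    fun z' (o : Option ι) => o.elim (Q z') (fun i => Φ z' (some i)) with hG1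
  set G3 : (Option ι → ℝ) → (Option ι → ℝ) :=
    fun z' (o : Option ι) => o.elim (∑ o', z' o' ^ 2) (fun i => Φ z' (some i)) with hG3
  have hc1 : ContDiff ℝ 1 G1 := by
    rw [contDiff_pi]
    rintro (_ | i)
    · exact hQ
    · exact (contDiff_pi.1 hΦ) (some i)
  have hc3 : ContDiff ℝ 1 G3 := by
    rw [contDiff_pi]
    rintro (_ | i)
    · exact ContDiff.sum fun o _ => (contDiff_apply ℝ ℝ o).pow 2
    · exact (contDiff_pi.1 hΦ) (some i)
  set k : Option ι → ℝ := fun o => o.elim r0 (fun _ => 0) with hk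
  have hN1 := sard_null G1 hc1
  have hN2 := sard_null (fun z => flipN ι (G1 z)) ((flipN ι).contDiff.comp hc1)
  have hN3 := sard_null (fun z => G3 z - k) (hc3.sub contDiff_const)
  have hpos : 0 < MeasureTheory.volume O := hOo.measure_pos _ hOn
  obtain ⟨y, hyO, hyN⟩ : ∃ y ∈ O, y ∉ (G1 '' {x | (fderiv ℝ G1 x).det = 0}) ∪
      ((fun z => flipN ι (G1 z)) '' {x | (fderiv ℝ (fun z => flipN ι (G1 z)) x).det = 0}) ∪
      ((fun z => G3 z - k) '' {x | (fderiv ℝ (fun z => G3 z - k) x).det = 0}) := by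
    by_contra hcon
    push Not at hcon
    have h1 : MeasureTheory.volume O ≤ 0 := by
      refine (MeasureTheory.measure_mono hcon).trans ?_
      refine (MeasureTheory.measure_union_le _ _).trans ?_
      rw [hN3, add_zero]
      refine (MeasureTheory.measure_union_le _ _).trans ?_
      rw [hN1, hN2, add_zero]
    exact absurd hpos (not_lt.2 h1)
  obtain ⟨⟨hy1, hy2⟩, hy3⟩ := hyO
  simp only [mem_union, not_or] at hyN
  obtain ⟨⟨hyN1, hyN2⟩, hyN3⟩ := hyN
  -- the new points
  have hex : ∀ z ∈ s, ∃ w ∈ W z, Φ w = fun o : Option ι => o.elim (1 : ℝ) (fun i => y (some i)) := by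
    intro z hz
    have h1 := interior_subset (mem_iInter₂.1 hy3 z hz)
    obtain ⟨w, hw, hw'⟩ := h1
    exact ⟨w, hw, hw'⟩
  choose! w hw hwΦ using hex
  refine ⟨fun i => y (some i), y none, r0 + y none, s.image w, hy1, by linarith, ?_, ?_, ?_, ?_, ?_⟩
  · refine Finset.card_image_of_injOn fun z hz z' hz' hzz => ?_
    by_contra hne
    have h1 := hUd hz hz' hne
    have h2 : w z ∈ U z := (hw z hz).1
    have h3 : w z ∈ U z' := by
      have : w z = w z' := hzz
      rw [this]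
      exact (hw z' hz').1
    exact Set.disjoint_left.1 h1 h2 h3
  · intro z' hz'
    obtain ⟨z, hz, rfl⟩ := Finset.mem_image.1 hz'
    have h1 := hwΦ z hz
    obtain ⟨-, h2, h3⟩ := hw z hz
    refine ⟨fun i => ?_, ?_, by linarith, by linarith⟩
    · rw [h1]
      rfl
    · rw [h1]
      rfl
  · intro z hz hQz hdet
    apply hyN1
    refine ⟨z, hdet, ?_⟩
    funext o
    rcases o with _ | i
    · exact hQz
    · exact hz i
  · intro z hz hQz hdet
    apply hyN2
    refine ⟨z, ?_, ?_⟩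
    · have h1 : fderiv ℝ (fun z => flipN ι (G1 z)) z = (flipN ι).comp (fderiv ℝ G1 z) :=
        ((flipN ι).hasFDerivAt.comp z
          ((hc1.differentiable one_ne_zero) z).hasFDerivAt).fderiv
      change (fderiv ℝ (fun z => flipN ι (G1 z)) z).det = 0
      rw [h1]
      change LinearMap.det ((flipN ι : (Option ι → ℝ) →ₗ[ℝ] (Option ι → ℝ)) ∘ₗ
        (fderiv ℝ G1 z : (Option ι → ℝ) →ₗ[ℝ] (Option ι → ℝ))) = 0
      rw [LinearMap.det_comp]
      have h2 : LinearMap.det (fderiv ℝ G1 z : (Option ι → ℝ) →ₗ[ℝ] (Option ι → ℝ)) = 0 := hdet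
      rw [h2, mul_zero]
    · funext o
      rcases o with _ | i
      · change - Q z = _
        rw [hQz, neg_neg]
      · exact hz i
  · intro z hz hrz hdet
    apply hyN3
    refine ⟨z, ?_, ?_⟩
    · change (fderiv ℝ (fun z => G3 z - k) z).det = 0
      rw [fderiv_sub_const]
      exact hdet
    · funext o
      rcases o with _ | i
      · change (∑ o', z o' ^ 2) - r0 = _
        rw [hrz]
        ring
      · change Φ z (some i) - 0 = _
        rw [sub_zero]
        exact hz i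

end OMin
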