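import Pool.Agent.OMin.EBasic

/-! # module QA : the Jacobian determinant of the extended map -/

namespace OMin
open Set Filter Topology
open scoped ContDiff

/-- the derivative of the extended map -/
private theorem hasFDerivAt_extMap {ι κ : Type} [Fintype ι] [Fintype κ] (j : ι)
    (F : ι → (Option ι ⊕ κ → ℝ) → ℝ) (hF : ∀ i, ContDiff ℝ ∞ (F i)) (a : κ → ℝ)
    (z : Option ι → ℝ) : HasFDerivAt (extMap F j a) (fderiv ℝ (extMap F j a) z) z ∧
      (∀ v : Option ι → ℝ, fderiv ℝ (extMap F j a) z v none =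
        Real.exp (- z (some j)) * (v none - z none * v (some j))) ∧
      ∀ (v : Option ι → ℝ) (i : ι), fderiv ℝ (extMap F j a) z v (some i) =
        fderiv ℝ (fun z' : Option ι → ℝ => F i (Sum.elim z' a)) z v := by
  have h1 : HasFDerivAt (fun z' : Option ι → ℝ => z' none * Real.exp (- z' (some j)))
      (z none • (Real.exp (- z (some j)) • -(ContinuousLinearMap.proj (some j) :
          (Option ι → ℝ) →L[ℝ] ℝ)) + Real.exp (- z (some j)) •
        (ContinuousLinearMap.proj none : (Option ι → ℝ) →L[ℝ] ℝ)) z :=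
    (hasFDerivAt_apply (𝕜 := ℝ) none z).mul ((hasFDerivAt_apply (𝕜 := ℝ) (some j) z).neg.exp)
  have h2 : ∀ i, HasFDerivAt (fun z' : Option ι → ℝ => F i (Sum.elim z' a))
      (fderiv ℝ (fun z' : Option ι → ℝ => F i (Sum.elim z' a)) z) z := by
    intro i
    have h3 : HasFDerivAt (F i) (fderiv ℝ (F i) (Sum.elim z a)) (Sum.elim z a) :=
      (((hF i).differentiable (by simp)) _).hasFDerivAt
    exact (h3.comp z (hasFDerivAt_elim z a)).differentiableAt.hasFDerivAt
  have h3 : HasFDerivAt (extMap F j a) (ContinuousLinearMap.pi fun o : Option ι =>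
      (o.elim (z none • (Real.exp (- z (some j)) • -(ContinuousLinearMap.proj (some j) :
          (Option ι → ℝ) →L[ℝ] ℝ)) + Real.exp (- z (some j)) •
        (ContinuousLinearMap.proj none : (Option ι → ℝ) →L[ℝ] ℝ))
        (fun i => fderiv ℝ (fun z' : Option ι → ℝ => F i (Sum.elim z' a)) z) :
          (Option ι → ℝ) →L[ℝ] ℝ)) z := by
    rw [hasFDerivAt_pi]
    rintro (_ | i)
    · exact h1
    · exact h2 i
  have h4 := h3.fderiv
  refine ⟨h3.differentiableAt.hasFDerivAt, fun v => ?_, fun v i => ?_⟩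
  · rw [h4]
    change z none * (Real.exp (- z (some j)) * -(v (some j))) +
      Real.exp (- z (some j)) * v none = _
    ring
  · rw [h4]
    rfl

theorem exists_Q {ι κ : Type} [Fintype ι] [Fintype κ] (J : Set ι) (j : ι)
    (F : ι → (Option ι ⊕ κ → ℝ) → ℝ)
    (hF : ∀ i, F i ∈ EJ (Option ι ⊕ κ) (Sum.inl '' (some '' J))) :
    ∃ Q ∈ EJ (Option ι ⊕ κ) (Sum.inl '' (some '' J)), ∀ (a : κ → ℝ) (z : Option ι → ℝ),
      (fderiv ℝ (extMap F j a) z).det = Real.exp (- z (some j)) * Q (Sum.elim z a) := by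
  classical
  set N : Option ι → Option ι → (Option ι ⊕ κ → ℝ) → ℝ := fun o o' w =>
    o.elim ((if o' = none then (1 : ℝ) else 0) - w (Sum.inl none) *
      (if o' = some j then (1 : ℝ) else 0))
      (fun i => fderiv ℝ (F i) w (Pi.single (Sum.inl o') 1)) with hN
  refine ⟨fun w => (Matrix.of fun o o' => N o o' w).det, EJ_det N ?_, fun a z => ?_⟩
  · rintro (_ | i) o'
    · exact EJ_sub (EJ_const _) (EJ_mul (EJ_coord _) (EJ_const _))
    · exact EJ_pderiv (hF i) _
  · obtain ⟨-, h1, h2⟩ := hasFDerivAt_extMap j F (fun i => EJ_contDiff (hF i)) a z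
    have e1 : (fderiv ℝ (extMap F j a) z).det = (Matrix.of fun o o' =>
        (o.elim (Real.exp (- z (some j))) (fun _ => 1) : ℝ) *
          (Matrix.of fun o o' => N o o' (Sum.elim z a)) o o').det := by
      rw [ContinuousLinearMap.det, ← LinearMap.det_toMatrix']
      congr 1
      ext o o'
      rw [LinearMap.toMatrix'_apply, Matrix.of_apply, Matrix.of_apply]
      rcases o with _ | i
      · have h3 := h1 (Pi.single o' 1)
        have e3 : (Pi.single o' (1 : ℝ) : Option ι → ℝ) none =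
            if o' = none then (1 : ℝ) else 0 := by
          rw [Pi.single_apply]
          simp only [eq_comm]
        have e4 : (Pi.single o' (1 : ℝ) : Option ι → ℝ) (some j) =
            if o' = some j then (1 : ℝ) else 0 := by
          rw [Pi.single_apply]
          simp only [eq_comm]
        rw [e3, e4] at h3
        exact h3
      · have h3 := h2 (Pi.single o' 1) i
        rw [fderiv_elim (EJ_contDiff (hF i)) z a o'] at h3
        change _ = 1 * _
        rw [one_mul]
        exact h3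
    rw [e1, Matrix.det_mul_column]
    congr 1
    rw [Fintype.prod_option]
    simp

theorem nondeg_transfer {ι κ : Type} [Fintype ι] [Fintype κ] (j : ι)
    (F : ι → (Option ι ⊕ κ → ℝ) → ℝ) (hF : ∀ i, ContDiff ℝ ∞ (F i))
    (F₀ : ι → (ι ⊕ κ → ℝ) → ℝ)
    (h : ∀ (i : ι) (x : ι → ℝ) (a : κ → ℝ),
      F₀ i (Sum.elim x a) = F i (Sum.elim (fun o : Option ι => o.elim (Real.exp (x j)) x) a))
    (x : ι → ℝ) (a : κ → ℝ)
    (hx : (fderiv ℝ (fun (x' : ι → ℝ) (i : ι) => F₀ i (Sum.elim x' a)) x).det ≠ 0) :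
    (fderiv ℝ (extMap F j a) (fun o : Option ι => o.elim (Real.exp (x j)) x)).det ≠ 0 := by
  classical
  set z : Option ι → ℝ := fun o : Option ι => o.elim (Real.exp (x j)) x with hz
  obtain ⟨h0, h1, h2⟩ := hasFDerivAt_extMap j F hF a z
  intro hdet
  have hker : (LinearMap.ker (fderiv ℝ (extMap F j a) z : (Option ι → ℝ) →ₗ[ℝ] (Option ι → ℝ))) ≠ ⊥ :=
    LinearMap.det_eq_zero_iff_ker_ne_bot.1 hdet
  obtain ⟨v, hv, hv0⟩ := (Submodule.ne_bot_iff _).1 hker
  have hv' : fderiv ℝ (extMap F j a) z v = 0 := hv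
  -- the map `x ↦ (exp (x j), x)`
  have hψ : HasFDerivAt (fun (x' : ι → ℝ) (o : Option ι) => o.elim (Real.exp (x' j)) x')
      (ContinuousLinearMap.pi fun o : Option ι =>
        (o.elim (Real.exp (x j) • (ContinuousLinearMap.proj j : (ι → ℝ) →L[ℝ] ℝ))
          (fun i => ContinuousLinearMap.proj i) : (ι → ℝ) →L[ℝ] ℝ)) x := by
    rw [hasFDerivAt_pi]
    rintro (_ | i)
    · exact (hasFDerivAt_apply (𝕜 := ℝ) j x).exp
    · exact hasFDerivAt_apply (𝕜 := ℝ) i x
  have hcomp := h0.comp x hψ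
  -- the drop map
  have hG : ∀ i, HasFDerivAt (fun x' : ι → ℝ => F₀ i (Sum.elim x' a))
      ((ContinuousLinearMap.proj (some i)).comp ((fderiv ℝ (extMap F j a) z).comp
        (ContinuousLinearMap.pi fun o : Option ι =>
        (o.elim (Real.exp (x j) • (ContinuousLinearMap.proj j : (ι → ℝ) →L[ℝ] ℝ))
          (fun i => ContinuousLinearMap.proj i) : (ι → ℝ) →L[ℝ] ℝ)))) x := by
    intro i
    have h3 := (hasFDerivAt_pi'.1 hcomp) (some i)
    have e : (fun x' : ι → ℝ => (extMap F j a ∘ fun (x' : ι → ℝ) (o : Option ι) =>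
        o.elim (Real.exp (x' j)) x') x' (some i)) = fun x' : ι → ℝ => F₀ i (Sum.elim x' a) := by
      funext x'
      exact (h i x' a).symm
    rw [e] at h3
    exact h3
  have hG' := (hasFDerivAt_pi.2 hG).fderiv
  set ξ : ι → ℝ := fun i => v (some i) with hξ
  have hnone : v none = Real.exp (x j) * v (some j) := by
    have h3 := h1 v
    rw [hv'] at h3
    have h4 : Real.exp (- z (some j)) ≠ 0 := (Real.exp_pos _).ne'
    have h5 : v none - z none * v (some j) = 0 := by
      rcases mul_eq_zero.1 h3.symm with h | h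
      · exact absurd h h4
      · exact h
    have h6 : z none = Real.exp (x j) := rfl
    rw [h6] at h5
    linarith
  have hψξ : (ContinuousLinearMap.pi fun o : Option ι =>
        (o.elim (Real.exp (x j) • (ContinuousLinearMap.proj j : (ι → ℝ) →L[ℝ] ℝ))
          (fun i => ContinuousLinearMap.proj i) : (ι → ℝ) →L[ℝ] ℝ)) ξ = v := by
    funext o
    rcases o with _ | i
    · change Real.exp (x j) * v (some j) = _
      rw [hnone]
    · rfl
  have hGξ : fderiv ℝ (fun (x' : ι → ℝ) (i : ι) => F₀ i (Sum.elim x' a)) x ξ = 0 := by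
    rw [hG']
    funext i
    have h7 := congrArg (fun t => fderiv ℝ (extMap F j a) z t (some i)) hψξ
    have h8 : fderiv ℝ (extMap F j a) z v (some i) = 0 := by rw [hv']; rfl
    exact h7.trans h8
  have hξ0 : ξ = 0 := by
    by_contra hne
    apply hx
    rw [ContinuousLinearMap.det, LinearMap.det_eq_zero_iff_ker_ne_bot, Submodule.ne_bot_iff]
    exact ⟨ξ, hGξ, hne⟩
  apply hv0
  funext o
  rcases o with _ | i
  · rw [hnone]
    have : v (some j) = 0 := congrFun hξ0 j
    rw [this, mul_zero]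
    rfl
  · exact congrFun hξ0 i

end OMin
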