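import Pool.Agent.OMin.EBasic
import Pool.Agent.OMin.Continuation
import Pool.Agent.OMin.QAlg
import Pool.Agent.OMin.Generic

/-! # Khovanskii bounds: the induction step (module KS) -/

namespace OMin
open Set Filter Topology
open scoped ContDiff

private def sigKS {ι κ : Type} : Option ι ⊕ κ → Option ι ⊕ (κ ⊕ Option ι) :=
  Sum.elim Sum.inl (fun k => Sum.inr (Sum.inl k))

private noncomputable def sysKS {ι κ : Type} (Fh : ι → (Option ι ⊕ κ → ℝ) → ℝ)
    (H : (Option ι ⊕ κ → ℝ) → ℝ) (o : Option ι) (z : Option ι ⊕ (κ ⊕ Option ι) → ℝ) : ℝ :=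
  (o.elim (H (fun i => z (sigKS i))) (fun i => Fh i (fun i' => z (sigKS i')))) -
    z (Sum.inr (Sum.inr o))

private theorem level_boundKS {ι κ : Type} [Fintype ι] [Fintype κ] {k : ℕ} (h : KProp k)
    (J' : Finset ι) (hJ' : J'.card = k) (Fh : ι → (Option ι ⊕ κ → ℝ) → ℝ)
    (hFh : ∀ i, Fh i ∈ EJ (Option ι ⊕ κ) (Sum.inl '' (some '' (J' : Set ι))))
    (H : (Option ι ⊕ κ → ℝ) → ℝ) (hH : H ∈ EJ (Option ι ⊕ κ) (Sum.inl '' (some '' (J' : Set ι)))) :
    ∃ M : ℕ, ∀ (a : κ → ℝ) (c : Option ι → ℝ) (s : Finset (Option ι → ℝ)),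
      (∀ z ∈ s, (∀ o : Option ι, (o.elim (H (Sum.elim z a)) (fun i => Fh i (Sum.elim z a)) : ℝ) = c o) ∧
        (fderiv ℝ (fun (z' : Option ι → ℝ) (o : Option ι) =>
          (o.elim (H (Sum.elim z' a)) (fun i => Fh i (Sum.elim z' a)) : ℝ)) z).det ≠ 0) →
      s.card ≤ M := by
  classical
  have hmap : ∀ j ∈ (Sum.inl '' (some '' (J' : Set ι)) : Set (Option ι ⊕ κ)),
      (sigKS j : Option ι ⊕ (κ ⊕ Option ι)) ∈
        (Sum.inl '' ((J'.map Function.Embedding.some : Finset (Option ι)) : Set (Option ι)) :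
          Set (Option ι ⊕ (κ ⊕ Option ι))) := by
    rintro _ ⟨_, ⟨j, hj, rfl⟩, rfl⟩
    refine ⟨some j, ?_, rfl⟩
    simpa using hj
  have hmem : ∀ o, sysKS Fh H o ∈ EJ (Option ι ⊕ (κ ⊕ Option ι))
      (Sum.inl '' ((J'.map Function.Embedding.some : Finset (Option ι)) : Set (Option ι))) := by
    intro o
    refine EJ_sub ?_ (EJ_coord _)
    rcases o with _ | i
    · exact EJ_comp sigKS hmap hH
    · exact EJ_comp sigKS hmap (hFh i)
  obtain ⟨M, hM⟩ := h (Option ι) (κ ⊕ Option ι) (J'.map Function.Embedding.some)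
    (by rw [Finset.card_map, hJ']) (sysKS Fh H) hmem
  refine ⟨M, fun a c s hs => hM (Sum.elim a c) s ?_⟩
  intro z hz
  obtain ⟨h1, h2⟩ := hs z hz
  have hsig : ∀ z' : Option ι → ℝ, (fun i => (Sum.elim z' (Sum.elim a c) :
      Option ι ⊕ (κ ⊕ Option ι) → ℝ) (sigKS i)) = Sum.elim z' a := by
    intro z'
    funext i
    rcases i with i | i <;> rfl
  have hsys : ∀ (z' : Option ι → ℝ) (o : Option ι), sysKS Fh H o (Sum.elim z' (Sum.elim a c)) =
      (o.elim (H (Sum.elim z' a)) (fun i => Fh i (Sum.elim z' a)) : ℝ) - c o := by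
    intro z' o
    rw [sysKS, hsig]
    rfl
  constructor
  · intro o
    rw [hsys, h1 o, sub_self]
  · have : (fun (z' : Option ι → ℝ) (o : Option ι) => sysKS Fh H o (Sum.elim z' (Sum.elim a c))) =
        fun z' => (fun o : Option ι =>
          (o.elim (H (Sum.elim z' a)) (fun i => Fh i (Sum.elim z' a)) : ℝ)) - c := by
      funext z' o
      rw [hsys]
      rfl
    rw [this, fderiv_sub_const]
    exact h2

/-- the homeomorphism `ℝ^(Option ι) ≃ ℝ^ι × ℝ` -/
private def homeoKS (ι : Type) : (Option ι → ℝ) ≃ₜ (ι → ℝ) × ℝ where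
  toFun z := (fun i => z (some i), z none)
  invFun w := fun o => o.elim w.2 w.1
  left_inv := by
    intro z
    funext o
    rcases o with _ | i <;> rfl
  right_inv := by
    intro w
    rfl
  continuous_toFun := by fun_prop
  continuous_invFun := by
    refine continuous_pi ?_
    intro o
    rcases o with _ | i
    · exact continuous_snd
    · exact (continuous_apply i).comp continuous_fst

private theorem localHomeoKS {ι : Type} [Fintype ι] (Φ : (Option ι → ℝ) → (Option ι → ℝ))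
    (hΦ : ContDiff ℝ 1 Φ) (z : Option ι → ℝ) (hz : (fderiv ℝ Φ z).det ≠ 0) :
    ∃ e : OpenPartialHomeomorph (Option ι → ℝ) ((ι → ℝ) × ℝ), z ∈ e.source ∧
      Set.EqOn (fun z => homeoKS ι (Φ z)) e e.source := by
  have hst : HasStrictFDerivAt Φ (fderiv ℝ Φ z) z :=
    hΦ.contDiffAt.hasStrictFDerivAt (by simp)
  set A : (Option ι → ℝ) ≃L[ℝ] (Option ι → ℝ) :=
    ContinuousLinearMap.toContinuousLinearEquivOfDetNeZero (fderiv ℝ Φ z) hz with hA
  have hA2 : ((A : (Option ι → ℝ) ≃L[ℝ] (Option ι → ℝ)) : (Option ι → ℝ) →L[ℝ] (Option ι → ℝ)) =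
      fderiv ℝ Φ z := by
    rw [hA]
    exact ContinuousLinearMap.coe_toContinuousLinearEquivOfDetNeZero _ _
  rw [← hA2] at hst
  refine ⟨(hst.toOpenPartialHomeomorph Φ).trans (homeoKS ι).toOpenPartialHomeomorph, ?_, ?_⟩
  · simpa using hst.mem_toOpenPartialHomeomorph_source
  · intro w hw
    rfl

theorem khov_succ (k : ℕ) (h : KProp k) : KProp (k + 1) := by
  classical
  intro ι κ _ _ J hJ F hF
  obtain ⟨j, J', hjJ', rfl, hJ'⟩ := Finset.card_eq_succ.1 hJ
  have hF' : ∀ i, F i ∈ EJ (ι ⊕ κ) (Sum.inl '' (insert j (J' : Set ι))) := by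
    intro i
    have := hF i
    rwa [Finset.coe_insert] at this
  choose Fh hFh hFeq using fun i => EJ_subst (J' : Set ι) j (hF' i)
  obtain ⟨Q, hQ, hQdet⟩ := exists_Q (J' : Set ι) j Fh hFh
  have hN : (fun z : Option ι ⊕ κ → ℝ => ∑ o, z (Sum.inl o) ^ 2) ∈
      EJ (Option ι ⊕ κ) (Sum.inl '' (some '' (J' : Set ι))) :=
    EJ_sum _ (fun o _ => EJ_pow (EJ_coord _) 2)
  obtain ⟨M1, hM1⟩ := level_boundKS h J' hJ' Fh hFh Q hQ
  obtain ⟨M2, hM2⟩ := level_boundKS h J' hJ' Fh hFh _ hN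
  refine ⟨M1 + M1 + M2, fun a s hs => ?_⟩
  -- the lift
  have hinj : Function.Injective (fun (x : ι → ℝ) (o : Option ι) => (o.elim (Real.exp (x j)) x : ℝ)) := by
    intro x y hxy
    funext i
    exact congrFun hxy (some i)
  set m : (ι → ℝ) → (Option ι → ℝ) := fun x o => o.elim (Real.exp (x j)) x with hm
  set s1 : Finset (Option ι → ℝ) := s.image m with hs1
  have hcard1 : s1.card = s.card := Finset.card_image_of_injective s hinj
  have hFhs : ∀ i, ContDiff ℝ ∞ (Fh i) := fun i => EJ_contDiff (hFh i)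
  have hQs : ContDiff ℝ ∞ Q := EJ_contDiff hQ
  have hel : ContDiff ℝ ∞ (fun z : Option ι → ℝ => (Sum.elim z a : Option ι ⊕ κ → ℝ)) := by
    rw [contDiff_pi]
    intro i
    rcases i with i | i
    · simpa using contDiff_apply ℝ ℝ i
    · exact contDiff_const
  have hΦs : ContDiff ℝ ∞ (extMap Fh j a) := by
    rw [contDiff_pi]
    intro o
    rcases o with _ | i
    · have h1 : ContDiff ℝ ∞ (fun z : Option ι → ℝ => z none * Real.exp (- z (some j))) :=
        (contDiff_apply ℝ ℝ none).mul (contDiff_apply ℝ ℝ (some j)).neg.exp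
      exact h1
    · exact (hFhs i).comp hel
  have hQas : ContDiff ℝ ∞ (fun z : Option ι → ℝ => Q (Sum.elim z a)) := hQs.comp hel
  have hQΦ : ∀ z : Option ι → ℝ, Q (Sum.elim z a) = 0 ↔ (fderiv ℝ (extMap Fh j a) z).det = 0 := by
    intro z
    rw [hQdet a z]
    constructor
    · intro h0
      rw [h0, mul_zero]
    · intro h0
      exact (mul_eq_zero.1 h0).resolve_left (Real.exp_ne_zero _)
  have hs1p : ∀ z ∈ s1, (∀ i, extMap Fh j a z (some i) = 0) ∧ extMap Fh j a z none = 1 ∧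
      (fderiv ℝ (extMap Fh j a) z).det ≠ 0 := by
    intro z hz
    obtain ⟨x, hx, rfl⟩ := Finset.mem_image.1 hz
    obtain ⟨hx1, hx2⟩ := hs x hx
    refine ⟨?_, ?_, ?_⟩
    · intro i
      have h1 := hFeq i x a
      rw [hx1 i] at h1
      exact h1.symm
    · show Real.exp (x j) * Real.exp (- x j) = 1
      rw [← Real.exp_add, add_neg_cancel, Real.exp_zero]
    · exact nondeg_transfer j Fh hFhs F hFeq x a hx2
  obtain ⟨c, e, r, s', he, hr, hcard', hs', hg1, hg2, hg3⟩ :=
    generic_level (extMap Fh j a) (hΦs.of_le (by exact_mod_cast le_top)) (fun z => Q (Sum.elim z a))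
      (hQas.of_le (by exact_mod_cast le_top)) hQΦ s1 hs1p
  -- the compact set
  have hQc : Continuous (fun z : Option ι → ℝ => Q (Sum.elim z a)) := hQas.continuous
  have hNc : Continuous (fun z : Option ι → ℝ => ∑ o, z o ^ 2) := by fun_prop
  set L : Set (Option ι → ℝ) := {z | ∑ o, z o ^ 2 ≤ r ∧ e ≤ |Q (Sum.elim z a)|} with hLdef
  have hL : IsCompact L := by
    apply Metric.isCompact_of_isClosed_isBounded
    · exact (isClosed_le hNc continuous_const).inter (isClosed_le continuous_const hQc.abs)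
    · rw [isBounded_iff_forall_norm_le]
      refine ⟨r + 1, ?_⟩
      rintro z ⟨hz, -⟩
      rw [pi_norm_le_iff_of_nonneg (by positivity)]
      intro o
      have h1 : z o ^ 2 ≤ (r + 1) ^ 2 := by
        have h2 : z o ^ 2 ≤ ∑ o, z o ^ 2 := Finset.single_le_sum (f := fun o => z o ^ 2)
          (fun o _ => sq_nonneg _) (Finset.mem_univ o)
        nlinarith
      rw [Real.norm_eq_abs]
      exact abs_le_of_sq_le_sq h1 (by positivity)
  have hopen : IsOpen {z : Option ι → ℝ | ∑ o, z o ^ 2 < r ∧ e < |Q (Sum.elim z a)|} :=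
    (isOpen_lt hNc continuous_const).inter (isOpen_lt continuous_const hQc.abs)
  have hint : {z : Option ι → ℝ | ∑ o, z o ^ 2 < r ∧ e < |Q (Sum.elim z a)|} ⊆ interior L := by
    refine interior_maximal ?_ hopen
    rintro z ⟨hz1, hz2⟩
    exact ⟨hz1.le, hz2.le⟩
  obtain ⟨t, htc, ht⟩ := continuation (fun z => homeoKS ι (extMap Fh j a z)) L hL
    ((homeoKS ι).continuous.comp hΦs.continuous)
    (by
      intro z hz
      refine localHomeoKS _ (hΦs.of_le (by exact_mod_cast le_top)) z ?_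
      rw [Ne, ← hQΦ z]
      intro h0
      have := hz.2
      rw [h0, abs_zero] at this
      linarith)
    c 1 s' (by
      intro z hz
      obtain ⟨h1, h2, h3, h4⟩ := hs' z hz
      refine ⟨hint ⟨h4, h3⟩, ?_⟩
      show ((fun i => extMap Fh j a z (some i)), extMap Fh j a z none) = (c, 1)
      rw [h2]
      congr 1
      funext i
      exact h1 i)
  have htp : ∀ z ∈ t, (∀ i, Fh i (Sum.elim z a) = c i) ∧ (Q (Sum.elim z a) = e ∨
      Q (Sum.elim z a) = -e ∨ ∑ o, z o ^ 2 = r) := by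
    intro z hz
    obtain ⟨hz1, hz2, hz3⟩ := ht z hz
    refine ⟨fun i => congrFun hz3 i, ?_⟩
    by_contra hcon
    push Not at hcon
    obtain ⟨hc1, hc2, hc3⟩ := hcon
    refine hz2 (hint ⟨lt_of_le_of_ne hz1.1 hc3, lt_of_le_of_ne hz1.2 ?_⟩)
    intro heq
    rcases abs_cases (Q (Sum.elim z a)) with ⟨h1, -⟩ | ⟨h1, -⟩
    · exact hc1 (by rw [heq, h1])
    · exact hc2 (by rw [heq, h1, neg_neg])
  have hb1 : (t.filter (fun z => Q (Sum.elim z a) = e)).card ≤ M1 := by
    refine hM1 a (fun o => o.elim e c) _ ?_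
    intro z hz
    obtain ⟨hz1, hz2⟩ := Finset.mem_filter.1 hz
    have h3 := (htp z hz1).1
    refine ⟨?_, hg1 z h3 hz2⟩
    intro o
    rcases o with _ | i
    · exact hz2
    · exact h3 i
  have hb2 : (t.filter (fun z => Q (Sum.elim z a) = -e)).card ≤ M1 := by
    refine hM1 a (fun o => o.elim (-e) c) _ ?_
    intro z hz
    obtain ⟨hz1, hz2⟩ := Finset.mem_filter.1 hz
    have h3 := (htp z hz1).1
    refine ⟨?_, hg2 z h3 hz2⟩
    intro o
    rcases o with _ | i
    · exact hz2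
    · exact h3 i
  have hb3 : (t.filter (fun z => ∑ o, z o ^ 2 = r)).card ≤ M2 := by
    refine hM2 a (fun o => o.elim r c) _ ?_
    intro z hz
    obtain ⟨hz1, hz2⟩ := Finset.mem_filter.1 hz
    have h3 := (htp z hz1).1
    refine ⟨?_, hg3 z h3 hz2⟩
    intro o
    rcases o with _ | i
    · exact hz2
    · exact h3 i
  have hsub : t ⊆ (t.filter (fun z => Q (Sum.elim z a) = e) ∪
      t.filter (fun z => Q (Sum.elim z a) = -e)) ∪ t.filter (fun z => ∑ o, z o ^ 2 = r) := by
    intro z hz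
    simp only [Finset.mem_union, Finset.mem_filter]
    rcases (htp z hz).2 with h1 | h1 | h1
    · exact Or.inl (Or.inl ⟨hz, h1⟩)
    · exact Or.inl (Or.inr ⟨hz, h1⟩)
    · exact Or.inr ⟨hz, h1⟩
  calc s.card = t.card := by rw [htc, hcard', hcard1]
    _ ≤ _ := Finset.card_le_card hsub
    _ ≤ _ := Finset.card_union_le _ _
    _ ≤ _ := Nat.add_le_add_right (Finset.card_union_le _ _) _
    _ ≤ M1 + M1 + M2 := by omega

end OMin
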