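import Pool.Agent.OMin.Defs

/-!
# Module BZ: a weak form of Bezout's theorem, by counting monomials
-/

namespace OMin
open Set Filter Topology

namespace BezoutAux

open MvPolynomial

variable {ι : Type} [Fintype ι]

/-- The evaluation at the points of `s`. -/
noncomputable def ev (s : Finset (ι → ℝ)) : MvPolynomial ι ℝ →ₗ[ℝ] (s → ℝ) :=
  LinearMap.pi fun x => (MvPolynomial.aeval (x : ι → ℝ)).toLinearMap

omit [Fintype ι] in
theorem ev_apply (s : Finset (ι → ℝ)) (p : MvPolynomial ι ℝ) (x : s) :
    ev s p x = MvPolynomial.eval (x : ι → ℝ) p := by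
  show MvPolynomial.aeval (x : ι → ℝ) p = _
  rw [MvPolynomial.aeval_eq_eval]

omit [Fintype ι] in
theorem exists_sep (x y : ι → ℝ) (h : x ≠ y) :
    ∃ q : MvPolynomial ι ℝ, eval x q = 1 ∧ eval y q = 0 := by
  obtain ⟨i, hi⟩ := Function.ne_iff.1 h
  refine ⟨C (x i - y i)⁻¹ * (X i - C (y i)), ?_, ?_⟩
  · simp only [map_mul, map_sub, eval_C, eval_X]
    exact inv_mul_cancel₀ (sub_ne_zero.2 hi)
  · simp

omit [Fintype ι] in
theorem ev_surj (s : Finset (ι → ℝ)) : LinearMap.range (ev s) = ⊤ := by
  classical
  choose! q hq using exists_sep (ι := ι)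
  rw [eq_top_iff]
  intro f _
  refine ⟨∑ x : s, C (f x) * ∏ y ∈ s.erase x, q x y, ?_⟩
  funext z
  rw [ev_apply, map_sum, Finset.sum_eq_single z]
  · rw [map_mul, eval_C, map_prod, Finset.prod_eq_one, mul_one]
    intro y hy
    exact (hq z y (Finset.ne_of_mem_erase hy).symm).1
  · intro x _ hxz
    rw [map_mul, map_prod]
    have hz : (z : ι → ℝ) ∈ s.erase x :=
      Finset.mem_erase.2 ⟨fun h => hxz (Subtype.ext h.symm), z.2⟩
    rw [Finset.prod_eq_zero hz, mul_zero]
    exact (hq x z (fun h => hxz (Subtype.ext h))).2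
  · intro h
    exact absurd (Finset.mem_univ _) h

/-- the monomials with exponents smaller than `D` -/
noncomputable def mon (s : Finset (ι → ℝ)) (D : ℕ) (α : ι → Fin D) : s → ℝ :=
  ev s (monomial (Finsupp.equivFunOnFinite.symm fun i => (α i : ℕ)) 1)

theorem ev_mon_mem (D : ℕ) (F : ι → MvPolynomial ι ℝ) (hF : ∀ i, (F i).totalDegree < D) (e : ℝ)
    (he : e ≠ 0) (s : Finset (ι → ℝ))
    (hs : ∀ x ∈ s, ∀ i, MvPolynomial.eval x (F i) + e * x i ^ D = 0) (n : ℕ) :
    ∀ α : ι →₀ ℕ, α.degree = n → ev s (monomial α 1) ∈ Submodule.span ℝ (range (mon s D)) := by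
  classical
  induction n using Nat.strong_induction_on with
  | _ n ih =>
    intro α hα
    by_cases h : ∀ i, α i < D
    · refine Submodule.subset_span ⟨fun i => ⟨α i, h i⟩, ?_⟩
      unfold mon
      congr 2
      ext i
      simp
    · push Not at h
      obtain ⟨i, hi⟩ := h
      obtain ⟨β, rfl⟩ : ∃ β : ι →₀ ℕ, α = Finsupp.single i D + β := by
        have : Finsupp.single i D ≤ α := by
          rw [Finsupp.single_le_iff]; exact hi
        exact ⟨α - Finsupp.single i D, (add_tsub_cancel_of_le this).symm⟩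
      have hdeg : D + β.degree = n := by
        rw [← hα, map_add, Finsupp.degree_single]
      have h1 : ev s (monomial (Finsupp.single i D + β) 1) =
          (-e⁻¹) • ev s (F i * monomial β 1) := by
        funext x
        rw [Pi.smul_apply, ev_apply, ev_apply, map_mul]
        have h2 := hs x x.2 i
        have h3 : (monomial (Finsupp.single i D + β) (1 : ℝ)) = X i ^ D * monomial β 1 := by
          rw [X_pow_eq_monomial, monomial_mul, one_mul]
        rw [h3, map_mul, map_pow, eval_X, smul_eq_mul]
        have h4 : (x : ι → ℝ) i ^ D = -e⁻¹ * eval (x : ι → ℝ) (F i) := by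
          field_simp
          linarith
        rw [h4]
        ring
      rw [h1]
      refine Submodule.smul_mem _ _ ?_
      have h5 : F i * monomial β 1 = ∑ γ ∈ (F i).support, (F i).coeff γ • monomial (γ + β) (1 : ℝ) := by
        conv_lhs => rw [(F i).as_sum, Finset.sum_mul]
        refine Finset.sum_congr rfl fun γ _ => ?_
        rw [monomial_mul, smul_monomial, smul_eq_mul]
      rw [h5, map_sum]
      refine Submodule.sum_mem _ fun γ hγ => ?_
      rw [map_smul]
      refine Submodule.smul_mem _ _ ?_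
      have h6 : γ.degree < D := by
        have : γ.degree ≤ (F i).totalDegree := by
          have := le_totalDegree hγ
          simpa [Finsupp.degree, Finsupp.sum] using this
        exact this.trans_lt (hF i)
      refine ih (γ + β).degree ?_ _ rfl
      rw [map_add]
      omega

end BezoutAux

open BezoutAux

theorem bezout_fin {ι : Type} [Fintype ι] (D : ℕ) (F : ι → MvPolynomial ι ℝ)
    (hF : ∀ i, (F i).totalDegree < D) (e : ℝ) (he : e ≠ 0) (s : Finset (ι → ℝ))
    (hs : ∀ x ∈ s, ∀ i, MvPolynomial.eval x (F i) + e * x i ^ D = 0) :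
    s.card ≤ D ^ Fintype.card ι := by
  classical
  have h1 : Submodule.span ℝ (range (mon s D)) = ⊤ := by
    rw [eq_top_iff, ← ev_surj s]
    rintro _ ⟨p, rfl⟩
    rw [p.as_sum, map_sum]
    refine Submodule.sum_mem _ fun γ _ => ?_
    have h2 : MvPolynomial.monomial γ (p.coeff γ) = p.coeff γ • MvPolynomial.monomial γ (1 : ℝ) := by
      rw [MvPolynomial.smul_monomial, smul_eq_mul, mul_one]
    rw [h2, map_smul]
    exact Submodule.smul_mem _ _ (ev_mon_mem D F hF e he s hs _ γ rfl)
  have h2 : (range (mon s D)).finrank ℝ ≤ Fintype.card (ι → Fin D) := finrank_range_le_card _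
  have h3 : (range (mon s D)).finrank ℝ = s.card := by
    unfold Set.finrank
    rw [h1, finrank_top, Module.finrank_fintype_fun_eq_card, Fintype.card_coe]
  rw [h3, Fintype.card_fun, Fintype.card_fin] at h2
  exact h2

end OMin
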