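import Pool.Agent.OMin.Defs

/-!
# Module PS: nondegenerate zeros persist under small perturbations
-/

namespace OMin
open Set Filter Topology

namespace PersistAux

variable {ι : Type} [Fintype ι]

theorem persist_one (G H : (ι → ℝ) → (ι → ℝ)) (hG : ContDiff ℝ 1 G)
    (hH : ContDiff ℝ 1 H) (x : ι → ℝ) (hx : G x = 0) (hd : (fderiv ℝ G x).det ≠ 0)
    (U : Set (ι → ℝ)) (hU : U ∈ 𝓝 x) : ∀ᶠ e in 𝓝 (0 : ℝ), ∃ y ∈ U, G y + e • H y = 0 := by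
  let Φ : (ι → ℝ) × ℝ → (ι → ℝ) × ℝ := fun p => (G p.1 + p.2 • H p.1, p.2)
  have hΦ : ContDiff ℝ 1 Φ := by
    refine ContDiff.prodMk ?_ contDiff_snd
    exact (hG.comp contDiff_fst).add (contDiff_snd.smul (hH.comp contDiff_fst))
  have h1 : HasStrictFDerivAt Φ (fderiv ℝ Φ (x, 0)) (x, 0) :=
    hΦ.contDiffAt.hasStrictFDerivAt one_ne_zero
  have h2 : HasFDerivAt Φ ((fderiv ℝ G x ∘L ContinuousLinearMap.fst ℝ (ι → ℝ) ℝ +
      ((0 : ℝ) • (fderiv ℝ H x ∘L ContinuousLinearMap.fst ℝ (ι → ℝ) ℝ) +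
        (ContinuousLinearMap.snd ℝ (ι → ℝ) ℝ).smulRight (H x))).prod
      (ContinuousLinearMap.snd ℝ (ι → ℝ) ℝ)) (x, 0) := by
    have hGd : HasFDerivAt (fun p : (ι → ℝ) × ℝ => G p.1)
        (fderiv ℝ G x ∘L ContinuousLinearMap.fst ℝ (ι → ℝ) ℝ) (x, 0) :=
      ((hG.differentiable one_ne_zero x).hasFDerivAt).comp (x, (0 : ℝ)) hasFDerivAt_fst
    have hHd : HasFDerivAt (fun p : (ι → ℝ) × ℝ => H p.1)
        (fderiv ℝ H x ∘L ContinuousLinearMap.fst ℝ (ι → ℝ) ℝ) (x, 0) :=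
      ((hH.differentiable one_ne_zero x).hasFDerivAt).comp (x, (0 : ℝ)) hasFDerivAt_fst
    have hs : HasFDerivAt (fun p : (ι → ℝ) × ℝ => p.2 • H p.1) _ (x, (0 : ℝ)) :=
      (hasFDerivAt_snd (𝕜 := ℝ) (p := (x, (0 : ℝ)))).smul hHd
    exact (hGd.add hs).prodMk hasFDerivAt_snd
  have h3 : (fderiv ℝ Φ (x, 0)).range = ⊤ := by
    rw [h2.fderiv, eq_top_iff]
    rintro ⟨w, t⟩ _
    obtain ⟨v, hv⟩ : ∃ v, fderiv ℝ G x v = w - t • H x := by
      have h4 : Function.Surjective (fderiv ℝ G x) := by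
        have := (ContinuousLinearMap.toContinuousLinearEquivOfDetNeZero (fderiv ℝ G x) hd).surjective
        intro y
        obtain ⟨z, hz⟩ := this y
        exact ⟨z, hz⟩
      exact h4 _
    refine ⟨(v, t), ?_⟩
    simp [hv]
  have h4 : map Φ (𝓝 (x, 0)) = 𝓝 (Φ (x, 0)) := h1.map_nhds_eq_of_surj h3
  have h5 : Φ (x, 0) = (0, 0) := by simp [Φ, hx]
  rw [h5] at h4
  have h6 : Φ '' (U ×ˢ univ) ∈ 𝓝 ((0 : ι → ℝ), (0 : ℝ)) := by
    rw [← h4]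
    exact image_mem_map (prod_mem_nhds hU univ_mem)
  have h7 : Tendsto (fun e : ℝ => ((0 : ι → ℝ), e)) (𝓝 0) (𝓝 (0, 0)) :=
    (Continuous.tendsto (by fun_prop) 0)
  filter_upwards [h7 h6] with e he
  obtain ⟨⟨y, e'⟩, ⟨hy, _⟩, hye⟩ := he
  simp only [Φ, Prod.mk.injEq] at hye
  obtain ⟨hy1, rfl⟩ := hye
  exact ⟨y, hy, hy1⟩

end PersistAux

theorem persist {ι : Type} [Fintype ι] (G H : (ι → ℝ) → (ι → ℝ)) (hG : ContDiff ℝ 1 G)
    (hH : ContDiff ℝ 1 H) (s : Finset (ι → ℝ))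
    (hs : ∀ x ∈ s, G x = 0 ∧ (fderiv ℝ G x).det ≠ 0) :
    ∀ᶠ e in 𝓝 (0 : ℝ), ∃ s' : Finset (ι → ℝ), s'.card = s.card ∧ ∀ x ∈ s', G x + e • H x = 0 := by
  classical
  obtain ⟨U, hU, hd⟩ := s.finite_toSet.t2_separation
  have h1 : ∀ᶠ e in 𝓝 (0 : ℝ), ∀ x ∈ s, ∃ y ∈ U x, G y + e • H y = 0 := by
    rw [Finset.eventually_all]
    intro x hx
    exact PersistAux.persist_one G H hG hH x (hs x hx).1 (hs x hx).2 (U x)
      ((hU x).2.mem_nhds (hU x).1)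
  filter_upwards [h1] with e he
  choose! y hy using he
  refine ⟨s.image y, ?_, ?_⟩
  · rw [Finset.card_image_of_injOn]
    intro a ha b hb hab
    by_contra hne
    have h2 := hd ha hb hne
    exact Set.disjoint_left.1 h2 (hy a ha).1 (by
      have := (hy b hb).1
      rwa [← hab] at this)
  · intro x hx
    obtain ⟨a, ha, rfl⟩ := Finset.mem_image.1 hx
    exact (hy a ha).2

end OMin
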