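import Pool.Agent.OMin.EBasic
import Pool.Agent.OMin.Bezout
import Pool.Agent.OMin.Persist

/-!
# Module KZ: the Khovanskii bound without exponentials
-/

namespace OMin
open Set Filter Topology
open scoped ContDiff

namespace KhovZeroAux

theorem poly_of_mem {ι κ : Type} {f : (ι ⊕ κ → ℝ) → ℝ} (hf : f ∈ EJ (ι ⊕ κ) ∅) :
    ∃ D : ℕ, ∀ a : κ → ℝ, ∃ p : MvPolynomial ι ℝ, p.totalDegree ≤ D ∧
      ∀ x : ι → ℝ, f (Sum.elim x a) = MvPolynomial.eval x p := by
  unfold EJ at hf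
  induction hf using Algebra.adjoin_induction with
  | mem f hf =>
    rcases hf with ⟨i, rfl⟩ | ⟨i, hi, _⟩
    · rcases i with i | k
      · exact ⟨1, fun a => ⟨MvPolynomial.X i, (MvPolynomial.totalDegree_X i).le, fun x => by simp⟩⟩
      · exact ⟨0, fun a => ⟨MvPolynomial.C (a k), (MvPolynomial.totalDegree_C _).le, fun x => by simp⟩⟩
    · exact absurd hi (Set.notMem_empty i)
  | algebraMap r =>
    exact ⟨0, fun a => ⟨MvPolynomial.C r, (MvPolynomial.totalDegree_C _).le, fun x => by simp⟩⟩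
  | add f g _ _ hf hg =>
    obtain ⟨D, hD⟩ := hf
    obtain ⟨D', hD'⟩ := hg
    refine ⟨max D D', fun a => ?_⟩
    obtain ⟨p, hp, hp'⟩ := hD a
    obtain ⟨q, hq, hq'⟩ := hD' a
    refine ⟨p + q, (MvPolynomial.totalDegree_add p q).trans (max_le_max hp hq), fun x => ?_⟩
    rw [map_add, ← hp', ← hq']
    rfl
  | mul f g _ _ hf hg =>
    obtain ⟨D, hD⟩ := hf
    obtain ⟨D', hD'⟩ := hg
    refine ⟨D + D', fun a => ?_⟩
    obtain ⟨p, hp, hp'⟩ := hD a
    obtain ⟨q, hq, hq'⟩ := hD' a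
    refine ⟨p * q, (MvPolynomial.totalDegree_mul p q).trans (add_le_add hp hq), fun x => ?_⟩
    rw [map_mul, ← hp', ← hq']
    rfl

end KhovZeroAux

open KhovZeroAux

theorem khov_zero : KProp 0 := by
  classical
  intro ι κ _ _ J hJ F hF
  obtain rfl := Finset.card_eq_zero.1 hJ
  have hF' : ∀ i, F i ∈ EJ (ι ⊕ κ) ∅ := by
    intro i
    have := hF i
    simpa using this
  choose D hD using fun i => poly_of_mem (hF' i)
  obtain ⟨D0, hD0⟩ : ∃ D0 : ℕ, ∀ i, D i ≤ D0 :=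
    ⟨∑ i, D i, fun i => Finset.single_le_sum (f := D) (fun _ _ => Nat.zero_le _)
      (Finset.mem_univ i)⟩
  refine ⟨(D0 + 1) ^ Fintype.card ι, fun a s hs => ?_⟩
  choose p hp hp' using fun i => hD i a
  let G : (ι → ℝ) → (ι → ℝ) := fun x i => F i (Sum.elim x a)
  let H : (ι → ℝ) → (ι → ℝ) := fun x i => x i ^ (D0 + 1)
  have hG : ContDiff ℝ 1 G := by
    rw [contDiff_pi]
    intro i
    have h1 : ContDiff ℝ ∞ (F i) := EJ_contDiff (hF i)
    have h2 : ContDiff ℝ 1 (fun x : ι → ℝ => (Sum.elim x a : ι ⊕ κ → ℝ)) := by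
      rw [contDiff_pi]
      rintro (j | k)
      · exact contDiff_apply ℝ ℝ j
      · exact contDiff_const
    exact (h1.of_le (by norm_cast)).comp h2
  have hH : ContDiff ℝ 1 H := by
    rw [contDiff_pi]
    intro i
    exact (contDiff_apply ℝ ℝ i).pow _
  have h1 := persist G H hG hH s fun x hx => ⟨funext fun i => (hs x hx).1 i, (hs x hx).2⟩
  have h2 : ∃ᶠ e in 𝓝 (0 : ℝ), e ≠ 0 := by
    have : ∃ᶠ e in 𝓝[≠] (0 : ℝ), e ≠ 0 := by
      have h3 : ∀ᶠ e in 𝓝[≠] (0 : ℝ), e ≠ 0 := eventually_mem_nhdsWithin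
      exact h3.frequently
    exact this.filter_mono nhdsWithin_le_nhds
  obtain ⟨e, he, s', hs', hs''⟩ := (h2.and_eventually h1).exists
  rw [← hs']
  refine bezout_fin (D0 + 1) p (fun i => Nat.lt_succ_of_le ((hp i).trans (hD0 i))) e he s' ?_
  intro x hx i
  have h3 := congrFun (hs'' x hx) i
  rw [← hp' i x]
  exact h3

end OMin
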