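import Pool.Agent.OMin.Defs

/-!
# Module LM: a split zero set gives many local minima of nearby functions
-/

namespace OMin
open Set Filter Topology

namespace LocMinAux

variable {ι : Type} [Fintype ι]

theorem abs_lin_le (c x : ι → ℝ) :
    |∑ i, c i * x i| ≤ ‖c‖ * ((Fintype.card ι : ℝ) + ∑ i, x i ^ 2) := by
  calc |∑ i, c i * x i| ≤ ∑ i, |c i * x i| := Finset.abs_sum_le_sum_abs _ _
    _ ≤ ∑ i, ‖c‖ * (1 + x i ^ 2) := by
        refine Finset.sum_le_sum fun i _ => ?_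
        rw [abs_mul]
        refine mul_le_mul (norm_le_pi_norm c i) ?_ (abs_nonneg _) (norm_nonneg _)
        rw [← sq_abs]
        nlinarith [sq_nonneg (|x i| - 1), abs_nonneg (x i)]
    _ = ‖c‖ * ((Fintype.card ι : ℝ) + ∑ i, x i ^ 2) := by
        rw [← Finset.mul_sum, Finset.sum_add_distrib]
        simp

theorem isCompact_ball (R : ℝ) : IsCompact {x : ι → ℝ | ∑ i, x i ^ 2 ≤ R} := by
  refine Metric.isCompact_of_isClosed_isBounded
    (isClosed_le (by fun_prop) continuous_const) ?_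
  rw [isBounded_iff_forall_norm_le]
  refine ⟨1 + R, fun x hx => ?_⟩
  have hx' : ∑ i, x i ^ 2 ≤ R := hx
  have hR : 0 ≤ R := (Finset.sum_nonneg fun i _ => sq_nonneg (x i)).trans hx'
  rw [pi_norm_le_iff_of_nonneg (by linarith)]
  intro i
  have h1 : x i ^ 2 ≤ R :=
    (Finset.single_le_sum (f := fun i => x i ^ 2) (fun i _ => sq_nonneg _)
      (Finset.mem_univ i)).trans hx'
  rw [Real.norm_eq_abs]
  rw [← sq_abs] at h1
  nlinarith [sq_nonneg (|x i| - 1), abs_nonneg (x i)]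

/-- disjoint open neighbourhoods of finitely many disjoint compact sets -/
theorem exists_open_sep {α : Type} [Finite α] {X : Type} [TopologicalSpace X] [T2Space X]
    (K : α → Set X) (hK : ∀ i, IsCompact (K i)) (hd : ∀ i j, i ≠ j → Disjoint (K i) (K j)) :
    ∃ W : α → Set X, (∀ i, IsOpen (W i)) ∧ (∀ i, K i ⊆ W i) ∧
      ∀ i j, i ≠ j → Disjoint (W i) (W j) := by
  have h1 : ∀ i j, ∃ A B : Set X, IsOpen A ∧ IsOpen B ∧ (i ≠ j → K i ⊆ A ∧ K j ⊆ B ∧
      Disjoint A B) := by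
    intro i j
    by_cases h : i = j
    · exact ⟨∅, ∅, isOpen_empty, isOpen_empty, fun h' => absurd h h'⟩
    · obtain ⟨A, B, hA, hB, h2, h3, h4⟩ :=
        SeparatedNhds.of_isCompact_isCompact (hK i) (hK j) (hd i j h)
      exact ⟨A, B, hA, hB, fun _ => ⟨h2, h3, h4⟩⟩
  choose A B hA hB hAB using h1
  refine ⟨fun i => ⋂ j, ⋂ (_ : i ≠ j), (A i j ∩ B j i), fun i => ?_, fun i => ?_, fun i j hij => ?_⟩
  · refine isOpen_iInter_of_finite fun j => isOpen_iInter_of_finite fun _ => ?_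
    exact (hA i j).inter (hB j i)
  · refine subset_iInter fun j => subset_iInter fun hij => subset_inter ?_ ?_
    · exact (hAB i j hij).1
    · exact (hAB j i hij.symm).2.1
  · rw [Set.disjoint_left]
    intro x hx hx'
    have h2 : x ∈ A i j ∩ B j i := mem_iInter.1 (mem_iInter.1 hx j) hij
    have h3 : x ∈ A j i ∩ B i j := mem_iInter.1 (mem_iInter.1 hx' i) hij.symm
    exact Set.disjoint_left.1 (hAB i j hij).2.2 h2.1 h3.2

end LocMinAux

open LocMinAux

theorem split_minima {ι : Type} [Fintype ι] (g : (ι → ℝ) → ℝ) (hg : Continuous g)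
    (h0 : ∀ x, 0 ≤ g x) {M : ℕ} (h : Split M {x | g x = 0}) :
    ∃ l : ℝ, 0 < l ∧ ∀ᶠ c in 𝓝 (0 : ι → ℝ), ∃ s : Finset (ι → ℝ), s.card = M + 1 ∧
      ∀ x ∈ s, IsLocalMin (fun x' => g x' + l * ∑ i, x' i ^ 2 + ∑ i, c i * x' i) x := by
  classical
  obtain ⟨U, hU, hcov, hne, hdis⟩ := h
  choose p hp using hne
  set N : (ι → ℝ) → ℝ := fun x => ∑ i, x i ^ 2 with hN
  have hNc : Continuous N := by rw [hN]; fun_prop
  have hN0 : ∀ x, 0 ≤ N x := fun x => Finset.sum_nonneg fun i _ => sq_nonneg _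
  obtain ⟨N0, hN0p, hN0'⟩ : ∃ N0 : ℝ, 0 ≤ N0 ∧ ∀ i, N (p i) ≤ N0 := by
    refine ⟨∑ i, N (p i), Finset.sum_nonneg fun i _ => hN0 _, fun i => ?_⟩
    exact Finset.single_le_sum (f := fun i => N (p i)) (fun i _ => hN0 _) (Finset.mem_univ i)
  set R : ℝ := N0 + 1 with hR
  have hRpos : 0 < R := by linarith
  set B : Set (ι → ℝ) := {x | N x ≤ R} with hB
  have hBc : IsCompact B := isCompact_ball R
  have hZ : IsClosed {x | g x = 0} := isClosed_eq hg continuous_const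
  -- the pieces
  let K : Fin (M + 1) → Set (ι → ℝ) := fun i => ({x | g x = 0} \ ⋃ j, ⋃ (_ : j ≠ i), U j) ∩ B
  have hKc : ∀ i, IsCompact (K i) := by
    intro i
    refine hBc.inter_left ?_
    refine hZ.sdiff ?_
    exact isOpen_iUnion fun j => isOpen_iUnion fun _ => hU j
  have hKd : ∀ i j, i ≠ j → Disjoint (K i) (K j) := by
    intro i j hij
    rw [Set.disjoint_left]
    rintro x ⟨⟨hx, hx1⟩, _⟩ ⟨⟨_, hx2⟩, _⟩
    obtain ⟨k, hk⟩ := mem_iUnion.1 (hcov hx)
    by_cases hki : k = i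
    · exact hx2 (mem_iUnion.2 ⟨k, mem_iUnion.2 ⟨by rw [hki]; exact hij, hk⟩⟩)
    · exact hx1 (mem_iUnion.2 ⟨k, mem_iUnion.2 ⟨hki, hk⟩⟩)
  have hKcov : ∀ x, g x = 0 → x ∈ B → ∃ i, x ∈ K i := by
    intro x hx hxB
    obtain ⟨k, hk⟩ := mem_iUnion.1 (hcov hx)
    refine ⟨k, ⟨hx, fun hx' => ?_⟩, hxB⟩
    obtain ⟨j, hj⟩ := mem_iUnion.1 hx'
    obtain ⟨hjk, hj'⟩ := mem_iUnion.1 hj
    have := hdis k j (Ne.symm hjk)
    exact (Set.mem_empty_iff_false x).1 (this ▸ ⟨⟨hx, hk⟩, hj'⟩)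
  have hpK : ∀ i, p i ∈ K i := by
    intro i
    refine ⟨⟨(hp i).1, fun hx' => ?_⟩, ?_⟩
    · obtain ⟨j, hj⟩ := mem_iUnion.1 hx'
      obtain ⟨hji, hj'⟩ := mem_iUnion.1 hj
      have := hdis i j (Ne.symm hji)
      exact (Set.mem_empty_iff_false (p i)).1 (this ▸ ⟨hp i, hj'⟩)
    · show N (p i) ≤ R
      linarith [hN0' i]
  obtain ⟨W, hWo, hKW, hWd⟩ := exists_open_sep K hKc hKd
  -- `g` is bounded below outside the `W i`
  obtain ⟨m, hm, hm'⟩ : ∃ m : ℝ, 0 < m ∧ ∀ x ∈ B, x ∉ ⋃ i, W i → m ≤ g x := by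
    have hC : IsCompact (B \ ⋃ i, W i) := hBc.diff (isOpen_iUnion hWo)
    rcases (B \ ⋃ i, W i).eq_empty_or_nonempty with he | hne
    · refine ⟨1, one_pos, fun x hx hx' => ?_⟩
      have : x ∈ B \ ⋃ i, W i := ⟨hx, hx'⟩
      rw [he] at this
      exact absurd this (Set.notMem_empty x)
    · obtain ⟨y, hy, hy'⟩ := hC.exists_isMinOn hne hg.continuousOn
      refine ⟨g y, lt_of_le_of_ne (h0 y) ?_, fun x hx hx' => hy' ⟨hx, hx'⟩⟩
      intro h1
      obtain ⟨i, hi⟩ := hKcov y h1.symm hy.1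
      exact hy.2 (mem_iUnion.2 ⟨i, hKW i hi⟩)
  -- the constants
  set l : ℝ := m / (2 * R) with hl
  have hlpos : 0 < l := by positivity
  have hlR : l * R < m := by
    rw [hl]
    field_simp
    linarith
  set β : ℝ := l * (N0 + R) / 2 with hβ
  have hβ1 : l * N0 < β := by rw [hβ]; nlinarith
  have hβ2 : β < l * R := by rw [hβ]; nlinarith
  set n : ℝ := (Fintype.card ι : ℝ) with hn
  have hn0 : 0 ≤ n := by positivity
  refine ⟨l, hlpos, ?_⟩
  obtain ⟨ε, hε, hε1, hε2, hε3⟩ : ∃ ε : ℝ, 0 < ε ∧ ε < l ∧ ε * (n + R) < l * R - β ∧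
      ε * (n + R) < β - l * N0 := by
    have h1 : 0 < l * R - β := by linarith
    have h2 : 0 < β - l * N0 := by linarith
    have h3 : 0 < min l (min ((l * R - β) / (n + R)) ((β - l * N0) / (n + R))) := by
      have : 0 < n + R := by linarith
      positivity
    obtain ⟨ε, hε, hε'⟩ := exists_between h3
    have h4 : 0 < n + R := by linarith
    refine ⟨ε, hε, hε'.trans_le (min_le_left _ _), ?_, ?_⟩
    · have := hε'.trans_le ((min_le_right _ _).trans (min_le_left _ _))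
      exact (lt_div_iff₀ h4).1 this
    · have := hε'.trans_le ((min_le_right _ _).trans (min_le_right _ _))
      exact (lt_div_iff₀ h4).1 this
  have hball : ∀ᶠ c in 𝓝 (0 : ι → ℝ), ‖c‖ < ε := by
    have := Metric.ball_mem_nhds (0 : ι → ℝ) hε
    filter_upwards [this] with c hc
    simpa using hc
  filter_upwards [hball] with c hc
  set G : (ι → ℝ) → ℝ := fun x' => g x' + l * ∑ i, x' i ^ 2 + ∑ i, c i * x' i with hG
  have hGc : Continuous G := by rw [hG]; fun_prop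
  have hlin : ∀ x, |∑ i, c i * x i| ≤ ε * (n + N x) := by
    intro x
    refine (abs_lin_le c x).trans ?_
    refine mul_le_mul_of_nonneg_right hc.le ?_
    have := hN0 x
    positivity
  -- values at the points `p i`
  have hGp : ∀ i, G (p i) < β := by
    intro i
    have h1 : g (p i) = 0 := (hp i).1
    have h2 := (abs_le.1 (hlin (p i))).2
    have h3 : ε * (n + N (p i)) ≤ ε * (n + R) :=
      mul_le_mul_of_nonneg_left (by linarith [hN0' i]) hε.le
    have h4 : l * N (p i) ≤ l * N0 := mul_le_mul_of_nonneg_left (hN0' i) hlpos.le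
    show g (p i) + l * N (p i) + ∑ j, c j * p i j < β
    linarith
  -- the sublevel set
  have hsub1 : ∀ x, G x ≤ β → N x < R := by
    intro x hx
    by_contra hcon
    push Not at hcon
    have h2 := (abs_le.1 (hlin x)).1
    have h3 : 0 ≤ g x := h0 x
    have hx' : g x + l * N x + ∑ j, c j * x j ≤ β := hx
    have h5 : 0 ≤ (l - ε) * (N x - R) := mul_nonneg (by linarith) (by linarith)
    nlinarith
  have hsub2 : ∀ x, G x ≤ β → ∃ i, x ∈ W i := by
    intro x hx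
    by_contra hcon
    have hxB : x ∈ B := (hsub1 x hx).le
    have h1 : x ∉ ⋃ i, W i := by
      simpa using hcon
    have h2 := hm' x hxB h1
    have h3 := (abs_le.1 (hlin x)).1
    have h4 : ε * (n + N x) ≤ ε * (n + R) :=
      mul_le_mul_of_nonneg_left (by linarith [hsub1 x hx]) hε.le
    have h5 : 0 ≤ l * N x := mul_nonneg hlpos.le (hN0 x)
    have hx' : g x + l * N x + ∑ j, c j * x j ≤ β := hx
    linarith
  -- the minimum points
  have hmin : ∀ i, ∃ x, x ∈ W i ∧ IsLocalMin G x := by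
    intro i
    have hQc : IsCompact ((B ∩ {x | G x ≤ β}) \ ⋃ j, ⋃ (_ : j ≠ i), W j) := by
      refine IsCompact.diff (hBc.inter_right (isClosed_le hGc continuous_const)) ?_
      exact isOpen_iUnion fun j => isOpen_iUnion fun _ => hWo j
    have hQ : ∀ x, x ∈ (B ∩ {x | G x ≤ β}) \ ⋃ j, ⋃ (_ : j ≠ i), W j ↔ G x ≤ β ∧ x ∈ W i := by
      intro x
      constructor
      · rintro ⟨⟨hxB, hx⟩, hx'⟩
        obtain ⟨j, hj⟩ := hsub2 x hx
        by_cases hji : j = i
        · exact ⟨hx, hji ▸ hj⟩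
        · exact absurd (mem_iUnion.2 ⟨j, mem_iUnion.2 ⟨hji, hj⟩⟩) hx'
      · rintro ⟨hx, hxi⟩
        refine ⟨⟨(hsub1 x hx).le, hx⟩, fun hx' => ?_⟩
        obtain ⟨j, hj⟩ := mem_iUnion.1 hx'
        obtain ⟨hji, hj'⟩ := mem_iUnion.1 hj
        exact Set.disjoint_left.1 (hWd j i hji) hj' hxi
    have hpQ : p i ∈ (B ∩ {x | G x ≤ β}) \ ⋃ j, ⋃ (_ : j ≠ i), W j :=
      (hQ _).2 ⟨(hGp i).le, hKW i (hpK i)⟩
    obtain ⟨x, hx, hx'⟩ := hQc.exists_isMinOn ⟨p i, hpQ⟩ hGc.continuousOn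
    have hxβ : G x < β := (hx' hpQ).trans_lt (hGp i)
    obtain ⟨_, hxW⟩ := (hQ x).1 hx
    refine ⟨x, hxW, ?_⟩
    have h1 : ∀ᶠ y in 𝓝 x, y ∈ W i := (hWo i).mem_nhds hxW
    have h2 : ∀ᶠ y in 𝓝 x, G y < β := hGc.continuousAt.eventually_lt_const hxβ
    filter_upwards [h1, h2] with y hy1 hy2
    exact hx' ((hQ y).2 ⟨hy2.le, hy1⟩)
  choose x hxW hxmin using hmin
  refine ⟨Finset.univ.image x, ?_, ?_⟩
  · rw [Finset.card_image_of_injective, Finset.card_univ, Fintype.card_fin]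
    intro i j hij
    by_contra hne
    exact Set.disjoint_left.1 (hWd i j hne) (hxW i) (by rw [hij]; exact hxW j)
  · intro y hy
    obtain ⟨i, _, rfl⟩ := Finset.mem_image.1 hy
    exact hxmin i

end OMin
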