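import Pool.Agent.OMin.Defs

/-! # module SA : Sard in equal dimensions -/

namespace OMin
open Set Filter Topology
open scoped ContDiff

theorem sard_null {ι : Type} [Fintype ι] (G : (ι → ℝ) → (ι → ℝ)) (hG : ContDiff ℝ 1 G) :
    MeasureTheory.volume (G '' {x | (fderiv ℝ G x).det = 0}) = 0 := by
  refine MeasureTheory.addHaar_image_eq_zero_of_det_fderivWithin_eq_zero MeasureTheory.volume
    (f' := fderiv ℝ G) (fun x _ => ?_) fun x hx => hx
  exact ((hG.differentiable one_ne_zero) x).hasFDerivAt.hasFDerivWithinAt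

end OMin
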