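import Pool.Agent.OMin.EBasic
import Pool.Agent.OMin.Sard
import Pool.Agent.OMin.LocMin
import Pool.Agent.OMin.KhovZero
import Pool.Agent.OMin.KhovSucc

/-!
# Module KC: uniform bounds for the number of pieces of zero sets
-/

namespace OMin
open Set Filter Topology
open scoped ContDiff

namespace KCompAux

theorem khov (k : ℕ) : KProp k := by
  induction k with
  | zero => exact khov_zero
  | succ k ih => exact khov_succ k ih

/-- the derivative of the perturbation of `G` at a local minimum -/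
theorem critical {ι : Type} [Fintype ι] [DecidableEq ι] {G : (ι → ℝ) → ℝ} (hG : ContDiff ℝ ∞ G)
    (l : ℝ) (c x : ι → ℝ)
    (h : IsLocalMin (fun x' => G x' + l * ∑ i, x' i ^ 2 + ∑ i, c i * x' i) x) (i : ι) :
    fderiv ℝ G x (Pi.single i 1) + 2 * l * x i + c i = 0 := by
  have h1 : HasFDerivAt G (fderiv ℝ G x) x :=
    (hG.differentiable (by simp) x).hasFDerivAt
  have hp : ∀ j : ι, HasFDerivAt (fun x' : ι → ℝ => x' j)
      (ContinuousLinearMap.proj (R := ℝ) (φ := fun _ : ι => ℝ) j) x := fun j =>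
    hasFDerivAt_apply j x
  have h2 : HasFDerivAt (fun x' : ι → ℝ => ∑ j, x' j ^ 2)
      (∑ j, (2 * x j) • ContinuousLinearMap.proj (R := ℝ) (φ := fun _ : ι => ℝ) j) x := by
    refine HasFDerivAt.fun_sum fun j _ => ?_
    have := (hp j).pow 2
    simpa using this
  have h3 : HasFDerivAt (fun x' : ι → ℝ => ∑ j, c j * x' j)
      (∑ j, c j • ContinuousLinearMap.proj (R := ℝ) (φ := fun _ : ι => ℝ) j) x := by
    refine HasFDerivAt.fun_sum fun j _ => ?_
    exact (hp j).const_mul (c j)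
  have h4 := h.hasFDerivAt_eq_zero ((h1.add (h2.const_mul l)).add h3)
  have h5 := DFunLike.congr_fun h4 (Pi.single i (1 : ℝ))
  simp only [add_apply, smul_apply,
    sum_apply, ContinuousLinearMap.proj_apply, smul_eq_mul,
    zero_apply] at h5
  rw [Finset.sum_eq_single i, Finset.sum_eq_single i] at h5
  · simp only [Pi.single_eq_same, mul_one] at h5
    linarith
  · intro j _ hj
    rw [Pi.single_eq_of_ne hj, mul_zero]
  · intro h; exact absurd (Finset.mem_univ _) h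
  · intro j _ hj
    rw [Pi.single_eq_of_ne hj, mul_zero]
  · intro h; exact absurd (Finset.mem_univ _) h

end KCompAux

open KCompAux

theorem K_components {ι κ : Type} [Finite ι] [Finite κ] {f : (ι ⊕ κ → ℝ) → ℝ}
    (hf : f ∈ E (ι ⊕ κ)) : ∃ N : ℕ, ∀ a : κ → ℝ, CompLe N {x : ι → ℝ | f (Sum.elim x a) = 0} := by
  classical
  cases nonempty_fintype ι
  cases nonempty_fintype κ
  obtain ⟨g, hg, hfg⟩ := E_split hf
  -- the square of `g` with additional parameters
  let σ : ι ⊕ (κ ⊕ κ) → ι ⊕ ((κ ⊕ κ) ⊕ Option ι) := Sum.elim Sum.inl fun k => Sum.inr (Sum.inl k)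
  let g2 : (ι ⊕ ((κ ⊕ κ) ⊕ Option ι) → ℝ) → ℝ := fun z => (g fun i => z (σ i)) ^ 2
  have hg2 : g2 ∈ EJ (ι ⊕ ((κ ⊕ κ) ⊕ Option ι)) (Sum.inl '' univ) := by
    refine EJ_pow (EJ_comp σ ?_ hg) 2
    rintro _ ⟨i, _, rfl⟩
    exact ⟨i, trivial, rfl⟩
  let F : ι → (ι ⊕ ((κ ⊕ κ) ⊕ Option ι) → ℝ) → ℝ := fun i z =>
    fderiv ℝ g2 z (Pi.single (Sum.inl i) 1) + 2 * z (Sum.inr (Sum.inr none)) * z (Sum.inl i) +
      z (Sum.inr (Sum.inr (some i)))
  have hF : ∀ i, F i ∈ EJ (ι ⊕ ((κ ⊕ κ) ⊕ Option ι))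
      (Sum.inl '' ((Finset.univ : Finset ι) : Set ι)) := by
    intro i
    rw [Finset.coe_univ]
    exact EJ_add (EJ_add (EJ_pderiv hg2 _)
      (EJ_mul (EJ_mul (EJ_const 2) (EJ_coord _)) (EJ_coord _))) (EJ_coord _)
  obtain ⟨M, hM⟩ := khov _ ι ((κ ⊕ κ) ⊕ Option ι) Finset.univ rfl F hF
  refine ⟨M, fun a hsplit => ?_⟩
  have hfc : ContDiff ℝ ∞ f := EJ_contDiff hf
  have helim : ContDiff ℝ ∞ (fun x : ι → ℝ => (Sum.elim x a : ι ⊕ κ → ℝ)) := by
    rw [contDiff_pi]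
    rintro (j | k)
    · exact contDiff_apply ℝ ℝ j
    · exact contDiff_const
  set G : (ι → ℝ) → ℝ := fun x => f (Sum.elim x a) ^ 2 with hGdef
  have hG : ContDiff ℝ ∞ G := (hfc.comp helim).pow 2
  have hsplit' : Split M {x | G x = 0} := by
    have : {x | G x = 0} = {x : ι → ℝ | f (Sum.elim x a) = 0} := by
      ext x
      simp [hGdef]
    rw [this]
    exact hsplit
  obtain ⟨l, hl, hev⟩ := split_minima G hG.continuous (fun x => sq_nonneg _) hsplit'
  set Ψ : (ι → ℝ) → (ι → ℝ) := fun x i => fderiv ℝ G x (Pi.single i 1) + 2 * l * x i with hΨ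
  have hΨc : ContDiff ℝ 1 Ψ := by
    rw [contDiff_pi]
    intro i
    refine ContDiff.add ?_ (contDiff_const.mul (contDiff_apply ℝ ℝ i))
    have h1 : ContDiff ℝ 1 (fderiv ℝ G) := hG.fderiv_right (by norm_cast)
    exact h1.clm_apply contDiff_const
  have hnull := sard_null Ψ hΨc
  -- choose the perturbation
  obtain ⟨c', hc', hcrit⟩ : ∃ c' : ι → ℝ, (∃ s : Finset (ι → ℝ), s.card = M + 1 ∧
      ∀ x ∈ s, IsLocalMin (fun x' => G x' + l * ∑ i, x' i ^ 2 + ∑ i, (-c') i * x' i) x) ∧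
      c' ∉ Ψ '' {x | (fderiv ℝ Ψ x).det = 0} := by
    have h1 : Tendsto (fun c : ι → ℝ => -c) (𝓝 0) (𝓝 0) := by
      have := (continuous_neg (G := ι → ℝ)).tendsto 0
      rwa [neg_zero] at this
    have h2 : {c : ι → ℝ | ∃ s : Finset (ι → ℝ), s.card = M + 1 ∧
        ∀ x ∈ s, IsLocalMin (fun x' => G x' + l * ∑ i, x' i ^ 2 + ∑ i, (-c) i * x' i) x} ∈
        𝓝 (0 : ι → ℝ) := h1.eventually hev
    have h3 := MeasureTheory.Measure.measure_pos_of_mem_nhds (MeasureTheory.volume : MeasureTheory.Measure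
      (ι → ℝ)) h2
    by_contra hcon
    push Not at hcon
    have h4 : {c : ι → ℝ | ∃ s : Finset (ι → ℝ), s.card = M + 1 ∧
        ∀ x ∈ s, IsLocalMin (fun x' => G x' + l * ∑ i, x' i ^ 2 + ∑ i, (-c) i * x' i) x} ⊆
        Ψ '' {x | (fderiv ℝ Ψ x).det = 0} := by
      rintro c ⟨s, hs, hs'⟩
      exact hcon c ⟨s, hs, hs'⟩
    have h5 := MeasureTheory.measure_mono_null h4 hnull
    exact h3.ne' h5
  obtain ⟨s, hs, hmin⟩ := hc'
  have hcr : ∀ x ∈ s, ∀ i, fderiv ℝ G x (Pi.single i 1) + 2 * l * x i + (-c') i = 0 :=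
    fun x hx i => critical hG l (-c') x (hmin x hx) i
  -- the system
  let b : (κ ⊕ κ) ⊕ Option ι → ℝ :=
    Sum.elim (Sum.elim a fun k => Real.exp (a k)) fun o => o.elim l (-c')
  have hg2G : (fun x' : ι → ℝ => g2 (Sum.elim x' b)) = G := by
    funext x'
    show (g fun i => (Sum.elim x' b : ι ⊕ ((κ ⊕ κ) ⊕ Option ι) → ℝ) (σ i)) ^ 2 = _
    have : (fun i => (Sum.elim x' b : ι ⊕ ((κ ⊕ κ) ⊕ Option ι) → ℝ) (σ i)) =
        Sum.elim x' (Sum.elim a fun k => Real.exp (a k)) := by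
      funext i
      rcases i with i | k
      · rfl
      · rfl
    rw [this, ← hfg]
  have hFΨ : ∀ (x : ι → ℝ) (i : ι), F i (Sum.elim x b) = Ψ x i + (-c') i := by
    intro x i
    have h1 := fderiv_elim (EJ_contDiff hg2) x b i
    rw [hg2G] at h1
    show fderiv ℝ g2 (Sum.elim x b) (Pi.single (Sum.inl i) 1) + 2 * l * x i + (-c') i = _
    rw [← h1]
  have hle := hM b s fun x hx => ⟨fun i => ?_, ?_⟩
  · omega
  · rw [hFΨ x i]
    exact hcr x hx i
  · have h1 : (fun (x' : ι → ℝ) (i : ι) => F i (Sum.elim x' b)) = fun x' => Ψ x' + (-c') := by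
      funext x' i
      exact hFΨ x' i
    rw [h1, fderiv_add_const]
    intro h0
    refine hcrit ⟨x, h0, ?_⟩
    funext i
    have := hcr x hx i
    show fderiv ℝ G x (Pi.single i 1) + 2 * l * x i = c' i
    have h2 : (-c') i = - c' i := rfl
    rw [h2] at this
    linarith

end OMin
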