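import Pool.Agent.OMin.Defs

/-! # Kuratowski limits (module KL) -/

namespace OMin
open Set Filter Topology

section KL

theorem KLim.isClosed {X κ : Type} [TopologicalSpace X] {L : Filter κ} [L.NeBot] {A : κ → Set X}
    {B : Set X} (h : KLim L A B) : IsClosed B := by
  rw [← isOpen_compl_iff, isOpen_iff_mem_nhds]
  intro x hx
  obtain ⟨U, hU, hU'⟩ := h.2 x hx
  filter_upwards [interior_mem_nhds.2 hU] with y hy hyB
  have h1 := h.1 y hyB U (mem_interior_iff_mem_nhds.1 hy)
  obtain ⟨t, ht1, ht2⟩ := (h1.and hU').exists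
  rw [ht2] at ht1
  exact Set.not_nonempty_empty ht1

theorem KLim.compact {X κ : Type} [TopologicalSpace X] {L : Filter κ} {A : κ → Set X}
    {B : Set X} (h : KLim L A B) {C : Set X} (hC : IsCompact C) (hd : Disjoint C B) :
    ∀ᶠ t in L, A t ∩ C = ∅ := by
  have h1 : ∀ x ∈ C, ∃ U ∈ 𝓝 x, ∀ᶠ t in L, A t ∩ U = ∅ :=
    fun x hx => h.2 x (Set.disjoint_left.1 hd hx)
  choose! U hU hU' using h1
  obtain ⟨s, hs, hs'⟩ := hC.elim_nhds_subcover U hU
  have h2 : ∀ᶠ t in L, ∀ x ∈ s, A t ∩ U x = ∅ :=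
    (Filter.eventually_all_finset s).2 fun x hx => hU' x (hs x hx)
  filter_upwards [h2] with t ht
  rw [Set.eq_empty_iff_forall_notMem]
  rintro y ⟨hy1, hy2⟩
  have h3 := hs' hy2
  simp only [Set.mem_iUnion] at h3
  obtain ⟨x, hx, hyx⟩ := h3
  have h4 : y ∈ A t ∩ U x := ⟨hy1, hyx⟩
  rw [ht x hx] at h4
  exact h4

/-- everything eventually close, inside a compact set -/
theorem KLim.subset_thickening {X κ : Type} [PseudoMetricSpace X] {L : Filter κ} {A : κ → Set X}
    {B : Set X} (h : KLim L A B) {C : Set X} (hC : IsCompact C) {δ : ℝ} (hδ : 0 < δ) :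
    ∀ᶠ t in L, A t ∩ C ⊆ Metric.thickening δ B := by
  have h1 : IsCompact (C \ Metric.thickening δ B) := hC.diff Metric.isOpen_thickening
  have h2 : Disjoint (C \ Metric.thickening δ B) B := by
    rw [Set.disjoint_left]
    intro x hx hxB
    exact hx.2 (Metric.self_subset_thickening hδ B hxB)
  filter_upwards [h.compact h1 h2] with t ht
  rintro y ⟨hy1, hy2⟩
  by_contra hcon
  have h4 : y ∈ A t ∩ (C \ Metric.thickening δ B) := ⟨hy1, hy2, hcon⟩
  rw [ht] at h4
  exact h4

end KL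

end OMin
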