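import Pool.Agent.OMin.EBasic
import Pool.Agent.OMin.Nested
import Pool.Agent.OMin.KLim

/-! # The class `Kc`: closed, univ, equivalences, products, unions -/

namespace OMin
open Set Filter Topology
open scoped ContDiff

theorem Kc_isClosed {ι : Type} {A : Set (ι → ℝ)} (hA : Kc ι A) : IsClosed A := by
  obtain ⟨μ, hμ, p, f, hf, h0, h⟩ := hA
  have := nested_neBot p
  exact h.isClosed

theorem Kc_univ (ι : Type) : Kc ι Set.univ := by
  refine ⟨Empty, inferInstance, 0, fun _ => 0, EJ_const 0, fun _ => le_refl 0, ?_, ?_⟩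
  · intro x _ U hU
    exact Eventually.of_forall fun t => ⟨x, ⟨fun e => e.elim, rfl⟩, mem_of_mem_nhds hU⟩
  · intro x hx
    exact absurd (mem_univ x) hx

theorem Kc_equiv {ι ι' : Type} (e : ι ≃ ι') {A : Set (ι → ℝ)} (hA : Kc ι A) :
    Kc ι' {x | (fun i => x (e i)) ∈ A} := by
  obtain ⟨μ, hμ, p, f, hf, h0, ha, hb⟩ := hA
  refine ⟨μ, hμ, p, fun z => f (fun k => z (Sum.map e id k)),
    EJ_comp (Sum.map e id) (fun j _ => mem_univ _) hf, fun z => h0 _, ?_, ?_⟩
  · intro x hx U hU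
    have hc : Continuous (fun (x' : ι → ℝ) (i : ι') => x' (e.symm i)) :=
      continuous_pi fun i => continuous_apply _
    have hx' : (fun i => x (e (e.symm i))) = x := by
      funext i; simp
    have hU' : (fun (x' : ι → ℝ) (i : ι') => x' (e.symm i)) ⁻¹' U ∈ 𝓝 (fun i => x (e i)) := by
      apply hc.continuousAt.preimage_mem_nhds
      show U ∈ 𝓝 (fun i => x (e (e.symm i)))
      rw [hx']; exact hU
    filter_upwards [ha _ hx _ hU'] with t ht
    obtain ⟨x', ⟨y, hy⟩, hx'U⟩ := ht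
    refine ⟨fun i => x' (e.symm i), ⟨y, ?_⟩, hx'U⟩
    rw [← hy]
    show f _ = f _
    congr 1
    funext k
    rcases k with k | k | k <;> simp
  · intro x hx
    obtain ⟨U, hU, h⟩ := hb _ hx
    have hc : Continuous (fun (x' : ι' → ℝ) (i : ι) => x' (e i)) :=
      continuous_pi fun i => continuous_apply _
    refine ⟨(fun (x' : ι' → ℝ) (i : ι) => x' (e i)) ⁻¹' U, hc.continuousAt.preimage_mem_nhds hU, ?_⟩
    filter_upwards [h] with t ht
    rw [Set.eq_empty_iff_forall_notMem] at ht ⊢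
    rintro x' ⟨⟨y, hy⟩, hx'⟩
    refine ht (fun i => x' (e i)) ⟨⟨y, ?_⟩, hx'⟩
    rw [← hy]
    show f _ = f _
    congr 1
    funext k
    rcases k with k | k | k <;> simp

theorem Kc_prod {ι ι' : Type} {A : Set (ι → ℝ)} {B : Set (ι' → ℝ)} (hA : Kc ι A) (hB : Kc ι' B) :
    Kc (ι ⊕ ι') {z | (fun i => z (Sum.inl i)) ∈ A ∧ (fun i => z (Sum.inr i)) ∈ B} := by
  obtain ⟨μ, hμ, p, f, hf, hf0, ha, hb⟩ := hA
  obtain ⟨μ', hμ', p', g, hg, hg0, ha', hb'⟩ := hB
  have key : ∀ (s : Fin p → ℝ) (t : Fin p' → ℝ) (z : ι ⊕ ι' → ℝ),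
      z ∈ ProjZero (μ := μ ⊕ μ') (fun z : ((ι ⊕ ι') ⊕ ((μ ⊕ μ') ⊕ Fin (p + p')) → ℝ) =>
        f (fun k => z (Sum.map Sum.inl (Sum.map Sum.inl (Fin.castAdd p')) k)) +
        g (fun k => z (Sum.map Sum.inr (Sum.map Sum.inr (Fin.natAdd p)) k))) (Fin.append s t) ↔
      (fun i => z (Sum.inl i)) ∈ ProjZero f s ∧ (fun i => z (Sum.inr i)) ∈ ProjZero g t := by
    intro s t z
    have e1 : ∀ v : μ ⊕ μ' → ℝ,
        (fun k => (Sum.elim z (Sum.elim v (Fin.append s t)) :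
          (ι ⊕ ι') ⊕ ((μ ⊕ μ') ⊕ Fin (p + p')) → ℝ)
          (Sum.map Sum.inl (Sum.map Sum.inl (Fin.castAdd p')) k)) =
        (Sum.elim (fun i => z (Sum.inl i)) (Sum.elim (fun j => v (Sum.inl j)) s) :
          ι ⊕ (μ ⊕ Fin p) → ℝ) := by
      intro v; funext k; rcases k with k | k | k <;> simp
    have e2 : ∀ v : μ ⊕ μ' → ℝ,
        (fun k => (Sum.elim z (Sum.elim v (Fin.append s t)) :
          (ι ⊕ ι') ⊕ ((μ ⊕ μ') ⊕ Fin (p + p')) → ℝ)
          (Sum.map Sum.inr (Sum.map Sum.inr (Fin.natAdd p)) k)) =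
        (Sum.elim (fun i => z (Sum.inr i)) (Sum.elim (fun j => v (Sum.inr j)) t) :
          ι' ⊕ (μ' ⊕ Fin p') → ℝ) := by
      intro v; funext k; rcases k with k | k | k <;> simp
    constructor
    · rintro ⟨v, hv⟩
      simp only [e1, e2] at hv
      have h1 := hf0 (Sum.elim (fun i => z (Sum.inl i)) (Sum.elim (fun j => v (Sum.inl j)) s))
      have h2 := hg0 (Sum.elim (fun i => z (Sum.inr i)) (Sum.elim (fun j => v (Sum.inr j)) t))
      exact ⟨⟨_, by linarith⟩, ⟨_, by linarith⟩⟩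
    · rintro ⟨⟨y, hy⟩, ⟨y', hy'⟩⟩
      refine ⟨Sum.elim y y', ?_⟩
      simp only [e1, e2, Sum.elim_inl, Sum.elim_inr]
      rw [hy, hy']; simp
  refine ⟨μ ⊕ μ', inferInstance, p + p', fun z =>
        f (fun k => z (Sum.map Sum.inl (Sum.map Sum.inl (Fin.castAdd p')) k)) +
        g (fun k => z (Sum.map Sum.inr (Sum.map Sum.inr (Fin.natAdd p)) k)),
    EJ_add (EJ_comp _ (fun j _ => mem_univ _) hf) (EJ_comp _ (fun j _ => mem_univ _) hg),
    fun z => add_nonneg (hf0 _) (hg0 _), ?_, ?_⟩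
  · rintro z ⟨hz1, hz2⟩ U hU
    have hc : Continuous (fun q : (ι → ℝ) × (ι' → ℝ) => (Sum.elim q.1 q.2 : ι ⊕ ι' → ℝ)) := by
      apply continuous_pi
      rintro (i | i)
      · exact (continuous_apply i).comp continuous_fst
      · exact (continuous_apply i).comp continuous_snd
    have hzz : (Sum.elim (fun i => z (Sum.inl i)) (fun i => z (Sum.inr i)) : ι ⊕ ι' → ℝ) = z := by
      funext k; rcases k with k | k <;> rfl
    have hU' : (fun q : (ι → ℝ) × (ι' → ℝ) => (Sum.elim q.1 q.2 : ι ⊕ ι' → ℝ)) ⁻¹' U ∈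
        𝓝 ((fun i => z (Sum.inl i)), (fun i => z (Sum.inr i))) := by
      apply hc.continuousAt.preimage_mem_nhds
      show U ∈ 𝓝 (Sum.elim (fun i => z (Sum.inl i)) (fun i => z (Sum.inr i)) : ι ⊕ ι' → ℝ)
      rw [hzz]; exact hU
    obtain ⟨U1, hU1, U2, hU2, hsub⟩ := mem_nhds_prod_iff.mp hU'
    rw [eventually_nested_append]
    filter_upwards [ha' _ hz2 _ hU2] with t ht
    filter_upwards [ha _ hz1 _ hU1] with s hs
    obtain ⟨x, hx, hxU⟩ := hs
    obtain ⟨x', hx', hxU'⟩ := ht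
    refine ⟨Sum.elim x x', (key s t _).mpr ⟨hx, hx'⟩, ?_⟩
    exact hsub (Set.mk_mem_prod hxU hxU')
  · intro z hz
    have hcl : Continuous (fun (z : ι ⊕ ι' → ℝ) (i : ι) => z (Sum.inl i)) :=
      continuous_pi fun i => continuous_apply _
    have hcr : Continuous (fun (z : ι ⊕ ι' → ℝ) (i : ι') => z (Sum.inr i)) :=
      continuous_pi fun i => continuous_apply _
    by_cases h1 : (fun i => z (Sum.inl i)) ∈ A
    · have h2 : (fun i => z (Sum.inr i)) ∉ B := fun h2 => hz ⟨h1, h2⟩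
      obtain ⟨U, hU, h⟩ := hb' _ h2
      refine ⟨_, hcr.continuousAt.preimage_mem_nhds hU, ?_⟩
      rw [eventually_nested_append]
      filter_upwards [h] with t ht
      refine Eventually.of_forall fun s => ?_
      rw [Set.eq_empty_iff_forall_notMem] at ht ⊢
      rintro w ⟨hw, hwU⟩
      exact ht _ ⟨((key s t w).mp hw).2, hwU⟩
    · obtain ⟨U, hU, h⟩ := hb _ h1
      refine ⟨_, hcl.continuousAt.preimage_mem_nhds hU, ?_⟩
      rw [eventually_nested_append]
      refine Eventually.of_forall fun t => ?_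
      filter_upwards [h] with s hs
      rw [Set.eq_empty_iff_forall_notMem] at hs ⊢
      rintro w ⟨hw, hwU⟩
      exact hs _ ⟨((key s t w).mp hw).1, hwU⟩

theorem Kc_union {ι : Type} {A B : Set (ι → ℝ)} (hA : Kc ι A) (hB : Kc ι B) : Kc ι (A ∪ B) := by
  obtain ⟨μ, hμ, p, f, hf, hf0, ha, hb⟩ := hA
  obtain ⟨μ', hμ', p', g, hg, hg0, ha', hb'⟩ := hB
  have key : ∀ (s : Fin p → ℝ) (t : Fin p' → ℝ) (z : ι → ℝ),
      z ∈ ProjZero (μ := μ ⊕ μ') (fun z : (ι ⊕ ((μ ⊕ μ') ⊕ Fin (p + p')) → ℝ) =>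
        f (fun k => z (Sum.map id (Sum.map Sum.inl (Fin.castAdd p')) k)) *
        g (fun k => z (Sum.map id (Sum.map Sum.inr (Fin.natAdd p)) k))) (Fin.append s t) ↔
      z ∈ ProjZero f s ∨ z ∈ ProjZero g t := by
    intro s t z
    have e1 : ∀ v : μ ⊕ μ' → ℝ,
        (fun k => (Sum.elim z (Sum.elim v (Fin.append s t)) :
          ι ⊕ ((μ ⊕ μ') ⊕ Fin (p + p')) → ℝ)
          (Sum.map id (Sum.map Sum.inl (Fin.castAdd p')) k)) =
        (Sum.elim z (Sum.elim (fun j => v (Sum.inl j)) s) :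
          ι ⊕ (μ ⊕ Fin p) → ℝ) := by
      intro v; funext k; rcases k with k | k | k <;> simp
    have e2 : ∀ v : μ ⊕ μ' → ℝ,
        (fun k => (Sum.elim z (Sum.elim v (Fin.append s t)) :
          ι ⊕ ((μ ⊕ μ') ⊕ Fin (p + p')) → ℝ)
          (Sum.map id (Sum.map Sum.inr (Fin.natAdd p)) k)) =
        (Sum.elim z (Sum.elim (fun j => v (Sum.inr j)) t) :
          ι ⊕ (μ' ⊕ Fin p') → ℝ) := by
      intro v; funext k; rcases k with k | k | k <;> simp
    constructor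
    · rintro ⟨v, hv⟩
      simp only [e1, e2] at hv
      rcases mul_eq_zero.mp hv with h | h
      · exact Or.inl ⟨_, h⟩
      · exact Or.inr ⟨_, h⟩
    · rintro (⟨y, hy⟩ | ⟨y', hy'⟩)
      · refine ⟨Sum.elim y (fun _ => 0), ?_⟩
        simp only [e1, e2, Sum.elim_inl]
        rw [hy, zero_mul]
      · refine ⟨Sum.elim (fun _ => 0) y', ?_⟩
        simp only [e1, e2, Sum.elim_inr]
        rw [hy', mul_zero]
  refine ⟨μ ⊕ μ', inferInstance, p + p', fun z =>
        f (fun k => z (Sum.map id (Sum.map Sum.inl (Fin.castAdd p')) k)) *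
        g (fun k => z (Sum.map id (Sum.map Sum.inr (Fin.natAdd p)) k)),
    EJ_mul (EJ_comp _ (fun j _ => mem_univ _) hf) (EJ_comp _ (fun j _ => mem_univ _) hg),
    fun z => mul_nonneg (hf0 _) (hg0 _), ?_, ?_⟩
  · rintro z (hz | hz) U hU
    · rw [eventually_nested_append]
      refine Eventually.of_forall fun t => ?_
      filter_upwards [ha _ hz _ hU] with s hs
      obtain ⟨x, hx, hxU⟩ := hs
      exact ⟨x, (key s t _).mpr (Or.inl hx), hxU⟩
    · rw [eventually_nested_append]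
      filter_upwards [ha' _ hz _ hU] with t ht
      refine Eventually.of_forall fun s => ?_
      obtain ⟨x, hx, hxU⟩ := ht
      exact ⟨x, (key s t _).mpr (Or.inr hx), hxU⟩
  · intro z hz
    obtain ⟨U, hU, h⟩ := hb z (fun h => hz (Or.inl h))
    obtain ⟨U', hU', h'⟩ := hb' z (fun h => hz (Or.inr h))
    refine ⟨U ∩ U', inter_mem hU hU', ?_⟩
    rw [eventually_nested_append]
    filter_upwards [h'] with t ht
    filter_upwards [h] with s hs
    rw [Set.eq_empty_iff_forall_notMem] at ht hs ⊢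
    rintro w ⟨hw, hwU, hwU'⟩
    rcases (key s t w).mp hw with hw | hw
    · exact hs _ ⟨hw, hwU⟩
    · exact ht _ ⟨hw, hwU'⟩

end OMin
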