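import Pool.Agent.OMin.CcKit
import Pool.Agent.OMin.KComp
import Pool.Agent.OMin.Comp
import Pool.Agent.OMin.KLim
import Pool.Agent.OMin.Nested
import Pool.Agent.OMin.KcA

/-! # Uniform finiteness (module UF) -/

namespace OMin
open Set Filter Topology

section Core
variable {ι κ μ : Type} {p : ℕ}

/-- the index map of the approximating function -/
private def sigUF : (ι ⊕ κ) ⊕ (μ ⊕ Fin p) →
    (((ι ⊕ κ) ⊕ μ) ⊕ Fin 2) ⊕ (κ ⊕ (Fin p ⊕ Fin 2))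
  | Sum.inl j => Sum.inl (Sum.inl (Sum.inl j))
  | Sum.inr (Sum.inl m) => Sum.inl (Sum.inl (Sum.inr m))
  | Sum.inr (Sum.inr t) => Sum.inr (Sum.inr (Sum.inl t))

private noncomputable def bigF [Fintype ι] [Fintype κ] (f : ((ι ⊕ κ) ⊕ (μ ⊕ Fin p) → ℝ) → ℝ)
    (z : (((ι ⊕ κ) ⊕ μ) ⊕ Fin 2) ⊕ (κ ⊕ (Fin p ⊕ Fin 2)) → ℝ) : ℝ :=
  f (fun i => z (sigUF i)) +
    ((∑ k, (z (Sum.inl (Sum.inl (Sum.inl (Sum.inr k)))) - z (Sum.inr (Sum.inl k))) ^ 2 +
      z (Sum.inl (Sum.inr 0)) ^ 2 - z (Sum.inr (Sum.inr (Sum.inr 0)))) ^ 2 +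
    (z (Sum.inr (Sum.inr (Sum.inr 1))) ^ 2 *
      ∑ i, z (Sum.inl (Sum.inl (Sum.inl (Sum.inl i)))) ^ 2 +
      z (Sum.inl (Sum.inr 1)) ^ 2 - 1) ^ 2)

private theorem bigF_mem [Fintype ι] [Fintype κ] {f : ((ι ⊕ κ) ⊕ (μ ⊕ Fin p) → ℝ) → ℝ}
    (hf : f ∈ E ((ι ⊕ κ) ⊕ (μ ⊕ Fin p))) :
    bigF f ∈ E ((((ι ⊕ κ) ⊕ μ) ⊕ Fin 2) ⊕ (κ ⊕ (Fin p ⊕ Fin 2))) := by
  have h1 : (fun z : (((ι ⊕ κ) ⊕ μ) ⊕ Fin 2) ⊕ (κ ⊕ (Fin p ⊕ Fin 2)) → ℝ =>
      f (fun i => z (sigUF i))) ∈ E _ := EJ_comp sigUF (fun _ _ => mem_univ _) hf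
  refine EJ_add h1 (EJ_add ?_ ?_)
  · refine EJ_pow (EJ_sub (EJ_add (EJ_sum _ (fun k _ => EJ_pow (EJ_sub (EJ_coord _) (EJ_coord _)) 2))
      (EJ_pow (EJ_coord _) 2)) (EJ_coord _)) 2
  · refine EJ_pow (EJ_sub (EJ_add (EJ_mul (EJ_pow (EJ_coord _) 2)
      (EJ_sum _ (fun k _ => EJ_pow (EJ_coord _) 2))) (EJ_pow (EJ_coord _) 2)) (EJ_const 1)) 2

/-- the cut approximating sets -/
private def WUF [Fintype ι] [Fintype κ] (f : ((ι ⊕ κ) ⊕ (μ ⊕ Fin p) → ℝ) → ℝ) (a : κ → ℝ)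
    (t : Fin p → ℝ) (e r : ℝ) : Set (ι ⊕ κ → ℝ) :=
  {z | z ∈ ProjZero f t ∧ ∑ k, (z (Sum.inr k) - a k) ^ 2 ≤ e ∧
    r ^ 2 * ∑ i, z (Sum.inl i) ^ 2 ≤ 1}

private theorem bigF_image [Fintype ι] [Fintype κ] {f : ((ι ⊕ κ) ⊕ (μ ⊕ Fin p) → ℝ) → ℝ}
    (h0 : ∀ z, 0 ≤ f z) (a : κ → ℝ) (t : Fin p → ℝ) (e r : ℝ) :
    (fun (v : ((ι ⊕ κ) ⊕ μ) ⊕ Fin 2 → ℝ) (j : ι ⊕ κ) => v (Sum.inl (Sum.inl j))) ''
      {v | bigF f (Sum.elim v (Sum.elim a (Sum.elim t ![e, r]))) = 0} = WUF f a t e r := by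
  ext z
  constructor
  · rintro ⟨v, hv, rfl⟩
    have hs : (fun i => (Sum.elim v (Sum.elim a (Sum.elim t ![e, r])) :
        (((ι ⊕ κ) ⊕ μ) ⊕ Fin 2) ⊕ (κ ⊕ (Fin p ⊕ Fin 2)) → ℝ) (sigUF i)) =
        Sum.elim (fun j => v (Sum.inl (Sum.inl j))) (Sum.elim (fun m => v (Sum.inl (Sum.inr m))) t) := by
      funext i
      rcases i with i | i | i <;> rfl
    have hv' : bigF f (Sum.elim v (Sum.elim a (Sum.elim t ![e, r]))) = 0 := hv
    rw [bigF, hs] at hv'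
    have h1 := h0 (Sum.elim (fun j => v (Sum.inl (Sum.inl j)))
      (Sum.elim (fun m => v (Sum.inl (Sum.inr m))) t))
    simp only [Sum.elim_inl, Sum.elim_inr, Matrix.cons_val_zero, Matrix.cons_val_one] at hv'
    have h2 := sq_nonneg (∑ k, (v (Sum.inl (Sum.inl (Sum.inr k))) - a k) ^ 2 +
      v (Sum.inr 0) ^ 2 - e)
    have h3 := sq_nonneg (r ^ 2 * ∑ i, v (Sum.inl (Sum.inl (Sum.inl i))) ^ 2 +
      v (Sum.inr 1) ^ 2 - 1)
    have h4 : f (Sum.elim (fun j => v (Sum.inl (Sum.inl j)))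
      (Sum.elim (fun m => v (Sum.inl (Sum.inr m))) t)) = 0 := by linarith
    have h5 : (∑ k, (v (Sum.inl (Sum.inl (Sum.inr k))) - a k) ^ 2 +
      v (Sum.inr 0) ^ 2 - e) ^ 2 = 0 := by linarith
    have h6 : (r ^ 2 * ∑ i, v (Sum.inl (Sum.inl (Sum.inl i))) ^ 2 +
      v (Sum.inr 1) ^ 2 - 1) ^ 2 = 0 := by linarith
    have h7 := pow_eq_zero_iff (two_ne_zero) |>.1 h5
    have h8 := pow_eq_zero_iff (two_ne_zero) |>.1 h6
    refine ⟨⟨_, h4⟩, ?_, ?_⟩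
    · have := sq_nonneg (v (Sum.inr 0))
      show ∑ k, (v (Sum.inl (Sum.inl (Sum.inr k))) - a k) ^ 2 ≤ e
      linarith
    · have := sq_nonneg (v (Sum.inr 1))
      show r ^ 2 * ∑ i, v (Sum.inl (Sum.inl (Sum.inl i))) ^ 2 ≤ 1
      linarith
  · rintro ⟨⟨y, hy⟩, h2, h3⟩
    refine ⟨Sum.elim (Sum.elim z y) ![Real.sqrt (e - ∑ k, (z (Sum.inr k) - a k) ^ 2),
      Real.sqrt (1 - r ^ 2 * ∑ i, z (Sum.inl i) ^ 2)], ?_, ?_⟩
    · show bigF f _ = 0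
      have hs : (fun i => (Sum.elim (Sum.elim (Sum.elim z y)
          ![Real.sqrt (e - ∑ k, (z (Sum.inr k) - a k) ^ 2),
            Real.sqrt (1 - r ^ 2 * ∑ i, z (Sum.inl i) ^ 2)])
          (Sum.elim a (Sum.elim t ![e, r])) :
          (((ι ⊕ κ) ⊕ μ) ⊕ Fin 2) ⊕ (κ ⊕ (Fin p ⊕ Fin 2)) → ℝ) (sigUF i)) =
          Sum.elim z (Sum.elim y t) := by
        funext i
        rcases i with i | i | i <;> rfl
      rw [bigF, hs, hy]
      simp only [Sum.elim_inl, Sum.elim_inr, Matrix.cons_val_zero, Matrix.cons_val_one]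
      rw [Real.sq_sqrt (by linarith), Real.sq_sqrt (by linarith)]
      ring
    · funext j
      rfl

private theorem separateUF {X : Type} [MetricSpace X] {N : ℕ} {K : Set X} (hK : IsClosed K)
    (U : Fin (N + 1) → Set X) (hU : ∀ i, IsOpen (U i)) (hcov : K ⊆ ⋃ i, U i)
    (hne : ∀ i, (K ∩ U i).Nonempty) (hdis : ∀ i j, i ≠ j → K ∩ U i ∩ U j = ∅) :
    ∃ O : Fin (N + 1) → Set X, (∀ i, IsOpen (O i)) ∧ (∀ i, K ∩ U i ⊆ O i) ∧
      ∀ i j, i ≠ j → O i ∩ O j = ∅ := by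
  have hcl : ∀ i, IsClosed (K ∩ U i) := by
    intro i
    have : K ∩ U i = K ∩ (⋃ j ∈ {j | j ≠ i}, U j)ᶜ := by
      ext x
      constructor
      · rintro ⟨hx, hxi⟩
        refine ⟨hx, ?_⟩
        intro hx2
        simp only [mem_iUnion] at hx2
        obtain ⟨j, hj, hxj⟩ := hx2
        have : x ∈ K ∩ U i ∩ U j := ⟨⟨hx, hxi⟩, hxj⟩
        rw [hdis i j (Ne.symm hj)] at this
        exact this
      · rintro ⟨hx, hx2⟩
        refine ⟨hx, ?_⟩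
        obtain ⟨j, hj⟩ := mem_iUnion.1 (hcov hx)
        by_cases hji : j = i
        · rwa [hji] at hj
        · exact absurd (mem_biUnion (show j ∈ {j | j ≠ i} from hji) hj) hx2
    rw [this]
    refine hK.inter (isOpen_biUnion (fun j _ => hU j)).isClosed_compl
  refine ⟨fun i => {x | ∀ j, j ≠ i → Metric.infDist x (K ∩ U i) < Metric.infDist x (K ∩ U j)},
    ?_, ?_, ?_⟩
  · intro i
    have : {x : X | ∀ j, j ≠ i → Metric.infDist x (K ∩ U i) < Metric.infDist x (K ∩ U j)} =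
        ⋂ j, {x : X | j ≠ i → Metric.infDist x (K ∩ U i) < Metric.infDist x (K ∩ U j)} := by
      ext x
      simp only [mem_ofPred_eq, mem_iInter]
    show IsOpen {x : X | ∀ j, j ≠ i → Metric.infDist x (K ∩ U i) < Metric.infDist x (K ∩ U j)}
    rw [this]
    refine isOpen_iInter_of_finite (fun j => ?_)
    by_cases hji : j = i
    · have : {x : X | j ≠ i → Metric.infDist x (K ∩ U i) < Metric.infDist x (K ∩ U j)} = univ := by
        ext x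
        simp [hji]
      rw [this]
      exact isOpen_univ
    · have : {x : X | j ≠ i → Metric.infDist x (K ∩ U i) < Metric.infDist x (K ∩ U j)} =
          {x : X | Metric.infDist x (K ∩ U i) < Metric.infDist x (K ∩ U j)} := by
        ext x
        simp [hji]
      rw [this]
      exact isOpen_lt (Metric.continuous_infDist_pt _) (Metric.continuous_infDist_pt _)
  · intro i x hx j hji
    rw [Metric.infDist_zero_of_mem hx]
    have hxj : x ∉ K ∩ U j := by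
      intro hxj
      have : x ∈ K ∩ U i ∩ U j := ⟨hx, hxj.2⟩
      rw [hdis i j (Ne.symm hji)] at this
      exact this
    exact ((hcl j).notMem_iff_infDist_pos (hne j)).1 hxj
  · intro i j hij
    ext x
    simp only [mem_inter_iff, mem_ofPred_eq, mem_empty_iff_false, iff_false, not_and]
    intro h1 h2
    exact lt_asymm (h1 j (Ne.symm hij)) (h2 i hij)

private theorem coreUF [Fintype ι] [Fintype κ] [Finite μ]
    {f : ((ι ⊕ κ) ⊕ (μ ⊕ Fin p) → ℝ) → ℝ}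
    {A : Set (ι ⊕ κ → ℝ)} (hAc : IsClosed A) (hlim : KLim (nested p) (ProjZero f) A)
    {N : ℕ} (hN : ∀ (a : κ → ℝ) (t : Fin p → ℝ) (e r : ℝ), CompLe N (WUF f a t e r))
    (a : κ → ℝ) : CompLe N {x : ι → ℝ | Sum.elim x a ∈ A} := by
  rintro ⟨U, hUo, hcov, hne, hdis⟩
  choose x hx using hne
  obtain ⟨R, hR0, hR⟩ : ∃ R : ℝ, 0 < R ∧ ∀ i, ∑ j, x i j ^ 2 < R ^ 2 := by
    refine ⟨1 + ∑ i, ∑ j, x i j ^ 2, ?_, ?_⟩
    · have : 0 ≤ ∑ i, ∑ j, x i j ^ 2 := Finset.sum_nonneg (fun i _ =>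
        Finset.sum_nonneg (fun j _ => sq_nonneg _))
      linarith
    · intro i
      have h1 : ∑ j, x i j ^ 2 ≤ ∑ i, ∑ j, x i j ^ 2 :=
        Finset.single_le_sum (f := fun i => ∑ j, x i j ^ 2)
          (fun i _ => Finset.sum_nonneg (fun j _ => sq_nonneg _)) (Finset.mem_univ i)
      have h2 : 0 ≤ ∑ j, x i j ^ 2 := Finset.sum_nonneg (fun j _ => sq_nonneg _)
      nlinarith
  have hel : Continuous (fun y : ι → ℝ => (Sum.elim y a : ι ⊕ κ → ℝ)) := by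
    rw [continuous_pi_iff]
    intro i
    rcases i with i | i
    · exact continuous_apply i
    · exact continuous_const
  have hKc : IsClosed ({y : ι → ℝ | Sum.elim y a ∈ A} ∩ {y | ∑ j, y j ^ 2 ≤ R ^ 2}) := by
    refine (hAc.preimage hel).inter (isClosed_le (by fun_prop) continuous_const)
  have hxK : ∀ i, x i ∈ ({y : ι → ℝ | Sum.elim y a ∈ A} ∩ {y | ∑ j, y j ^ 2 ≤ R ^ 2}) ∩ U i :=
    fun i => ⟨⟨(hx i).1, (hR i).le⟩, (hx i).2⟩
  obtain ⟨O, hOo, hKO, hOd⟩ := separateUF hKc U hUo (fun y hy => hcov hy.1)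
    (fun i => ⟨x i, hxK i⟩) (by
      intro i j hij
      rw [eq_empty_iff_forall_notMem]
      rintro y ⟨⟨⟨hy1, -⟩, hy2⟩, hy3⟩
      have : y ∈ {y : ι → ℝ | Sum.elim y a ∈ A} ∩ U i ∩ U j := ⟨⟨hy1, hy2⟩, hy3⟩
      rw [hdis i j hij] at this
      exact this)
  have hOun : IsOpen (⋃ i, O i) := isOpen_iUnion hOo
  -- the compact sets
  have c1 : Continuous (fun z : ι ⊕ κ → ℝ => ∑ i, z (Sum.inl i) ^ 2) := by fun_prop
  have c2 : Continuous (fun z : ι ⊕ κ → ℝ => ∑ k, (z (Sum.inr k) - a k) ^ 2) := by fun_prop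
  have hcx : Continuous (fun z : ι ⊕ κ → ℝ => (fun i => z (Sum.inl i) : ι → ℝ)) := by fun_prop
  have hC : ∀ e : ℝ, IsCompact {z : ι ⊕ κ → ℝ | ∑ i, z (Sum.inl i) ^ 2 ≤ R ^ 2 ∧
      ∑ k, (z (Sum.inr k) - a k) ^ 2 ≤ e ∧ (fun i => z (Sum.inl i)) ∉ ⋃ i, O i} := by
    intro e
    apply Metric.isCompact_of_isClosed_isBounded
    · exact (isClosed_le c1 continuous_const).inter
        ((isClosed_le c2 continuous_const).inter (hOun.isClosed_compl.preimage hcx))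
    · rw [isBounded_iff_forall_norm_le]
      refine ⟨R + (|e| + 1) + ∑ k, |a k|, ?_⟩
      rintro z ⟨hz1, hz2, -⟩
      have hsa : 0 ≤ ∑ k, |a k| := Finset.sum_nonneg (fun k _ => abs_nonneg _)
      have he := abs_nonneg e
      rw [pi_norm_le_iff_of_nonneg (by positivity)]
      intro i
      rw [Real.norm_eq_abs]
      rcases i with i | k
      · have h1 : z (Sum.inl i) ^ 2 ≤ R ^ 2 := le_trans
          (Finset.single_le_sum (f := fun i => z (Sum.inl i) ^ 2) (fun i _ => sq_nonneg _)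
            (Finset.mem_univ i)) hz1
        have h3 := abs_le_of_sq_le_sq h1 hR0.le
        linarith
      · have h1 : (z (Sum.inr k) - a k) ^ 2 ≤ e := le_trans
          (Finset.single_le_sum (f := fun k => (z (Sum.inr k) - a k) ^ 2) (fun i _ => sq_nonneg _)
            (Finset.mem_univ k)) hz2
        have h4 : (z (Sum.inr k) - a k) ^ 2 ≤ (|e| + 1) ^ 2 := by
          have := le_abs_self e
          nlinarith
        have h2 := abs_le_of_sq_le_sq h4 (by positivity)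
        have h3 : |a k| ≤ ∑ k, |a k| := Finset.single_le_sum (f := fun k => |a k|)
          (fun k _ => abs_nonneg _) (Finset.mem_univ k)
        have h5 : |z (Sum.inr k)| ≤ |z (Sum.inr k) - a k| + |a k| := by
          have := abs_add_le (z (Sum.inr k) - a k) (a k)
          simpa using this
        linarith
  -- choice of `e`
  obtain ⟨e, he0, he⟩ : ∃ e : ℝ, 0 < e ∧ Disjoint {z : ι ⊕ κ → ℝ | ∑ i, z (Sum.inl i) ^ 2 ≤ R ^ 2 ∧
      ∑ k, (z (Sum.inr k) - a k) ^ 2 ≤ e ∧ (fun i => z (Sum.inl i)) ∉ ⋃ i, O i} A := by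
    have hD := (hC 1).inter_right hAc
    have hpos : ∀ z ∈ {z : ι ⊕ κ → ℝ | ∑ i, z (Sum.inl i) ^ 2 ≤ R ^ 2 ∧
      ∑ k, (z (Sum.inr k) - a k) ^ 2 ≤ 1 ∧ (fun i => z (Sum.inl i)) ∉ ⋃ i, O i} ∩ A,
        0 < ∑ k, (z (Sum.inr k) - a k) ^ 2 := by
      rintro z ⟨⟨hz1, hz2, hz3⟩, hzA⟩
      refine lt_of_le_of_ne (Finset.sum_nonneg (fun k _ => sq_nonneg _)) ?_
      intro heq
      have h1 : ∀ k, z (Sum.inr k) = a k := by
        intro k
        have h2 := (Finset.sum_eq_zero_iff_of_nonneg (fun k _ => sq_nonneg _)).1 heq.symm k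
          (Finset.mem_univ k)
        have h3 := (pow_eq_zero_iff two_ne_zero).1 h2
        linarith
      have h2 : z = Sum.elim (fun i => z (Sum.inl i)) a := by
        funext i
        rcases i with i | k
        · rfl
        · exact h1 k
      have h3 : (fun i => z (Sum.inl i)) ∈
          ({y : ι → ℝ | Sum.elim y a ∈ A} ∩ {y | ∑ j, y j ^ 2 ≤ R ^ 2}) := by
        refine ⟨?_, hz1⟩
        show Sum.elim (fun i => z (Sum.inl i)) a ∈ A
        rw [← h2]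
        exact hzA
      obtain ⟨i, hi⟩ := mem_iUnion.1 (hcov h3.1)
      exact hz3 (mem_iUnion.2 ⟨i, hKO i ⟨h3, hi⟩⟩)
    by_cases hDne : ({z : ι ⊕ κ → ℝ | ∑ i, z (Sum.inl i) ^ 2 ≤ R ^ 2 ∧
      ∑ k, (z (Sum.inr k) - a k) ^ 2 ≤ 1 ∧ (fun i => z (Sum.inl i)) ∉ ⋃ i, O i} ∩ A).Nonempty
    · obtain ⟨z0, hz0, hz0m⟩ := hD.exists_isMinOn hDne
        (f := fun z : ι ⊕ κ → ℝ => ∑ k, (z (Sum.inr k) - a k) ^ 2) (by fun_prop)
      refine ⟨min 1 (∑ k, (z0 (Sum.inr k) - a k) ^ 2) / 2, ?_, ?_⟩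
      · have := hpos z0 hz0
        positivity
      · rw [Set.disjoint_left]
        rintro z ⟨hz1, hz2, hz3⟩ hzA
        have h1 : 0 < ∑ k, (z0 (Sum.inr k) - a k) ^ 2 := hpos z0 hz0
        have hz2' : ∑ k, (z (Sum.inr k) - a k) ^ 2 ≤ 1 := by
          refine le_trans hz2 ?_
          have := min_le_left 1 (∑ k, (z0 (Sum.inr k) - a k) ^ 2)
          linarith
        have h2 : ∑ k, (z0 (Sum.inr k) - a k) ^ 2 ≤ ∑ k, (z (Sum.inr k) - a k) ^ 2 :=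
          hz0m ⟨⟨hz1, hz2', hz3⟩, hzA⟩
        have := min_le_right 1 (∑ k, (z0 (Sum.inr k) - a k) ^ 2)
        linarith
    · refine ⟨1, one_pos, ?_⟩
      rw [Set.disjoint_iff_inter_eq_empty]
      exact not_nonempty_iff_eq_empty.1 hDne
  -- the approximating parameter
  have ev1 := hlim.compact (hC e) he
  have ev2 : ∀ᶠ t in nested p, ∀ i, (ProjZero f t ∩ {z : ι ⊕ κ → ℝ | (fun j => z (Sum.inl j)) ∈ O i ∧
      ∑ k, (z (Sum.inr k) - a k) ^ 2 < e ∧ ∑ j, z (Sum.inl j) ^ 2 < R ^ 2}).Nonempty := by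
    rw [eventually_all]
    intro i
    refine hlim.1 (Sum.elim (x i) a) (hx i).1 _ ?_
    refine IsOpen.mem_nhds ?_ ?_
    · exact ((hOo i).preimage hcx).inter ((isOpen_lt c2 continuous_const).inter
        (isOpen_lt c1 continuous_const))
    · refine ⟨hKO i (hxK i), ?_, hR i⟩
      simpa using he0
  have := nested_neBot p
  obtain ⟨t, ht1, ht2⟩ := (ev1.and ev2).exists
  refine hN a t e (1 / R) ⟨fun i => {z : ι ⊕ κ → ℝ | (fun j => z (Sum.inl j)) ∈ O i}, ?_, ?_, ?_, ?_⟩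
  · intro i
    exact (hOo i).preimage hcx
  · rintro z ⟨hz1, hz2, hz3⟩
    by_contra hcon
    have h1 : ∑ i, z (Sum.inl i) ^ 2 ≤ R ^ 2 := by
      rw [div_pow, one_pow, one_div, inv_mul_le_iff₀ (by positivity), mul_one] at hz3
      exact hz3
    have h2 : z ∈ ProjZero f t ∩ {z : ι ⊕ κ → ℝ | ∑ i, z (Sum.inl i) ^ 2 ≤ R ^ 2 ∧
      ∑ k, (z (Sum.inr k) - a k) ^ 2 ≤ e ∧ (fun i => z (Sum.inl i)) ∉ ⋃ i, O i} := by
      refine ⟨hz1, h1, hz2, ?_⟩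
      intro h3
      obtain ⟨i, hi⟩ := mem_iUnion.1 h3
      exact hcon (mem_iUnion.2 ⟨i, hi⟩)
    rw [ht1] at h2
    exact h2
  · intro i
    obtain ⟨z, hz1, hz2, hz3, hz4⟩ := ht2 i
    refine ⟨z, ⟨hz1, hz3.le, ?_⟩, hz2⟩
    rw [div_pow, one_pow, one_div, inv_mul_le_iff₀ (by positivity), mul_one]
    exact hz4.le
  · intro i j hij
    rw [eq_empty_iff_forall_notMem]
    rintro z ⟨⟨-, hz1⟩, hz2⟩
    have : (fun j => z (Sum.inl j)) ∈ O i ∩ O j := ⟨hz1, hz2⟩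
    rw [hOd i j hij] at this
    exact this

end Core

private theorem KcUF {ι κ : Type} [Finite ι] [Finite κ] {A : Set (ι ⊕ κ → ℝ)} (hA : Kc (ι ⊕ κ) A) :
    ∃ N : ℕ, ∀ a : κ → ℝ, CompLe N {x : ι → ℝ | Sum.elim x a ∈ A} := by
  have hcl := Kc_isClosed hA
  obtain ⟨μ, hμ, p, f, hf, h0, hlim⟩ := hA
  have := Fintype.ofFinite ι
  have := Fintype.ofFinite κ
  obtain ⟨N, hN⟩ := K_components (bigF_mem hf)
  refine ⟨N, fun a => coreUF hcl hlim ?_ a⟩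
  intro a t e r
  rw [← bigF_image h0 a t e r]
  exact compLe_image (hN _) (by fun_prop)

theorem UF {ι κ : Type} [Finite ι] [Finite κ] {A : Set (ι ⊕ κ → ℝ)} (hA : Cc (ι ⊕ κ) A) :
    ∃ N : ℕ, ∀ a : κ → ℝ, CompLe N {x : ι → ℝ | Sum.elim x a ∈ A} := by
  obtain ⟨ν, hν, B, hB, rfl⟩ := hA
  let e : (ι ⊕ κ) ⊕ ν ≃ (ι ⊕ ν) ⊕ κ :=
    { toFun := fun z => match z with
        | Sum.inl (Sum.inl i) => Sum.inl (Sum.inl i)
        | Sum.inl (Sum.inr k) => Sum.inr k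
        | Sum.inr n => Sum.inl (Sum.inr n)
      invFun := fun z => match z with
        | Sum.inl (Sum.inl i) => Sum.inl (Sum.inl i)
        | Sum.inr k => Sum.inl (Sum.inr k)
        | Sum.inl (Sum.inr n) => Sum.inr n
      left_inv := by
        rintro ((i | k) | n) <;> rfl
      right_inv := by
        rintro ((i | n) | k) <;> rfl }
  obtain ⟨N, hN⟩ := KcUF (Kc_equiv e hB)
  refine ⟨N, fun a => ?_⟩
  have h1 := compLe_image (hN a) (f := fun (w : ι ⊕ ν → ℝ) (i : ι) => w (Sum.inl i)) (by fun_prop)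
  convert h1 using 1
  ext x
  constructor
  · rintro ⟨y, hy⟩
    refine ⟨Sum.elim x y, ?_, rfl⟩
    show (fun i => (Sum.elim (Sum.elim x y) a : (ι ⊕ ν) ⊕ κ → ℝ) (e i)) ∈ B
    convert hy using 1
    funext i
    rcases i with (i | k) | n <;> rfl
  · rintro ⟨w, hw, rfl⟩
    refine ⟨fun n => w (Sum.inr n), ?_⟩
    have hw' : (fun i => (Sum.elim w a : (ι ⊕ ν) ⊕ κ → ℝ) (e i)) ∈ B := hw
    convert hw' using 1
    funext i
    rcases i with (i | k) | n <;> rfl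

theorem UF_fiber {n : ℕ} {A : Set (Fin (n + 1) → ℝ)} (hA : Cc (Fin (n + 1)) A) :
    ∃ N : ℕ, ∀ x : Fin n → ℝ, ∃ C : Fin N → Set ℝ, (∀ i, (C i).OrdConnected) ∧
      {s : ℝ | (Fin.cons s x : Fin (n + 1) → ℝ) ∈ A} = ⋃ i, C i := by
  obtain ⟨N, hN⟩ := UF (ι := Unit) (κ := Fin n)
    (Cc_pull (Fin.cases (Sum.inl ()) (fun j => Sum.inr j) : Fin (n + 1) → Unit ⊕ Fin n) hA)
  refine ⟨N, fun x => ?_⟩
  apply compLe_real
  have h1 := compLe_image (hN x) (f := fun (w : Unit → ℝ) => w ()) (by fun_prop)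
  convert h1 using 1
  ext s
  constructor
  · intro hs
    refine ⟨fun _ => s, ?_, rfl⟩
    show (fun i => (Sum.elim (fun _ => s) x : Unit ⊕ Fin n → ℝ)
      ((Fin.cases (Sum.inl ()) (fun j => Sum.inr j) : Fin (n + 1) → Unit ⊕ Fin n) i)) ∈ A
    have heq : (fun i => (Sum.elim (fun _ => s) x : Unit ⊕ Fin n → ℝ)
      ((Fin.cases (Sum.inl ()) (fun j => Sum.inr j) : Fin (n + 1) → Unit ⊕ Fin n) i)) =
        (Fin.cons s x : Fin (n + 1) → ℝ) := by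
      funext i
      refine Fin.cases ?_ ?_ i
      · simp
      · intro j
        simp
    rw [heq]
    exact hs
  · rintro ⟨w, hw, rfl⟩
    have hw' : (fun i => (Sum.elim w x : Unit ⊕ Fin n → ℝ)
      ((Fin.cases (Sum.inl ()) (fun j => Sum.inr j) : Fin (n + 1) → Unit ⊕ Fin n) i)) ∈ A := hw
    show (Fin.cons (w ()) x : Fin (n + 1) → ℝ) ∈ A
    have heq : (fun i => (Sum.elim w x : Unit ⊕ Fin n → ℝ)
      ((Fin.cases (Sum.inl ()) (fun j => Sum.inr j) : Fin (n + 1) → Unit ⊕ Fin n) i)) =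
        (Fin.cons (w ()) x : Fin (n + 1) → ℝ) := by
      funext i
      refine Fin.cases ?_ ?_ i
      · simp
      · intro j
        simp
    rw [← heq]
    exact hw'

end OMin
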