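import Pool.Agent.OMin.Defs

/-! # Baire category and fibres -/

namespace OMin
open Set Filter Topology

namespace BFAux

theorem residual_closed {X : Type} [TopologicalSpace X] {F : Set X} (hF : IsClosed F) :
    ∀ᶠ x in residual X, x ∈ F → x ∈ interior F := by
  have h1 : (frontier F)ᶜ ∈ residual X := by
    apply residual_of_dense_open isClosed_frontier.isOpen_compl
    rw [← interior_eq_empty_iff_dense_compl]
    exact interior_frontier hF
  filter_upwards [h1] with x hx hxF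
  by_contra h
  exact hx (by rw [hF.frontier_eq]; exact ⟨hxF, h⟩)

end BFAux

open BFAux in
theorem baire_fiber {n : ℕ} {A : Set (Fin (n + 1) → ℝ)} (C : ℕ → Set (Fin (n + 1) → ℝ))
    (hC : ∀ m, IsClosed (C m)) (hA : A = ⋃ m, C m) {V : Set (Fin n → ℝ)} (hV : IsOpen V)
    (hne : V.Nonempty)
    (h : ∀ᶠ x in residual (Fin n → ℝ), x ∈ V →
      (interior {s : ℝ | (Fin.cons s x : Fin (n + 1) → ℝ) ∈ A}).Nonempty) :
    (interior A).Nonempty := by
  have hcons : Continuous (fun q : ℝ × (Fin n → ℝ) => (Fin.cons q.1 q.2 : Fin (n + 1) → ℝ)) := by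
    apply continuous_pi
    intro i
    refine Fin.cases ?_ (fun j => ?_) i
    · simpa using continuous_fst
    · simp only [Fin.cons_succ]
      exact (continuous_apply j).comp continuous_snd
  have hc1 : ∀ x : Fin n → ℝ, Continuous (fun s : ℝ => (Fin.cons s x : Fin (n + 1) → ℝ)) :=
    fun x => hcons.comp (continuous_id.prodMk continuous_const)
  have hc2 : ∀ s : ℝ, Continuous (fun x : Fin n → ℝ => (Fin.cons s x : Fin (n + 1) → ℝ)) :=
    fun s => hcons.comp (continuous_const.prodMk continuous_id)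
  -- the closed sets
  let D : ℕ × ℚ × ℚ → Set (Fin n → ℝ) := fun k =>
    {x | ∀ s ∈ Icc (k.2.1 : ℝ) (k.2.2 : ℝ), (Fin.cons s x : Fin (n + 1) → ℝ) ∈ C k.1}
  have hD : ∀ k, IsClosed (D k) := by
    intro k
    have : D k = ⋂ s ∈ Icc (k.2.1 : ℝ) (k.2.2 : ℝ),
        (fun x : Fin n → ℝ => (Fin.cons s x : Fin (n + 1) → ℝ)) ⁻¹' (C k.1) := by
      ext x; simp [D]
    rw [this]
    exact isClosed_biInter fun s _ => (hC _).preimage (hc2 s)
  have hres : ∀ᶠ x in residual (Fin n → ℝ), ∀ k, x ∈ D k → x ∈ interior (D k) :=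
    eventually_countable_forall.mpr fun k => residual_closed (hD k)
  obtain ⟨x, hxV, hx⟩ := (dense_of_mem_residual (inter_mem h hres)).inter_open_nonempty V hV hne
  obtain ⟨hx1, hx2⟩ := hx
  have hx1 := hx1 hxV
  -- some interval in the fibre
  have hres2 : ∀ᶠ s in residual ℝ, ∀ m, s ∈ {s : ℝ | (Fin.cons s x : Fin (n + 1) → ℝ) ∈ C m} →
      s ∈ interior {s : ℝ | (Fin.cons s x : Fin (n + 1) → ℝ) ∈ C m} :=
    eventually_countable_forall.mpr fun m => residual_closed ((hC m).preimage (hc1 x))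
  obtain ⟨t, htI, ht⟩ := (dense_of_mem_residual hres2).inter_open_nonempty _ isOpen_interior hx1
  have htA : t ∈ {s : ℝ | (Fin.cons s x : Fin (n + 1) → ℝ) ∈ A} := interior_subset htI
  have htA : (Fin.cons t x : Fin (n + 1) → ℝ) ∈ A := htA
  rw [hA] at htA
  obtain ⟨m, hm⟩ := mem_iUnion.mp htA
  have htm := ht m hm
  obtain ⟨l, u, ⟨hl, hu⟩, hlu⟩ := mem_nhds_iff_exists_Ioo_subset.mp (mem_interior_iff_mem_nhds.mp htm)
  obtain ⟨q, hq1, hq2⟩ := exists_rat_btwn hl
  obtain ⟨r, hr1, hr2⟩ := exists_rat_btwn hu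
  have hxD : x ∈ D (m, q, r) := by
    intro s hs
    have : s ∈ Ioo l u := ⟨lt_of_lt_of_le hq1 hs.1, lt_of_le_of_lt hs.2 hr2⟩
    exact hlu this
  have hxi := hx2 _ hxD
  -- the open box
  have htail : Continuous (fun z : Fin (n + 1) → ℝ => (fun i : Fin n => z i.succ)) :=
    continuous_pi fun i => continuous_apply _
  refine ⟨Fin.cons t x, ?_⟩
  rw [mem_interior]
  refine ⟨{z | z 0 ∈ Ioo (q : ℝ) (r : ℝ)} ∩ {z | (fun i : Fin n => z i.succ) ∈
    interior (D (m, q, r))}, ?_, ?_, ?_⟩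
  · rintro z ⟨hz0, hz1⟩
    have h1 := interior_subset hz1 (z 0) ⟨hz0.1.le, hz0.2.le⟩
    have h2 : (Fin.cons (z 0) (fun i : Fin n => z i.succ) : Fin (n + 1) → ℝ) = z := by
      funext i
      refine Fin.cases ?_ (fun j => ?_) i <;> simp
    rw [h2] at h1
    rw [hA]
    exact mem_iUnion.mpr ⟨m, h1⟩
  · exact (isOpen_Ioo.preimage (continuous_apply _)).inter (isOpen_interior.preimage htail)
  · exact ⟨⟨by simpa using hq2, by simpa using hr1⟩, by simpa using hxi⟩

end OMin
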