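import Pool.Agent.OMin.CcKit
import Pool.Agent.OMin.UF
import Pool.Agent.OMin.Baire

/-! # Fibres of sets in the class (module GF) -/

namespace OMin
open Set Filter Topology

namespace GFibAux

/-- the fibre -/
def Fib {n : ℕ} (B : Set (Fin (n + 1) → ℝ)) (x : Fin n → ℝ) : Set ℝ :=
  {s : ℝ | (Fin.cons s x : Fin (n + 1) → ℝ) ∈ B}

theorem ordConn_subsingleton {C : Set ℝ} (hC : C.OrdConnected) (hf : C.Finite) :
    ∀ a ∈ C, ∀ b ∈ C, a = b := by
  intro a ha b hb
  by_contra hne
  rcases lt_or_gt_of_ne hne with h | h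
  · exact (Set.Icc_infinite h) (hf.subset (hC.out ha hb))
  · exact (Set.Icc_infinite h) (hf.subset (hC.out hb ha))

theorem card_le {N : ℕ} {S : Set ℝ} {C : Fin N → Set ℝ} (hC : ∀ i, (C i).OrdConnected)
    (hS : S = ⋃ i, C i) (hf : S.Finite) : S.ncard ≤ N := by
  classical
  rw [Set.ncard_eq_toFinset_card _ hf]
  have h1 : ∀ s ∈ hf.toFinset, ∃ i, s ∈ C i := by
    intro s hs
    rw [Set.Finite.mem_toFinset, hS] at hs
    exact Set.mem_iUnion.1 hs
  rcases hf.toFinset.eq_empty_or_nonempty with he | hne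
  · rw [he]
    simp
  have hinh : Nonempty (Fin N) := by
    obtain ⟨s₀, hs₀⟩ := hne
    obtain ⟨i, _⟩ := h1 s₀ hs₀
    exact ⟨i⟩
  choose! g hg using h1
  have h2 : hf.toFinset.card ≤ (Finset.univ : Finset (Fin N)).card := by
    apply Finset.card_le_card_of_injOn g (fun _ _ => Finset.mem_univ _)
    intro a ha b hb hab
    have hfi : (C (g a)).Finite := hf.subset (by rw [hS]; exact Set.subset_iUnion C (g a))
    refine ordConn_subsingleton (hC (g a)) hfi a (hg a ha) b ?_
    rw [hab]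
    exact hg b hb
  simpa using h2

theorem infinite_interior {N : ℕ} {S : Set ℝ} {C : Fin N → Set ℝ} (hC : ∀ i, (C i).OrdConnected)
    (hS : S = ⋃ i, C i) (hi : S.Infinite) : (interior S).Nonempty := by
  have h1 : ∃ i, (C i).Infinite := by
    by_contra hcon
    simp only [not_exists, Set.not_infinite] at hcon
    apply hi
    rw [hS]
    exact Set.finite_iUnion hcon
  obtain ⟨i, hi⟩ := h1
  obtain ⟨a, ha, b, hb, hab⟩ := hi.nontrivial
  have key : ∀ a b : ℝ, a ∈ C i → b ∈ C i → a < b → (interior S).Nonempty := by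
    intro a b ha hb hab
    refine ⟨(a + b) / 2, ?_⟩
    apply interior_maximal (s := S) (t := Set.Ioo a b) _ isOpen_Ioo
    · constructor <;> linarith
    · rw [hS]
      refine subset_trans ?_ (Set.subset_iUnion C i)
      exact Set.Ioo_subset_Icc_self.trans ((hC i).out ha hb)
  rcases lt_or_gt_of_ne hab with h | h
  · exact key a b ha hb h
  · exact key b a hb ha h

/-- increasing `m`-tuples in the fibre -/
def Tup {n : ℕ} (B : Set (Fin (n + 1) → ℝ)) (m : ℕ) : Set (Fin n ⊕ Fin m → ℝ) :=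
  {w | StrictMono (fun i : Fin m => w (Sum.inr i)) ∧
    ∀ i : Fin m, w (Sum.inr i) ∈ Fib B (fun j => w (Sum.inl j))}

theorem Tup_Cc {n : ℕ} {B : Set (Fin (n + 1) → ℝ)} (hB : Cc (Fin (n + 1)) B) (m : ℕ) :
    Cc (Fin n ⊕ Fin m) (Tup B m) := by
  have h : Tup B m = (⋂ i : Fin m, ⋂ j : Fin m, {w | i < j → w (Sum.inr i) < w (Sum.inr j)}) ∩
      ⋂ i : Fin m, {w | (fun k : Fin (n + 1) =>
        w (Fin.cases (Sum.inr i) Sum.inl k : Fin n ⊕ Fin m)) ∈ B} := by
    ext w
    have h2 : ∀ i : Fin m, (fun k : Fin (n + 1) =>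
        w (Fin.cases (Sum.inr i) Sum.inl k : Fin n ⊕ Fin m)) =
        (Fin.cons (w (Sum.inr i)) (fun j => w (Sum.inl j)) : Fin (n + 1) → ℝ) := by
      intro i
      funext k
      refine Fin.cases ?_ (fun j => ?_) k
      · rfl
      · rfl
    constructor
    · rintro ⟨h1, h3⟩
      refine ⟨?_, ?_⟩
      · simp only [Set.mem_iInter]
        intro i j hij
        exact h1 hij
      · simp only [Set.mem_iInter]
        intro i
        show (fun k : Fin (n + 1) => w (Fin.cases (Sum.inr i) Sum.inl k : Fin n ⊕ Fin m)) ∈ B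
        rw [h2]
        exact h3 i
    · rintro ⟨h1, h3⟩
      simp only [Set.mem_iInter] at h1 h3
      refine ⟨fun i j hij => h1 i j hij, fun i => ?_⟩
      have h4 := h3 i
      have h5 : (fun k : Fin (n + 1) =>
        w (Fin.cases (Sum.inr i) Sum.inl k : Fin n ⊕ Fin m)) ∈ B := h4
      rw [h2] at h5
      exact h5
  rw [h]
  apply Cc_inter
  · apply Cc_iInter
    intro i
    apply Cc_iInter
    intro j
    by_cases hij : i < j
    · have h1 : {w : Fin n ⊕ Fin m → ℝ | i < j → w (Sum.inr i) < w (Sum.inr j)} =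
          {w | w (Sum.inr i) < w (Sum.inr j)} := by
        ext w
        exact ⟨fun h => h hij, fun h _ => h⟩
      rw [h1]
      exact Cc_lt (EJ_coord _) (EJ_coord _)
    · have h1 : {w : Fin n ⊕ Fin m → ℝ | i < j → w (Sum.inr i) < w (Sum.inr j)} =
          Set.univ := by
        ext w
        exact ⟨fun _ => trivial, fun _ h => absurd h hij⟩
      rw [h1]
      exact Cc_univ _
  · apply Cc_iInter
    intro i
    exact Cc_pull _ hB

/-- fibres with at least `m` points -/
def AtLeast {n : ℕ} (B : Set (Fin (n + 1) → ℝ)) (m : ℕ) : Set (Fin n → ℝ) :=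
  {x | ∃ b : Fin m → ℝ, (Sum.elim x b : Fin n ⊕ Fin m → ℝ) ∈ Tup B m}

theorem AtLeast_Cc {n : ℕ} {B : Set (Fin (n + 1) → ℝ)} (hB : Cc (Fin (n + 1)) B) (m : ℕ) :
    Cc (Fin n) (AtLeast B m) := Cc_proj (Tup_Cc hB m)

theorem mem_AtLeast {n : ℕ} {B : Set (Fin (n + 1) → ℝ)} {m : ℕ} {x : Fin n → ℝ} :
    x ∈ AtLeast B m ↔ ∃ b : Fin m → ℝ, StrictMono b ∧ ∀ i, b i ∈ Fib B x := Iff.rfl

theorem AtLeast_of_finset {n : ℕ} {B : Set (Fin (n + 1) → ℝ)} {x : Fin n → ℝ} (F : Finset ℝ)
    (hF : ∀ s ∈ F, s ∈ Fib B x) : x ∈ AtLeast B F.card := by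
  rw [mem_AtLeast]
  refine ⟨F.orderEmbOfFin rfl, (F.orderEmbOfFin rfl).strictMono, fun i => ?_⟩
  exact hF _ (Finset.orderEmbOfFin_mem F rfl i)

end GFibAux

open GFibAux

theorem fib_card {n : ℕ} {B : Set (Fin (n + 1) → ℝ)} (hB : Cc (Fin (n + 1)) B) :
    ∃ N : ℕ, ∀ x : Fin n → ℝ, {s : ℝ | (Fin.cons s x : Fin (n + 1) → ℝ) ∈ B}.Finite →
      {s : ℝ | (Fin.cons s x : Fin (n + 1) → ℝ) ∈ B}.ncard ≤ N := by
  obtain ⟨N, hN⟩ := UF_fiber hB
  refine ⟨N, fun x hx => ?_⟩
  obtain ⟨C, hC1, hC2⟩ := hN x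
  exact card_le hC1 hC2 hx

theorem bigFib_Cc {n : ℕ} {B : Set (Fin (n + 1) → ℝ)} (hB : Cc (Fin (n + 1)) B) :
    Cc (Fin n) (bigFib B) := by
  obtain ⟨N, hN⟩ := fib_card hB
  have h : bigFib B = AtLeast B (N + 1) := by
    ext x
    constructor
    · intro hx
      have hx' : (Fib B x).Infinite := hx
      obtain ⟨F, hF1, hF2⟩ := hx'.exists_subset_card_eq (N + 1)
      rw [← hF2]
      exact AtLeast_of_finset F (fun s hs => hF1 hs)
    · intro hx hfin
      obtain ⟨b, hb1, hb2⟩ := mem_AtLeast.1 hx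
      have h1 := hN x hfin
      have h2 : (Set.range b).ncard ≤ (Fib B x).ncard := by
        apply Set.ncard_le_ncard _ hfin
        rintro _ ⟨i, rfl⟩
        exact hb2 i
      have h3 : (Set.range b).ncard = N + 1 := by
        rw [← Set.image_univ, Set.ncard_image_of_injective _ hb1.injective, Set.ncard_univ]
        simp
      have h4 : (Fib B x).ncard ≤ N := h1
      omega
  rw [h]
  exact AtLeast_Cc hB _

theorem bigFib_interior {n : ℕ} {B : Set (Fin (n + 1) → ℝ)} (hB : Cc (Fin (n + 1)) B)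
    (h : interior B = ∅) : interior (bigFib B) = ∅ := by
  by_contra hne
  rw [← Ne, ← Set.nonempty_iff_ne_empty] at hne
  obtain ⟨N, hN⟩ := UF_fiber hB
  obtain ⟨C, hC1, hC2⟩ := Cc_Fsigma hB
  have h1 : (interior B).Nonempty := by
    refine baire_fiber C hC1 hC2 isOpen_interior hne (Filter.Eventually.of_forall fun x hx => ?_)
    obtain ⟨D, hD1, hD2⟩ := hN x
    exact infinite_interior hD1 hD2 (interior_subset hx)
  rw [h] at h1
  exact Set.not_nonempty_empty h1

/-- the fibre over `x` is `{b 0 < ... < b (k-1)}` : this relation is in the class -/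
theorem fibList_Cc {n : ℕ} (hC : ComplN n) {B : Set (Fin (n + 1) → ℝ)}
    (hB : Cc (Fin (n + 1)) B) (k : ℕ) :
    Cc (Fin n ⊕ Fin k) {z | StrictMono (fun i : Fin k => z (Sum.inr i)) ∧
      {s : ℝ | (Fin.cons s (fun i => z (Sum.inl i)) : Fin (n + 1) → ℝ) ∈ B} =
        Set.range (fun i : Fin k => z (Sum.inr i))} := by
  classical
  have h : {z : Fin n ⊕ Fin k → ℝ | StrictMono (fun i : Fin k => z (Sum.inr i)) ∧
      {s : ℝ | (Fin.cons s (fun i => z (Sum.inl i)) : Fin (n + 1) → ℝ) ∈ B} =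
        Set.range (fun i : Fin k => z (Sum.inr i))} =
      Tup B k ∩ {z | (fun i => z (Sum.inl i)) ∈ (AtLeast B (k + 1))ᶜ} := by
    ext z
    constructor
    · rintro ⟨h1, h2⟩
      have h2' : Fib B (fun i => z (Sum.inl i)) = Set.range (fun i : Fin k => z (Sum.inr i)) := h2
      refine ⟨⟨h1, fun i => ?_⟩, ?_⟩
      · rw [h2']
        exact ⟨i, rfl⟩
      · rintro ⟨b, hb1, hb2⟩
        have hb1' : StrictMono b := hb1
        have hb2' : ∀ i, b i ∈ Fib B (fun i => z (Sum.inl i)) := hb2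
        rw [h2'] at hb2'
        have h3 : (Set.range b).ncard ≤ (Set.range (fun i : Fin k => z (Sum.inr i))).ncard := by
          apply Set.ncard_le_ncard _ (Set.finite_range _)
          rintro _ ⟨i, rfl⟩
          exact hb2' i
        have h4 : (Set.range b).ncard = k + 1 := by
          rw [← Set.image_univ, Set.ncard_image_of_injective _ hb1'.injective, Set.ncard_univ]
          simp
        have h5 : (Set.range (fun i : Fin k => z (Sum.inr i))).ncard = k := by
          rw [← Set.image_univ, Set.ncard_image_of_injective _ h1.injective, Set.ncard_univ]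
          simp
        omega
    · rintro ⟨⟨h1, h2⟩, h3⟩
      refine ⟨h1, ?_⟩
      apply Set.Subset.antisymm
      · intro s hs
        by_contra hcon
        apply h3
        set F : Finset ℝ := insert s (Finset.univ.image (fun i : Fin k => z (Sum.inr i))) with hF
        have hcard : F.card = k + 1 := by
          rw [hF, Finset.card_insert_of_notMem, Finset.card_image_of_injective _ h1.injective]
          · simp
          · intro hmem
            obtain ⟨i, _, hi⟩ := Finset.mem_image.1 hmem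
            exact hcon ⟨i, hi⟩
        have h4 : (fun i => z (Sum.inl i)) ∈ AtLeast B F.card := by
          apply AtLeast_of_finset
          intro t ht
          rw [hF, Finset.mem_insert] at ht
          rcases ht with rfl | ht
          · exact hs
          · obtain ⟨i, _, rfl⟩ := Finset.mem_image.1 ht
            exact h2 i
        rw [hcard] at h4
        exact h4
      · rintro _ ⟨i, rfl⟩
        exact h2 i
  rw [h]
  exact Cc_inter (Tup_Cc hB k) (Cc_pull Sum.inl (hC _ (AtLeast_Cc hB (k + 1))))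

end OMin
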