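import Pool.Agent.OMin.CcKit
import Pool.Agent.OMin.GFib

/-! # Decomposition of thin sets (module DD) -/

namespace OMin
open Set Filter Topology

theorem compl_zero : ComplN 0 := by
  intro A _
  by_cases h : (Fin.elim0 : Fin 0 → ℝ) ∈ A
  · have h1 : Aᶜ = ∅ := by
      rw [Set.eq_empty_iff_forall_notMem]
      intro x hx
      rw [Subsingleton.elim x (Fin.elim0 : Fin 0 → ℝ)] at hx
      exact hx h
    rw [h1]
    exact Cc_empty _
  · have h1 : Aᶜ = Set.univ := by
      rw [Set.eq_univ_iff_forall]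
      intro x hx
      rw [Subsingleton.elim x (Fin.elim0 : Fin 0 → ℝ)] at hx
      exact h hx
    rw [h1]
    exact Cc_univ _

theorem dec_zero : DecN 0 := by
  intro G _ hGi
  refine ⟨0, fun l => l.elim0, fun l => l.elim0, fun l => l.elim0, fun l => l.elim0, ?_⟩
  rw [Set.iUnion_of_empty]
  rw [Set.eq_empty_iff_forall_notMem]
  intro x hx
  have h1 : G = Set.univ := by
    rw [Set.eq_univ_iff_forall]
    intro y
    rwa [Subsingleton.elim y x]
  rw [h1, interior_univ] at hGi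
  have h2 : x ∈ (Set.univ : Set (Fin 0 → ℝ)) := trivial
  rw [hGi] at h2
  exact h2

/-- the points of `G` that are the `j`-th point of a fibre with `m` points -/
private def PtSet {n : ℕ} (G : Set (Fin (n + 1) → ℝ)) (m : ℕ) (j : Fin m) :
    Set (Fin (n + 1) → ℝ) :=
  {z | ∃ b : Fin m → ℝ, (Sum.elim z b : Fin (n + 1) ⊕ Fin m → ℝ) ∈
    ({w | (fun q : Fin n ⊕ Fin m => w (Sum.map Fin.succ id q)) ∈
        {z | StrictMono (fun i : Fin m => z (Sum.inr i)) ∧
          {s : ℝ | (Fin.cons s (fun i => z (Sum.inl i)) : Fin (n + 1) → ℝ) ∈ G} =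
            Set.range (fun i : Fin m => z (Sum.inr i))}} ∩
      {w | w (Sum.inl 0) = w (Sum.inr j)} : Set (Fin (n + 1) ⊕ Fin m → ℝ))}

private theorem mem_PtSet {n : ℕ} {G : Set (Fin (n + 1) → ℝ)} {m : ℕ} {j : Fin m}
    {z : Fin (n + 1) → ℝ} : z ∈ PtSet G m j ↔ ∃ b : Fin m → ℝ, StrictMono b ∧
      {s : ℝ | (Fin.cons s (Fin.tail z) : Fin (n + 1) → ℝ) ∈ G} = Set.range b ∧ z 0 = b j := by
  constructor
  · rintro ⟨b, ⟨hb1, hb2⟩, hb3⟩
    exact ⟨b, hb1, hb2, hb3⟩
  · rintro ⟨b, hb1, hb2, hb3⟩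
    exact ⟨b, ⟨hb1, hb2⟩, hb3⟩

private theorem PtSet_Cc {n : ℕ} (hC : ComplN n) {G : Set (Fin (n + 1) → ℝ)}
    (hG : Cc (Fin (n + 1)) G) (m : ℕ) (j : Fin m) : Cc (Fin (n + 1)) (PtSet G m j) := by
  apply Cc_proj
  apply Cc_inter
  · exact Cc_pull (Sum.map Fin.succ id) (fibList_Cc hC hG m)
  · exact Cc_eq (EJ_coord _) (EJ_coord _)

theorem dec_succ (n : ℕ) (hC : ComplN n) (hD : DecN n) : DecN (n + 1) := by
  classical
  intro G hG hGi
  obtain ⟨k, H, i, hH1, hH2, hH3⟩ := hD (bigFib G) (bigFib_Cc hG) (bigFib_interior hG hGi)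
  obtain ⟨N, hN⟩ := fib_card hG
  set κ := Fin k ⊕ (Σ m : Fin (N + 1), Fin m) with hκ
  set S : κ → Set (Fin (n + 1) → ℝ) := Sum.elim (fun l => G ∩ {z | Fin.tail z ∈ H l})
    (fun q => PtSet G q.1 q.2) with hS
  set d : κ → Fin (n + 1) := Sum.elim (fun l => (i l).succ) (fun _ => 0) with hd
  have hSC : ∀ q, Cc (Fin (n + 1)) (S q) := by
    rintro (l | ⟨m, j⟩)
    · exact Cc_inter hG (Cc_pull Fin.succ (hH1 l))
    · exact PtSet_Cc hC hG m j
  have hSD : ∀ q, DropInj (S q) (d q) := by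
    rintro (l | ⟨m, j⟩) x hx y hy hxy
    · have h1 : Fin.tail x = Fin.tail y := by
        apply hH2 l _ hx.2 _ hy.2
        intro t ht
        apply hxy
        intro h
        exact ht (Fin.succ_injective _ h)
      have h2 : x 0 = y 0 := hxy 0 (Fin.succ_ne_zero _).symm
      rw [← Fin.cons_self_tail x, ← Fin.cons_self_tail y, h1, h2]
    · have h1 : Fin.tail x = Fin.tail y := by
        funext t
        exact hxy _ (Fin.succ_ne_zero _)
      obtain ⟨b, hb1, hb2, hb3⟩ := mem_PtSet.1 hx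
      obtain ⟨b', hb1', hb2', hb3'⟩ := mem_PtSet.1 hy
      rw [← h1, hb2] at hb2'
      have h3 : b = b' := (StrictMono.range_inj hb1 hb1').1 hb2'
      have h2 : x 0 = y 0 := by rw [hb3, hb3', h3]
      rw [← Fin.cons_self_tail x, ← Fin.cons_self_tail y, h1, h2]
  have hSU : G = ⋃ q, S q := by
    apply Set.Subset.antisymm
    · intro z hz
      by_cases hb : Fin.tail z ∈ bigFib G
      · rw [hH3] at hb
        obtain ⟨l, hl⟩ := Set.mem_iUnion.1 hb
        exact Set.mem_iUnion.2 ⟨Sum.inl l, hz, hl⟩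
      · have hfin : {s : ℝ | (Fin.cons s (Fin.tail z) : Fin (n + 1) → ℝ) ∈ G}.Finite :=
          Set.not_infinite.1 hb
        have hcard := hN _ hfin
        rw [Set.ncard_eq_toFinset_card _ hfin] at hcard
        set F := hfin.toFinset with hF
        set b := F.orderEmbOfFin rfl with hbdef
        have hr : Set.range b = {s : ℝ | (Fin.cons s (Fin.tail z) : Fin (n + 1) → ℝ) ∈ G} := by
          rw [hbdef, Finset.range_orderEmbOfFin, hF, Set.Finite.coe_toFinset]
        have hz0 : z 0 ∈ Set.range b := by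
          rw [hr]
          show (Fin.cons (z 0) (Fin.tail z) : Fin (n + 1) → ℝ) ∈ G
          rw [Fin.cons_self_tail]
          exact hz
        obtain ⟨j, hj⟩ := hz0
        refine Set.mem_iUnion.2 ⟨Sum.inr ⟨⟨F.card, Nat.lt_succ_of_le hcard⟩, j⟩, ?_⟩
        exact mem_PtSet.2 ⟨b, b.strictMono, hr.symm, hj.symm⟩
    · intro z hz
      obtain ⟨q, hq⟩ := Set.mem_iUnion.1 hz
      rcases q with l | ⟨m, j⟩
      · exact hq.1
      · obtain ⟨b, hb1, hb2, hb3⟩ := mem_PtSet.1 hq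
        have h1 : z 0 ∈ {s : ℝ | (Fin.cons s (Fin.tail z) : Fin (n + 1) → ℝ) ∈ G} := by
          rw [hb2, hb3]
          exact ⟨j, rfl⟩
        have h2 : (Fin.cons (z 0) (Fin.tail z) : Fin (n + 1) → ℝ) ∈ G := h1
        rwa [Fin.cons_self_tail] at h2
  let e := Fintype.equivFin κ
  refine ⟨Fintype.card κ, fun l => S (e.symm l), fun l => d (e.symm l), fun l => hSC _,
    fun l => hSD _, ?_⟩
  rw [hSU]
  exact (e.symm.surjective.iUnion_comp S).symm

end OMin
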