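import Mathlib

/-!
# Exponential sets: definitions

`EJ τ J` : functions of `x : τ → ℝ` that are polynomials in the coordinates and in `exp (x j)`, `j ∈ J`.
`E τ = EJ τ univ`.

`nested p` : the filter on `Fin p → ℝ` expressing
`for all small t (p-1), for all small t (p-2), ..., for all small t 0`
(coordinate `0` is the innermost one).

`KLim L A B` : the sets `A t` converge to the set `B` along the filter `L` (Kuratowski).

`Kc ι A` : `A` is a limit of projections of zero sets of functions in `E`.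
`Cc ι A` : `A` is a projection of a set in the class `Kc`.
-/

namespace OMin
open Set Filter Topology

/-- polynomials in the coordinates and in `exp (x j)`, `j ∈ J` -/
noncomputable def EJ (τ : Type) (J : Set τ) : Subalgebra ℝ ((τ → ℝ) → ℝ) :=
  Algebra.adjoin ℝ (Set.range (fun (i : τ) (x : τ → ℝ) => x i) ∪
    (fun (i : τ) (x : τ → ℝ) => Real.exp (x i)) '' J)

/-- exponential polynomials -/
noncomputable def E (τ : Type) : Subalgebra ℝ ((τ → ℝ) → ℝ) := EJ τ Set.univ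

/-- `S` can be cut into `N + 1` nonempty disjoint relatively open pieces -/
def Split {X : Type} [TopologicalSpace X] (N : ℕ) (S : Set X) : Prop :=
  ∃ U : Fin (N + 1) → Set X, (∀ i, IsOpen (U i)) ∧ S ⊆ ⋃ i, U i ∧ (∀ i, (S ∩ U i).Nonempty) ∧
    ∀ i j, i ≠ j → S ∩ U i ∩ U j = ∅

/-- `S` has at most `N` pieces -/
def CompLe {X : Type} [TopologicalSpace X] (N : ℕ) (S : Set X) : Prop := ¬ Split N S

/-- for all small `t (p-1)`, ..., for all small `t 0` -/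
def nested : ∀ p : ℕ, Filter (Fin p → ℝ)
  | 0 => ⊤
  | p + 1 => (nested p).bind fun t => (𝓝[>] (0 : ℝ)).map fun s => (Fin.cons s t : Fin (p + 1) → ℝ)

/-- Kuratowski convergence of the sets `A t` to the set `B` along `L` -/
def KLim {X κ : Type} [TopologicalSpace X] (L : Filter κ) (A : κ → Set X) (B : Set X) : Prop :=
  (∀ x ∈ B, ∀ U ∈ 𝓝 x, ∀ᶠ t in L, (A t ∩ U).Nonempty) ∧
    ∀ x, x ∉ B → ∃ U ∈ 𝓝 x, ∀ᶠ t in L, A t ∩ U = ∅

/-- `{x | ∃ y, f (x, y, t) = 0}` -/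
def ProjZero {ι μ κ : Type} (f : (ι ⊕ (μ ⊕ κ) → ℝ) → ℝ) (t : κ → ℝ) : Set (ι → ℝ) :=
  {x | ∃ y : μ → ℝ, f (Sum.elim x (Sum.elim y t)) = 0}

/-- closed sets that are limits of projections of zero sets -/
def Kc (ι : Type) (A : Set (ι → ℝ)) : Prop :=
  ∃ (μ : Type) (_ : Finite μ) (p : ℕ) (f : (ι ⊕ (μ ⊕ Fin p) → ℝ) → ℝ),
    f ∈ E (ι ⊕ (μ ⊕ Fin p)) ∧ (∀ z, 0 ≤ f z) ∧ KLim (nested p) (ProjZero f) A

/-- projections of `Kc` sets -/
def Cc (ι : Type) (A : Set (ι → ℝ)) : Prop :=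
  ∃ (κ : Type) (_ : Finite κ) (B : Set (ι ⊕ κ → ℝ)), Kc (ι ⊕ κ) B ∧
    A = {x | ∃ y : κ → ℝ, Sum.elim x y ∈ B}

/-- `{u | (0, u) ∈ closure (D ∩ {t > 0})}` -/
def lim0 {ι : Type} (D : Set (Option ι → ℝ)) : Set (ι → ℝ) :=
  {u | (fun o : Option ι => o.elim (0 : ℝ) u) ∈ closure (D ∩ {z | 0 < z none})}

/-- the same for sets in `ℝ^ι × ℝ^(p+1)`, with respect to the coordinate `0` of the second factor -/
def limT {ι : Type} {p : ℕ} (D : Set (ι ⊕ Fin (p + 1) → ℝ)) : Set (ι ⊕ Fin p → ℝ) :=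
  {u | (Sum.elim (fun i => u (Sum.inl i)) (Fin.cons (0 : ℝ) (fun j => u (Sum.inr j))) :
      ι ⊕ Fin (p + 1) → ℝ) ∈ closure (D ∩ {z | 0 < z (Sum.inr 0)})}

/-- iterated limit -/
def tower {ι : Type} : ∀ p : ℕ, Set (ι ⊕ Fin p → ℝ) → Set (ι → ℝ)
  | 0, S => {x | (Sum.elim x (fun j => j.elim0) : ι ⊕ Fin 0 → ℝ) ∈ S}
  | p + 1, S => tower p (limT S)

/-! ### Khovanskii bounds -/

/-- uniform bound for the number of nondegenerate zeros -/
def KBound {ι κ : Type} [Fintype ι] (F : ι → (ι ⊕ κ → ℝ) → ℝ) : Prop :=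
  ∃ M : ℕ, ∀ (a : κ → ℝ) (s : Finset (ι → ℝ)),
    (∀ x ∈ s, (∀ i, F i (Sum.elim x a) = 0) ∧
      (fderiv ℝ (fun (x' : ι → ℝ) (i : ι) => F i (Sum.elim x' a)) x).det ≠ 0) → s.card ≤ M

/-- the bound for systems with `k` exponentials -/
def KProp (k : ℕ) : Prop :=
  ∀ (ι κ : Type) [Fintype ι] [Fintype κ] (J : Finset ι), J.card = k →
    ∀ F : ι → (ι ⊕ κ → ℝ) → ℝ, (∀ i, F i ∈ EJ (ι ⊕ κ) (Sum.inl '' (J : Set ι))) → KBound F

/-- the extended map: `F` together with `u * exp (- x j)` -/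
noncomputable def extMap {ι κ : Type} (F : ι → (Option ι ⊕ κ → ℝ) → ℝ) (j : ι) (a : κ → ℝ)
    (z : Option ι → ℝ) : Option ι → ℝ :=
  fun o => o.elim (z none * Real.exp (- z (some j))) (fun i => F i (Sum.elim z a))

/-- `F` together with a function `H` -/
noncomputable def pairMap {ι κ : Type} (F : ι → (Option ι ⊕ κ → ℝ) → ℝ)
    (H : (Option ι ⊕ κ → ℝ) → ℝ) (a : κ → ℝ) (z : Option ι → ℝ) : Option ι → ℝ :=
  fun o => o.elim (H (Sum.elim z a)) (fun i => F i (Sum.elim z a))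

/-! ### boundaries -/

/-- the sublevel projection -/
def Vset {ι : Type} {m p : ℕ} (f : (ι ⊕ (Fin m ⊕ Fin p) → ℝ) → ℝ) (c : Fin m → ℝ) (η ρ : ℝ)
    (ε : Fin p → ℝ) : Set (ι → ℝ) :=
  {x | ∃ y : Fin m → ℝ,
    f (Sum.elim x (Sum.elim y ε)) + η * ρ ^ 2 * ∑ j, y j ^ 2 + ∑ j, c j * y j ≤ η}

/-- the critical set; parameters `t = (c, η, ρ, ε) : Fin (m + (2 + p)) → ℝ` -/
def Sset {ι : Type} [Fintype ι] {m p : ℕ} (f : (ι ⊕ (Fin m ⊕ Fin p) → ℝ) → ℝ) :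
    Set (ι ⊕ Fin (m + (2 + p)) → ℝ) :=
  {z | ∃ (x : ι → ℝ) (y c : Fin m → ℝ) (η ρ : ℝ) (ε : Fin p → ℝ),
    z = Sum.elim x (Fin.append c (Fin.append ![η, ρ] ε)) ∧
    (∀ j, c j = - fderiv ℝ (fun y' : Fin m → ℝ => f (Sum.elim x (Sum.elim y' ε))) y
        (Pi.single j 1) - 2 * η * ρ ^ 2 * y j) ∧
    f (Sum.elim x (Sum.elim y ε)) + η * ρ ^ 2 * ∑ j, y j ^ 2 + ∑ j, c j * y j = η}

/-! ### the complement theorem -/

/-- points of `G` are determined by their coordinates other than `i` -/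
def DropInj {n : ℕ} (G : Set (Fin n → ℝ)) (i : Fin n) : Prop :=
  ∀ x ∈ G, ∀ y ∈ G, (∀ j, j ≠ i → x j = y j) → x = y

/-- the complement theorem in dimension `n` -/
def ComplN (n : ℕ) : Prop := ∀ A : Set (Fin n → ℝ), Cc (Fin n) A → Cc (Fin n) Aᶜ

/-- the decomposition of thin sets in dimension `n` -/
def DecN (n : ℕ) : Prop :=
  ∀ G : Set (Fin n → ℝ), Cc (Fin n) G → interior G = ∅ →
    ∃ (k : ℕ) (H : Fin k → Set (Fin n → ℝ)) (i : Fin k → Fin n),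
      (∀ l, Cc (Fin n) (H l)) ∧ (∀ l, DropInj (H l) (i l)) ∧ G = ⋃ l, H l

/-- the points over which the fibre is infinite -/
def bigFib {n : ℕ} (B : Set (Fin (n + 1) → ℝ)) : Set (Fin n → ℝ) :=
  {x | {s : ℝ | (Fin.cons s x : Fin (n + 1) → ℝ) ∈ B}.Infinite}

end OMin
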