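import Pool.Agent.OMin.Defs

/-! # Exponential polynomials: closure properties (module EA) -/

namespace OMin
open Set Filter Topology
open scoped ContDiff

section EA

theorem EJ_coord {τ : Type} {J : Set τ} (i : τ) : (fun x : τ → ℝ => x i) ∈ EJ τ J :=
  Algebra.subset_adjoin (Or.inl ⟨i, rfl⟩)

theorem EJ_exp {τ : Type} {J : Set τ} {j : τ} (hj : j ∈ J) :
    (fun x : τ → ℝ => Real.exp (x j)) ∈ EJ τ J :=
  Algebra.subset_adjoin (Or.inr ⟨j, hj, rfl⟩)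

theorem EJ_const {τ : Type} {J : Set τ} (c : ℝ) : (fun _ : τ → ℝ => c) ∈ EJ τ J :=
  (EJ τ J).algebraMap_mem c

theorem EJ_mono {τ : Type} {J J' : Set τ} (h : J ⊆ J') : EJ τ J ≤ EJ τ J' :=
  Algebra.adjoin_mono (Set.union_subset_union_right _ (Set.image_mono h))

/-- induction -/
theorem EJ_induction {τ : Type} {J : Set τ} {P : ((τ → ℝ) → ℝ) → Prop}
    (hcoord : ∀ i, P (fun x => x i)) (hexp : ∀ j ∈ J, P (fun x => Real.exp (x j)))
    (hconst : ∀ c : ℝ, P (fun _ => c))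
    (hadd : ∀ f g, f ∈ EJ τ J → g ∈ EJ τ J → P f → P g → P (fun x => f x + g x))
    (hmul : ∀ f g, f ∈ EJ τ J → g ∈ EJ τ J → P f → P g → P (fun x => f x * g x))
    {f : (τ → ℝ) → ℝ} (hf : f ∈ EJ τ J) : P f := by
  refine Algebra.adjoin_induction (p := fun f _ => P f) ?_ ?_ ?_ ?_ hf
  · rintro g (⟨i, rfl⟩ | ⟨j, hj, rfl⟩)
    · exact hcoord i
    · exact hexp j hj
  · intro c
    exact hconst c
  · intro f g hf hg h1 h2
    exact hadd f g hf hg h1 h2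
  · intro f g hf hg h1 h2
    exact hmul f g hf hg h1 h2

theorem EJ_add {τ : Type} {J : Set τ} {f g : (τ → ℝ) → ℝ} (hf : f ∈ EJ τ J) (hg : g ∈ EJ τ J) :
    (fun x => f x + g x) ∈ EJ τ J := (EJ τ J).add_mem hf hg

theorem EJ_sub {τ : Type} {J : Set τ} {f g : (τ → ℝ) → ℝ} (hf : f ∈ EJ τ J) (hg : g ∈ EJ τ J) :
    (fun x => f x - g x) ∈ EJ τ J := (EJ τ J).sub_mem hf hg

theorem EJ_neg {τ : Type} {J : Set τ} {f : (τ → ℝ) → ℝ} (hf : f ∈ EJ τ J) :
    (fun x => - f x) ∈ EJ τ J := (EJ τ J).neg_mem hf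

theorem EJ_mul {τ : Type} {J : Set τ} {f g : (τ → ℝ) → ℝ} (hf : f ∈ EJ τ J) (hg : g ∈ EJ τ J) :
    (fun x => f x * g x) ∈ EJ τ J := (EJ τ J).mul_mem hf hg

theorem EJ_pow {τ : Type} {J : Set τ} {f : (τ → ℝ) → ℝ} (hf : f ∈ EJ τ J) (n : ℕ) :
    (fun x => f x ^ n) ∈ EJ τ J := (EJ τ J).pow_mem hf n

theorem EJ_comp {τ τ' : Type} {J : Set τ} {J' : Set τ'} (σ : τ → τ') (h : ∀ j ∈ J, σ j ∈ J')
    {f : (τ → ℝ) → ℝ} (hf : f ∈ EJ τ J) : (fun x : τ' → ℝ => f (fun i => x (σ i))) ∈ EJ τ' J' := by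
  refine EJ_induction (P := fun f => (fun x : τ' → ℝ => f (fun i => x (σ i))) ∈ EJ τ' J')
    ?_ ?_ ?_ ?_ ?_ hf
  · intro i
    exact EJ_coord (σ i)
  · intro j hj
    exact EJ_exp (h j hj)
  · intro c
    exact EJ_const c
  · intro f g _ _ hf hg
    exact EJ_add hf hg
  · intro f g _ _ hf hg
    exact EJ_mul hf hg

theorem EJ_sum {τ α : Type} {J : Set τ} (s : Finset α) {f : α → (τ → ℝ) → ℝ}
    (hf : ∀ a ∈ s, f a ∈ EJ τ J) : (fun x => ∑ a ∈ s, f a x) ∈ EJ τ J := by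
  have h := (EJ τ J).sum_mem hf
  have h2 : (∑ a ∈ s, f a) = fun x => ∑ a ∈ s, f a x := by
    funext x
    exact Finset.sum_apply x s f
  rwa [h2] at h

theorem EJ_prod {τ α : Type} {J : Set τ} (s : Finset α) {f : α → (τ → ℝ) → ℝ}
    (hf : ∀ a ∈ s, f a ∈ EJ τ J) : (fun x => ∏ a ∈ s, f a x) ∈ EJ τ J := by
  have h := (EJ τ J).prod_mem hf
  have h2 : (∏ a ∈ s, f a) = fun x => ∏ a ∈ s, f a x := by
    funext x
    exact Finset.prod_apply x s f
  rwa [h2] at h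

theorem EJ_contDiff {τ : Type} [Fintype τ] {J : Set τ} {f : (τ → ℝ) → ℝ} (hf : f ∈ EJ τ J) :
    ContDiff ℝ ∞ f := by
  refine EJ_induction (P := fun f => ContDiff ℝ ∞ f) ?_ ?_ ?_ ?_ ?_ hf
  · intro i
    exact contDiff_apply ℝ ℝ i
  · intro j _
    exact (contDiff_apply ℝ ℝ j).exp
  · intro c
    exact contDiff_const
  · intro f g _ _ hf hg
    exact hf.add hg
  · intro f g _ _ hf hg
    exact hf.mul hg

theorem EJ_pderiv {τ : Type} [Fintype τ] [DecidableEq τ] {J : Set τ} {f : (τ → ℝ) → ℝ}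
    (hf : f ∈ EJ τ J) (i : τ) : (fun x => fderiv ℝ f x (Pi.single i 1)) ∈ EJ τ J := by
  refine EJ_induction (P := fun f => (fun x => fderiv ℝ f x (Pi.single i 1)) ∈ EJ τ J)
    ?_ ?_ ?_ ?_ ?_ hf
  · intro j
    have h : (fun x : τ → ℝ => fderiv ℝ (fun x : τ → ℝ => x j) x (Pi.single i 1)) =
        fun _ => (Pi.single i 1 : τ → ℝ) j := by
      funext x
      rw [(hasFDerivAt_apply (𝕜 := ℝ) j x).fderiv]
      rfl
    rw [h]
    exact EJ_const _
  · intro j hj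
    have h : (fun x : τ → ℝ => fderiv ℝ (fun x : τ → ℝ => Real.exp (x j)) x (Pi.single i 1)) =
        fun x => Real.exp (x j) * (Pi.single i 1 : τ → ℝ) j := by
      funext x
      rw [(hasFDerivAt_apply (𝕜 := ℝ) j x).exp.fderiv]
      rfl
    rw [h]
    exact EJ_mul (EJ_exp hj) (EJ_const _)
  · intro c
    have h : (fun x : τ → ℝ => fderiv ℝ (fun _ : τ → ℝ => c) x (Pi.single i 1)) = fun _ => 0 := by
      funext x
      simp
    rw [h]
    exact EJ_const _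
  · intro f g hfE hgE hf hg
    have h : (fun x : τ → ℝ => fderiv ℝ (fun x => f x + g x) x (Pi.single i 1)) =
        fun x => fderiv ℝ f x (Pi.single i 1) + fderiv ℝ g x (Pi.single i 1) := by
      funext x
      have h1 := ((EJ_contDiff hfE).differentiable (by simp)) x
      have h2 := ((EJ_contDiff hgE).differentiable (by simp)) x
      have h3 : fderiv ℝ (fun x => f x + g x) x = fderiv ℝ f x + fderiv ℝ g x :=
        (h1.hasFDerivAt.add h2.hasFDerivAt).fderiv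
      rw [h3]
      rfl
    rw [h]
    exact EJ_add hf hg
  · intro f g hfE hgE hf hg
    have h : (fun x : τ → ℝ => fderiv ℝ (fun x => f x * g x) x (Pi.single i 1)) =
        fun x => f x * fderiv ℝ g x (Pi.single i 1) + g x * fderiv ℝ f x (Pi.single i 1) := by
      funext x
      have h1 := ((EJ_contDiff hfE).differentiable (by simp)) x
      have h2 := ((EJ_contDiff hgE).differentiable (by simp)) x
      have h3 : fderiv ℝ (fun x => f x * g x) x = f x • fderiv ℝ g x + g x • fderiv ℝ f x :=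
        (h1.hasFDerivAt.mul h2.hasFDerivAt).fderiv
      rw [h3]
      rfl
    rw [h]
    exact EJ_add (EJ_mul hfE hg) (EJ_mul hgE hf)

theorem EJ_det {τ n : Type} [Fintype n] [DecidableEq n] {J : Set τ} (M : n → n → (τ → ℝ) → ℝ)
    (hM : ∀ i j, M i j ∈ EJ τ J) : (fun x => (Matrix.of (fun i j => M i j x)).det) ∈ EJ τ J := by
  have h : (fun x : τ → ℝ => (Matrix.of (fun i j => M i j x)).det) =
      fun x => ∑ σ : Equiv.Perm n, ((Equiv.Perm.sign σ : ℤ) : ℝ) * ∏ i, M (σ i) i x := by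
    funext x
    rw [Matrix.det_apply']
    rfl
  rw [h]
  exact EJ_sum _ fun σ _ => EJ_mul (EJ_const _) (EJ_prod _ fun i _ => hM _ _)

/-- replace `exp (x j)` by a new variable -/
theorem EJ_subst {ι κ : Type} (J : Set ι) (j : ι) {f : (ι ⊕ κ → ℝ) → ℝ}
    (hf : f ∈ EJ (ι ⊕ κ) (Sum.inl '' (insert j J))) :
    ∃ g ∈ EJ (Option ι ⊕ κ) (Sum.inl '' (some '' J)), ∀ (x : ι → ℝ) (a : κ → ℝ),
      f (Sum.elim x a) = g (Sum.elim (fun o : Option ι => o.elim (Real.exp (x j)) x) a) := by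
  refine EJ_induction (P := fun f => ∃ g ∈ EJ (Option ι ⊕ κ) (Sum.inl '' (some '' J)),
    ∀ (x : ι → ℝ) (a : κ → ℝ),
      f (Sum.elim x a) = g (Sum.elim (fun o : Option ι => o.elim (Real.exp (x j)) x) a))
    ?_ ?_ ?_ ?_ ?_ hf
  · rintro (i | k)
    · exact ⟨_, EJ_coord (Sum.inl (some i)), fun x a => rfl⟩
    · exact ⟨_, EJ_coord (Sum.inr k), fun x a => rfl⟩
  · rintro _ ⟨i, hi, rfl⟩
    rcases hi with rfl | hi
    · exact ⟨_, EJ_coord (Sum.inl none), fun x a => rfl⟩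
    · exact ⟨_, EJ_exp (j := Sum.inl (some i)) ⟨some i, ⟨i, hi, rfl⟩, rfl⟩, fun x a => rfl⟩
  · intro c
    exact ⟨_, EJ_const c, fun x a => rfl⟩
  · rintro f g _ _ ⟨f', hf', hf''⟩ ⟨g', hg', hg''⟩
    refine ⟨_, EJ_add hf' hg', fun x a => ?_⟩
    show f _ + g _ = f' _ + g' _
    rw [hf'', hg'']
  · rintro f g _ _ ⟨f', hf', hf''⟩ ⟨g', hg', hg''⟩
    refine ⟨_, EJ_mul hf' hg', fun x a => ?_⟩
    show f _ * g _ = f' _ * g' _
    rw [hf'', hg'']

/-- replace the exponentials of the parameters by new parameters -/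
theorem E_split {ι κ : Type} {f : (ι ⊕ κ → ℝ) → ℝ} (hf : f ∈ E (ι ⊕ κ)) :
    ∃ g ∈ EJ (ι ⊕ (κ ⊕ κ)) (Sum.inl '' Set.univ), ∀ (x : ι → ℝ) (a : κ → ℝ),
      f (Sum.elim x a) = g (Sum.elim x (Sum.elim a (fun k => Real.exp (a k)))) := by
  refine EJ_induction (P := fun f => ∃ g ∈ EJ (ι ⊕ (κ ⊕ κ)) (Sum.inl '' Set.univ),
    ∀ (x : ι → ℝ) (a : κ → ℝ),
      f (Sum.elim x a) = g (Sum.elim x (Sum.elim a (fun k => Real.exp (a k)))))
    ?_ ?_ ?_ ?_ ?_ hf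
  · rintro (i | k)
    · exact ⟨_, EJ_coord (Sum.inl i), fun x a => rfl⟩
    · exact ⟨_, EJ_coord (Sum.inr (Sum.inl k)), fun x a => rfl⟩
  · rintro (i | k) _
    · exact ⟨_, EJ_exp (j := Sum.inl i) ⟨i, trivial, rfl⟩, fun x a => rfl⟩
    · exact ⟨_, EJ_coord (Sum.inr (Sum.inr k)), fun x a => rfl⟩
  · intro c
    exact ⟨_, EJ_const c, fun x a => rfl⟩
  · rintro f g _ _ ⟨f', hf', hf''⟩ ⟨g', hg', hg''⟩
    refine ⟨_, EJ_add hf' hg', fun x a => ?_⟩
    show f _ + g _ = f' _ + g' _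
    rw [hf'', hg'']
  · rintro f g _ _ ⟨f', hf', hf''⟩ ⟨g', hg', hg''⟩
    refine ⟨_, EJ_mul hf' hg', fun x a => ?_⟩
    show f _ * g _ = f' _ * g' _
    rw [hf'', hg'']

/-- the derivative of `x ↦ (x, a)` -/
theorem hasFDerivAt_elim {ι κ : Type} [Fintype ι] [Fintype κ] (x : ι → ℝ) (a : κ → ℝ) :
    HasFDerivAt (fun x' : ι → ℝ => (Sum.elim x' a : ι ⊕ κ → ℝ))
      (ContinuousLinearMap.pi (Sum.elim (fun i => ContinuousLinearMap.proj i) (fun _ => 0)) :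
        (ι → ℝ) →L[ℝ] (ι ⊕ κ → ℝ)) x := by
  rw [hasFDerivAt_pi]
  rintro (i | k)
  · exact hasFDerivAt_apply (𝕜 := ℝ) i x
  · exact hasFDerivAt_const (a k) x

/-- partial derivatives in the presence of parameters -/
theorem fderiv_elim {ι κ : Type} [Fintype ι] [Fintype κ] [DecidableEq ι] [DecidableEq κ]
    {f : (ι ⊕ κ → ℝ) → ℝ} (hf : ContDiff ℝ ∞ f) (x : ι → ℝ) (a : κ → ℝ) (i : ι) :
    fderiv ℝ (fun x' : ι → ℝ => f (Sum.elim x' a)) x (Pi.single i 1) =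
      fderiv ℝ f (Sum.elim x a) (Pi.single (Sum.inl i) 1) := by
  have h1 : HasFDerivAt f (fderiv ℝ f (Sum.elim x a)) (Sum.elim x a) :=
    ((hf.differentiable (by simp)) _).hasFDerivAt
  have h2 := h1.comp x (hasFDerivAt_elim x a)
  have h3 : fderiv ℝ (fun x' : ι → ℝ => f (Sum.elim x' a)) x = _ := h2.fderiv
  rw [h3]
  show fderiv ℝ f (Sum.elim x a) _ = _
  congr 1
  funext s
  rcases s with s | s
  · by_cases h : s = i
    · subst h; simp
    · simp [h]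
  · simp

end EA

end OMin
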