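import Pool.Agent.OMin.EBasic
import Pool.Agent.OMin.Nested
import Pool.Agent.OMin.KLim

/-! # The class `Kc`: intersection with a zero set -/

namespace OMin
open Set Filter Topology
open scoped ContDiff

/-- new outermost parameter `e`; approximations `A_t ∩ {f ^ 2 ≤ e}` -/
theorem Kc_interZero {ι : Type} [Finite ι] {A : Set (ι → ℝ)} (hA : Kc ι A) {f : (ι → ℝ) → ℝ}
    (hf : f ∈ E ι) : Kc ι (A ∩ {x | f x = 0}) := by
  have := Fintype.ofFinite ι
  have hfc : Continuous f := (EJ_contDiff hf).continuous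
  obtain ⟨μ, hμ, p, g, hg, hg0, ha, hb⟩ := hA
  have key : ∀ (s : Fin p → ℝ) (e : ℝ) (x : ι → ℝ),
      x ∈ ProjZero (μ := Option μ) (fun z : (ι ⊕ (Option μ ⊕ Fin (p + 1)) → ℝ) =>
        g (fun k => z (Sum.map id (Sum.map some (Fin.castAdd 1)) k)) +
        (f (fun i => z (Sum.inl i)) ^ 2 + z (Sum.inr (Sum.inl none)) ^ 2 -
          z (Sum.inr (Sum.inr (Fin.natAdd p 0)))) ^ 2) (Fin.append s (fun _ : Fin 1 => e)) ↔
      x ∈ ProjZero g s ∧ f x ^ 2 ≤ e := by
    intro s e x
    have e1 : ∀ v : Option μ → ℝ,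
        (fun k => (Sum.elim x (Sum.elim v (Fin.append s (fun _ : Fin 1 => e))) :
          ι ⊕ (Option μ ⊕ Fin (p + 1)) → ℝ)
          (Sum.map id (Sum.map some (Fin.castAdd 1)) k)) =
        (Sum.elim x (Sum.elim (fun j => v (some j)) s) :
          ι ⊕ (μ ⊕ Fin p) → ℝ) := by
      intro v; funext k; rcases k with k | k | k <;> simp
    have e2 : ∀ v : Option μ → ℝ, (Sum.elim x (Sum.elim v (Fin.append s (fun _ : Fin 1 => e))) :
          ι ⊕ (Option μ ⊕ Fin (p + 1)) → ℝ) (Sum.inr (Sum.inr (Fin.natAdd p 0))) = e := by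
      intro v; simp
    constructor
    · rintro ⟨v, hv⟩
      simp only [e1, e2, Sum.elim_inl, Sum.elim_inr] at hv
      have h1 := hg0 (Sum.elim x (Sum.elim (fun j => v (some j)) s))
      have h2 : 0 ≤ (f x ^ 2 + v none ^ 2 - e) ^ 2 := sq_nonneg _
      have h3 : (f x ^ 2 + v none ^ 2 - e) ^ 2 = 0 := by linarith
      have h4 : f x ^ 2 + v none ^ 2 - e = 0 := by simpa using h3
      refine ⟨⟨_, by linarith⟩, ?_⟩
      nlinarith [sq_nonneg (v none)]
    · rintro ⟨⟨y, hy⟩, hle⟩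
      refine ⟨fun o => o.elim (Real.sqrt (e - f x ^ 2)) y, ?_⟩
      simp only [e1, e2, Sum.elim_inl, Sum.elim_inr, Option.elim]
      rw [hy, Real.sq_sqrt (by linarith)]
      ring
  refine ⟨Option μ, inferInstance, p + 1, fun z =>
        g (fun k => z (Sum.map id (Sum.map some (Fin.castAdd 1)) k)) +
        (f (fun i => z (Sum.inl i)) ^ 2 + z (Sum.inr (Sum.inl none)) ^ 2 -
          z (Sum.inr (Sum.inr (Fin.natAdd p 0)))) ^ 2,
    EJ_add (EJ_comp _ (fun j _ => mem_univ _) hg)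
      (EJ_pow (EJ_sub (EJ_add (EJ_pow (EJ_comp _ (fun j _ => mem_univ _) hf) 2)
        (EJ_pow (EJ_coord _) 2)) (EJ_coord _)) 2),
    fun z => add_nonneg (hg0 _) (sq_nonneg _), ?_, ?_⟩
  · rintro x ⟨hx, hx0⟩ U hU
    have hx0 : f x = 0 := hx0
    rw [eventually_nested_append, eventually_nested_one]
    filter_upwards [self_mem_nhdsWithin] with e he
    have he : 0 < e := he
    have hV : {x' | f x' ^ 2 < e} ∈ 𝓝 x := by
      apply (isOpen_lt (hfc.pow 2) continuous_const).mem_nhds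
      show f x ^ 2 < e
      rw [hx0]; simpa using he
    filter_upwards [ha _ hx _ (inter_mem hU hV)] with s hs
    obtain ⟨x', hx', hxU, hxV⟩ := hs
    have hxV : f x' ^ 2 < e := hxV
    exact ⟨x', (key s e x').mpr ⟨hx', hxV.le⟩, hxU⟩
  · intro x hx
    by_cases h1 : x ∈ A
    · have h2 : f x ≠ 0 := fun h2 => hx ⟨h1, h2⟩
      have h3 : 0 < f x ^ 2 / 2 := by positivity
      refine ⟨{x' | f x ^ 2 / 2 < f x' ^ 2}, ?_, ?_⟩
      · apply (isOpen_lt continuous_const (hfc.pow 2)).mem_nhds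
        show f x ^ 2 / 2 < f x ^ 2
        linarith
      · rw [eventually_nested_append, eventually_nested_one]
        filter_upwards [Ioo_mem_nhdsGT h3] with e he
        refine Eventually.of_forall fun s => ?_
        rw [Set.eq_empty_iff_forall_notMem]
        rintro w ⟨hw, hwU⟩
        have hwU : f x ^ 2 / 2 < f w ^ 2 := hwU
        have := ((key s e w).mp hw).2
        linarith [he.2]
    · obtain ⟨U, hU, h⟩ := hb _ h1
      refine ⟨U, hU, ?_⟩
      rw [eventually_nested_append]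
      refine Eventually.of_forall fun t => ?_
      filter_upwards [h] with s hs
      rw [Set.eq_empty_iff_forall_notMem] at hs ⊢
      rintro w ⟨hw, hwU⟩
      have ht : t = fun _ => t 0 := by funext i; rw [Subsingleton.elim i 0]
      rw [ht] at hw
      exact hs _ ⟨((key s (t 0) w).mp hw).1, hwU⟩

end OMin
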