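import Pool.Agent.OMin.EBasic
import Pool.Agent.OMin.Nested
import Pool.Agent.OMin.KLim

/-! # The class `Kc`: closures of projections -/

namespace OMin
open Set Filter Topology
open scoped ContDiff

/-- new outermost parameter `r`; approximations: projections of `A_t ∩ {r ^ 2 |(x, y)| ^ 2 ≤ 1}` -/
theorem Kc_closure_proj {ι κ : Type} [Finite ι] [Finite κ] {A : Set (ι ⊕ κ → ℝ)}
    (hA : Kc (ι ⊕ κ) A) : Kc ι (closure {x | ∃ y : κ → ℝ, Sum.elim x y ∈ A}) := by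
  have := Fintype.ofFinite ι
  have := Fintype.ofFinite κ
  obtain ⟨μ, hμ, p, g, hg, hg0, hAll⟩ := hA
  obtain ⟨ha, hb⟩ := hAll
  have key : ∀ (s : Fin p → ℝ) (r : ℝ) (x : ι → ℝ),
      x ∈ ProjZero (μ := κ ⊕ Option μ) (fun z : (ι ⊕ ((κ ⊕ Option μ) ⊕ Fin (p + 1)) → ℝ) =>
        g (fun k => z (Sum.elim (Sum.elim Sum.inl (fun k => Sum.inr (Sum.inl (Sum.inl k))))
          (fun m => Sum.inr (Sum.map (fun j => Sum.inr (some j)) (Fin.castAdd 1) m)) k)) +
        (z (Sum.inr (Sum.inr (Fin.natAdd p 0))) ^ 2 *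
          (∑ i, z (Sum.inl i) ^ 2 + ∑ k, z (Sum.inr (Sum.inl (Sum.inl k))) ^ 2) +
          z (Sum.inr (Sum.inl (Sum.inr none))) ^ 2 - 1) ^ 2)
        (Fin.append s (fun _ : Fin 1 => r)) ↔
      ∃ y : κ → ℝ, (Sum.elim x y ∈ ProjZero g s) ∧ r ^ 2 * (∑ i, x i ^ 2 + ∑ k, y k ^ 2) ≤ 1 := by
    intro s r x
    have e1 : ∀ v : κ ⊕ Option μ → ℝ,
        (fun k => (Sum.elim x (Sum.elim v (Fin.append s (fun _ : Fin 1 => r))) :
          ι ⊕ ((κ ⊕ Option μ) ⊕ Fin (p + 1)) → ℝ)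
          (Sum.elim (Sum.elim Sum.inl (fun k => Sum.inr (Sum.inl (Sum.inl k))))
          (fun m => Sum.inr (Sum.map (fun j => Sum.inr (some j)) (Fin.castAdd 1) m)) k)) =
        (Sum.elim (Sum.elim x (fun k => v (Sum.inl k)))
          (Sum.elim (fun j => v (Sum.inr (some j))) s) : (ι ⊕ κ) ⊕ (μ ⊕ Fin p) → ℝ) := by
      intro v; funext k; rcases k with (k | k) | k | k <;> simp
    have e2 : ∀ v : κ ⊕ Option μ → ℝ,
        (Sum.elim x (Sum.elim v (Fin.append s (fun _ : Fin 1 => r))) :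
          ι ⊕ ((κ ⊕ Option μ) ⊕ Fin (p + 1)) → ℝ) (Sum.inr (Sum.inr (Fin.natAdd p 0))) = r := by
      intro v; simp
    constructor
    · rintro ⟨v, hv⟩
      simp only [e1, e2, Sum.elim_inl, Sum.elim_inr] at hv
      have h1 := hg0 (Sum.elim (Sum.elim x (fun k => v (Sum.inl k)))
          (Sum.elim (fun j => v (Sum.inr (some j))) s))
      have h2 : 0 ≤ (r ^ 2 * (∑ i, x i ^ 2 + ∑ k, v (Sum.inl k) ^ 2) +
          v (Sum.inr none) ^ 2 - 1) ^ 2 := sq_nonneg _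
      have h3 : (r ^ 2 * (∑ i, x i ^ 2 + ∑ k, v (Sum.inl k) ^ 2) +
          v (Sum.inr none) ^ 2 - 1) ^ 2 = 0 := by linarith
      have h4 : r ^ 2 * (∑ i, x i ^ 2 + ∑ k, v (Sum.inl k) ^ 2) +
          v (Sum.inr none) ^ 2 - 1 = 0 := by simpa using h3
      refine ⟨fun k => v (Sum.inl k), ⟨_, by linarith⟩, ?_⟩
      nlinarith [sq_nonneg (v (Sum.inr none))]
    · rintro ⟨y, ⟨w, hw⟩, hle⟩
      refine ⟨Sum.elim y (fun o => o.elim
        (Real.sqrt (1 - r ^ 2 * (∑ i, x i ^ 2 + ∑ k, y k ^ 2))) w), ?_⟩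
      simp only [e1, e2, Sum.elim_inl, Sum.elim_inr, Option.elim]
      rw [hw, Real.sq_sqrt (by linarith)]
      ring
  refine ⟨κ ⊕ Option μ, inferInstance, p + 1, _,
    EJ_add (EJ_comp (Sum.elim (Sum.elim Sum.inl (fun k => Sum.inr (Sum.inl (Sum.inl k))))
          (fun m => Sum.inr (Sum.map (fun j => Sum.inr (some j)) (Fin.castAdd 1) m)))
          (fun j _ => mem_univ _) hg)
      (EJ_pow (EJ_sub (EJ_add (EJ_mul (EJ_pow (EJ_coord (Sum.inr (Sum.inr (Fin.natAdd p 0)))) 2)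
        (EJ_add (EJ_sum Finset.univ (fun i _ => EJ_pow (EJ_coord (Sum.inl i)) 2))
          (EJ_sum Finset.univ (fun k _ => EJ_pow (EJ_coord (Sum.inr (Sum.inl (Sum.inl k)))) 2))))
        (EJ_pow (EJ_coord (Sum.inr (Sum.inl (Sum.inr none)))) 2)) (EJ_const 1)) 2),
    fun z => add_nonneg (hg0 _) (sq_nonneg _), ?_, ?_⟩
  · intro x hx U hU
    obtain ⟨x', hx'U, y, hy⟩ := mem_closure_iff.mp hx _ isOpen_interior
      (mem_interior_iff_mem_nhds.mpr hU)
    rw [eventually_nested_append, eventually_nested_one]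
    have hc : Continuous (fun r : ℝ => r ^ 2 * (∑ i, x' i ^ 2 + ∑ k, y k ^ 2)) := by fun_prop
    have h0 : ∀ᶠ r in 𝓝 (0 : ℝ), r ^ 2 * (∑ i, x' i ^ 2 + ∑ k, y k ^ 2) < 1 := by
      apply hc.continuousAt.eventually_lt continuousAt_const
      simp
    filter_upwards [nhdsWithin_le_nhds h0] with r hr
    have hW1 : (fun (z : ι ⊕ κ → ℝ) (i : ι) => z (Sum.inl i)) ⁻¹' (interior U) ∈
        𝓝 (Sum.elim x' y : ι ⊕ κ → ℝ) := by
      have hcl : Continuous (fun (z : ι ⊕ κ → ℝ) (i : ι) => z (Sum.inl i)) :=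
        continuous_pi fun i => continuous_apply _
      exact (isOpen_interior.preimage hcl).mem_nhds hx'U
    have hW2 : {z : ι ⊕ κ → ℝ | r ^ 2 * (∑ i, z (Sum.inl i) ^ 2 + ∑ k, z (Sum.inr k) ^ 2) < 1} ∈
        𝓝 (Sum.elim x' y : ι ⊕ κ → ℝ) := by
      have hc2 : Continuous (fun z : ι ⊕ κ → ℝ =>
        r ^ 2 * (∑ i, z (Sum.inl i) ^ 2 + ∑ k, z (Sum.inr k) ^ 2)) := by fun_prop
      exact (isOpen_lt hc2 continuous_const).mem_nhds hr
    filter_upwards [ha _ hy _ (inter_mem hW1 hW2)] with s hs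
    obtain ⟨z, hz, hz1, hz2⟩ := hs
    have hz2 : r ^ 2 * (∑ i, z (Sum.inl i) ^ 2 + ∑ k, z (Sum.inr k) ^ 2) < 1 := hz2
    refine ⟨fun i => z (Sum.inl i), (key s r _).mpr ⟨fun k => z (Sum.inr k), ?_, hz2.le⟩,
      interior_subset hz1⟩
    have : (Sum.elim (fun i => z (Sum.inl i)) (fun k => z (Sum.inr k)) : ι ⊕ κ → ℝ) = z := by
      funext k; rcases k with k | k <;> rfl
    rw [this]; exact hz
  · intro x hx
    have hO : (closure {x | ∃ y : κ → ℝ, Sum.elim x y ∈ A})ᶜ ∈ 𝓝 x :=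
      isClosed_closure.isOpen_compl.mem_nhds hx
    obtain ⟨K, hK, hKsub, hKc⟩ := local_compact_nhds hO
    refine ⟨K, hK, ?_⟩
    rw [eventually_nested_append, eventually_nested_one]
    filter_upwards [self_mem_nhdsWithin] with r hr
    have hr : 0 < r := hr
    have hcl : Continuous (fun (z : ι ⊕ κ → ℝ) (i : ι) => z (Sum.inl i)) :=
        continuous_pi fun i => continuous_apply _
    have hc2 : Continuous (fun z : ι ⊕ κ → ℝ =>
        r ^ 2 * (∑ i, z (Sum.inl i) ^ 2 + ∑ k, z (Sum.inr k) ^ 2)) := by fun_prop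
    have hC : IsCompact ({z : ι ⊕ κ → ℝ | (fun i => z (Sum.inl i)) ∈ K} ∩
        {z | r ^ 2 * (∑ i, z (Sum.inl i) ^ 2 + ∑ k, z (Sum.inr k) ^ 2) ≤ 1}) := by
      apply IsCompact.of_isClosed_subset (isCompact_closedBall (0 : ι ⊕ κ → ℝ) (1 / r))
      · exact (hKc.isClosed.preimage hcl).inter (isClosed_le hc2 continuous_const)
      · rintro z ⟨_, hz⟩
        have hz : r ^ 2 * (∑ i, z (Sum.inl i) ^ 2 + ∑ k, z (Sum.inr k) ^ 2) ≤ 1 := hz
        rw [mem_closedBall_zero_iff, pi_norm_le_iff_of_nonneg (by positivity)]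
        have h1 : 0 ≤ ∑ i, z (Sum.inl i) ^ 2 := Finset.sum_nonneg fun i _ => sq_nonneg _
        have h2 : 0 ≤ ∑ k, z (Sum.inr k) ^ 2 := Finset.sum_nonneg fun i _ => sq_nonneg _
        have h3 : ∀ k, z k ^ 2 ≤ ∑ i, z (Sum.inl i) ^ 2 + ∑ k, z (Sum.inr k) ^ 2 := by
          rintro (k | k)
          · have := Finset.single_le_sum (f := fun i => z (Sum.inl i) ^ 2)
              (fun i _ => sq_nonneg _) (Finset.mem_univ k)
            linarith
          · have := Finset.single_le_sum (f := fun i => z (Sum.inr i) ^ 2)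
              (fun i _ => sq_nonneg _) (Finset.mem_univ k)
            linarith
        intro k
        rw [Real.norm_eq_abs, le_div_iff₀ hr]
        have h4 : (|z k| * r) ^ 2 ≤ 1 ^ 2 := by
          rw [mul_pow, sq_abs, one_pow]
          nlinarith [h3 k, sq_nonneg r]
        exact (abs_le_of_sq_le_sq' h4 one_pos.le).2
    have hd : Disjoint ({z : ι ⊕ κ → ℝ | (fun i => z (Sum.inl i)) ∈ K} ∩
        {z | r ^ 2 * (∑ i, z (Sum.inl i) ^ 2 + ∑ k, z (Sum.inr k) ^ 2) ≤ 1}) A := by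
      rw [Set.disjoint_left]
      rintro z ⟨hzK, _⟩ hzA
      apply hKsub hzK
      apply subset_closure
      refine ⟨fun k => z (Sum.inr k), ?_⟩
      have : (Sum.elim (fun i => z (Sum.inl i)) (fun k => z (Sum.inr k)) : ι ⊕ κ → ℝ) = z := by
        funext k; rcases k with k | k <;> rfl
      rw [this]; exact hzA
    filter_upwards [KLim.compact ⟨ha, hb⟩ hC hd] with s hs
    rw [Set.eq_empty_iff_forall_notMem] at hs ⊢
    rintro w ⟨hw, hwU⟩
    obtain ⟨y, hy, hle⟩ := (key s r w).mp hw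
    exact hs _ ⟨hy, hwU, hle⟩

end OMin
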