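import Pool.Agent.OMin.KcA
import Pool.Agent.OMin.KcB
import Pool.Agent.OMin.KcC

/-! # The class `Kc`: consequences (zero sets, inverse images, intersections) -/

namespace OMin
open Set Filter Topology
open scoped ContDiff

theorem Kc_zero {ι : Type} [Finite ι] {f : (ι → ℝ) → ℝ} (hf : f ∈ E ι) :
    Kc ι {x | f x = 0} := by
  have h := Kc_interZero (Kc_univ ι) hf
  rwa [Set.univ_inter] at h

theorem Kc_empty (ι : Type) [Finite ι] : Kc ι (∅ : Set (ι → ℝ)) := by
  have h := Kc_zero (ι := ι) (f := fun _ => 1) (EJ_const 1)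
  have h2 : {x : ι → ℝ | (fun _ : ι → ℝ => (1 : ℝ)) x = 0} = ∅ := by
    ext x; simp
  rwa [h2] at h

theorem Kc_pull {ι ι' : Type} [Finite ι] [Finite ι'] (σ : ι → ι') {A : Set (ι → ℝ)}
    (hA : Kc ι A) : Kc ι' {x | (fun i => x (σ i)) ∈ A} := by
  have := Fintype.ofFinite ι
  have hf : (fun z : ι' ⊕ ι → ℝ => ∑ i : ι, (z (Sum.inr i) - z (Sum.inl (σ i))) ^ 2) ∈
      E (ι' ⊕ ι) :=
    EJ_sum Finset.univ (fun i _ => EJ_pow (EJ_sub (EJ_coord _) (EJ_coord _)) 2)
  have h := Kc_closure_proj (Kc_interZero (Kc_prod (Kc_univ ι') hA) hf)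
  have hcl : IsClosed {x : ι' → ℝ | (fun i => x (σ i)) ∈ A} := by
    have hc : Continuous (fun (x : ι' → ℝ) (i : ι) => x (σ i)) :=
      continuous_pi fun i => continuous_apply _
    exact (Kc_isClosed hA).preimage hc
  have he : {x : ι' → ℝ | ∃ y : ι → ℝ, Sum.elim x y ∈
      {z : ι' ⊕ ι → ℝ | (fun i => z (Sum.inl i)) ∈ (Set.univ : Set (ι' → ℝ)) ∧
        (fun i => z (Sum.inr i)) ∈ A} ∩
      {z | (fun z : ι' ⊕ ι → ℝ => ∑ i : ι, (z (Sum.inr i) - z (Sum.inl (σ i))) ^ 2) z = 0}} =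
      {x : ι' → ℝ | (fun i => x (σ i)) ∈ A} := by
    ext x
    constructor
    · rintro ⟨y, ⟨_, hy⟩, h0⟩
      have h0 : ∑ i : ι, (y i - x (σ i)) ^ 2 = 0 := h0
      have h1 := (Finset.sum_eq_zero_iff_of_nonneg (fun i _ => sq_nonneg _)).mp h0
      have h2 : y = fun i => x (σ i) := by
        funext i
        have := h1 i (Finset.mem_univ i)
        have h3 : y i - x (σ i) = 0 := by simpa using this
        linarith
      have hy : y ∈ A := hy
      show (fun i => x (σ i)) ∈ A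
      rw [← h2]; exact hy
    · intro hx
      refine ⟨fun i => x (σ i), ⟨mem_univ _, hx⟩, ?_⟩
      show ∑ i : ι, (x (σ i) - x (σ i)) ^ 2 = 0
      simp
  rw [he, hcl.closure_eq] at h
  exact h

theorem Kc_inter {ι : Type} [Finite ι] {A B : Set (ι → ℝ)} (hA : Kc ι A) (hB : Kc ι B) :
    Kc ι (A ∩ B) :=
  Kc_pull (Sum.elim id id) (Kc_prod hA hB)

/-- the approximating family can be taken with variables indexed by `Fin m` -/
theorem Kc_fin {ι : Type} {A : Set (ι → ℝ)} (hA : Kc ι A) :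
    ∃ (m p : ℕ) (f : (ι ⊕ (Fin m ⊕ Fin p) → ℝ) → ℝ), f ∈ E (ι ⊕ (Fin m ⊕ Fin p)) ∧
      (∀ z, 0 ≤ f z) ∧ KLim (nested p) (ProjZero f) A := by
  obtain ⟨μ, hμ, p, f, hf, h0, h⟩ := hA
  obtain ⟨m, ⟨e⟩⟩ := Finite.exists_equiv_fin μ
  refine ⟨m, p, fun z => f (fun k => z (Sum.map id (Sum.map e id) k)),
    EJ_comp _ (fun j _ => mem_univ _) hf, fun z => h0 _, ?_⟩
  have he : (ProjZero fun z : ι ⊕ (Fin m ⊕ Fin p) → ℝ =>
      f (fun k => z (Sum.map id (Sum.map e id) k))) = ProjZero f := by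
    funext t
    ext x
    constructor
    · rintro ⟨y, hy⟩
      refine ⟨fun j => y (e j), ?_⟩
      rw [← hy]
      show f _ = f _
      congr 1
      funext k
      rcases k with k | k | k <;> simp
    · rintro ⟨y, hy⟩
      refine ⟨fun j => y (e.symm j), ?_⟩
      rw [← hy]
      show f _ = f _
      congr 1
      funext k
      rcases k with k | k | k <;> simp
  rw [he]; exact h

end OMin
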