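import Pool.Agent.OMin.LemN

/-! # Limits at zero of small sets are small -/

namespace OMin
open Set Filter Topology
open LNAux

theorem lemL {n : ℕ} {D : Set (Fin (n + 1) → ℝ)} (hD : Cc (Fin (n + 1)) D)
    (h : interior D = ∅) :
    interior {u : Fin n → ℝ | (Fin.cons (0 : ℝ) u : Fin (n + 1) → ℝ) ∈
      closure (D ∩ {z | 0 < z 0})} = ∅ := by
  by_contra hne
  rw [← ne_eq, ← Set.nonempty_iff_ne_empty] at hne
  set V := interior {u : Fin n → ℝ | (Fin.cons (0 : ℝ) u : Fin (n + 1) → ℝ) ∈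
      closure (D ∩ {z | 0 < z 0})} with hV
  have hres : ∀ᶠ x in residual (Fin n → ℝ), ∀ r : ℚ, (0 : ℝ) < r →
        x ∈ V → ∃ s : ℝ, 0 < s ∧ s < r ∧ (Fin.cons s x : Fin (n + 1) → ℝ) ∈ D := by
    rw [eventually_countable_forall]
    intro r
    by_cases hr : (0 : ℝ) < r
    · have := dense_residual (fun A hA h => lemN hA h) (slab_Cc hD 0 (r : ℝ))
        (V := V) isOpen_interior (by
          intro V' hV' hVo hVn
          obtain ⟨x, hx⟩ := hVn
          have hcl : x ∈ {u : Fin n → ℝ | (Fin.cons (0 : ℝ) u : Fin (n + 1) → ℝ) ∈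
            closure (D ∩ {z | 0 < z 0})} := interior_subset (hV' hx)
          have hcl : (Fin.cons (0 : ℝ) x : Fin (n + 1) → ℝ) ∈ closure (D ∩ {z | 0 < z 0}) := hcl
          obtain ⟨w, hw, hwA⟩ := mem_closure_iff.mp hcl
            ({z : Fin (n + 1) → ℝ | z 0 ∈ Iio (r : ℝ)} ∩
              {z | (fun i : Fin n => z i.succ) ∈ V'})
            ((isOpen_Iio.preimage (continuous_apply _)).inter (hVo.preimage cont_tail))
            ⟨by simpa using hr, by simpa using hx⟩
          refine ⟨fun i => w i.succ, hw.2, w 0, hwA.2, hw.1, ?_⟩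
          have h2 : (Fin.cons (w 0) (fun i : Fin n => w i.succ) : Fin (n + 1) → ℝ) = w := by
            funext i
            refine Fin.cases ?_ (fun j => ?_) i <;> simp
          rw [h2]; exact hwA.1)
      filter_upwards [this] with x hx _ hxV
      exact hx hxV
    · exact Eventually.of_forall fun x h1 => absurd h1 hr
  obtain ⟨N, hN⟩ := UF_fiber hD
  obtain ⟨Cm, hCm, hAC⟩ := Cc_Fsigma hD
  have hfin := baire_fiber Cm hCm hAC (V := V) isOpen_interior hne (by
    filter_upwards [hres] with x hx hxV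
    obtain ⟨C, hC, hSC⟩ := hN x
    rcases fin_or_int hC hSC with hf | hf
    · exfalso
      -- a finite set does not accumulate at 0
      have ho : IsOpen ({s : ℝ | (Fin.cons s x : Fin (n + 1) → ℝ) ∈ D} \ {0})ᶜ :=
        (hf.subset Set.sdiff_subset).isClosed.isOpen_compl
      obtain ⟨l', u', ⟨hl', hu'⟩, hlu'⟩ :=
        mem_nhds_iff_exists_Ioo_subset.mp (ho.mem_nhds (show (0 : ℝ) ∈ _ by simp))
      obtain ⟨r, hr1, hr2⟩ := exists_rat_btwn hu'
      obtain ⟨s, hs1, hs2, hs3⟩ := hx r hr1 hxV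
      have := hlu' (show s ∈ Ioo l' u' from ⟨hl'.trans hs1, hs2.trans hr2⟩)
      exact this ⟨hs3, by simpa using hs1.ne'⟩
    · exact hf)
  rw [h] at hfin
  exact Set.not_nonempty_empty hfin

theorem lemLO {ι : Type} [Finite ι] {D : Set (Option ι → ℝ)} (hD : Cc (Option ι) D)
    (h : interior D = ∅) : interior (lim0 D) = ∅ := by
  obtain ⟨n, ⟨e⟩⟩ := Finite.exists_equiv_fin ι
  let E : Option ι ≃ Fin (n + 1) := e.optionCongr.trans (finSuccEquiv n).symm
  have hE0 : E none = 0 := by simp [E]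
  have hEs : ∀ i, E (some i) = (e i).succ := by intro i; simp [E]
  let H : (Fin n → ℝ) ≃ₜ (ι → ℝ) := Homeomorph.piCongrLeft (Y := fun _ => ℝ) e.symm
  have hH : ∀ x : Fin n → ℝ, H x = fun i => x (e i) := by
    intro x
    funext i
    have := Homeomorph.piCongrLeft_apply_apply (Y := fun _ => ℝ) e.symm x (e i)
    simpa [H] using this
  let G : (Fin (n + 1) → ℝ) ≃ₜ (Option ι → ℝ) := Homeomorph.piCongrLeft (Y := fun _ => ℝ) E.symm
  have hG : ∀ x : Fin (n + 1) → ℝ, G x = fun i => x (E i) := by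
    intro x
    funext i
    have := Homeomorph.piCongrLeft_apply_apply (Y := fun _ => ℝ) E.symm x (E i)
    simpa [G] using this
  have h1 : Cc (Fin (n + 1)) (G ⁻¹' D) := by
    have : G ⁻¹' D = {x | (fun i => x (E i)) ∈ D} := by
      ext x
      show G x ∈ D ↔ _
      rw [hG]; rfl
    rw [this]
    exact Cc_pull _ hD
  have h2 : interior (G ⁻¹' D) = ∅ := by
    rw [← G.preimage_interior, h, Set.preimage_empty]
  have h3 := lemL h1 h2
  have h4 : {u : Fin n → ℝ | (Fin.cons (0 : ℝ) u : Fin (n + 1) → ℝ) ∈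
      closure (G ⁻¹' D ∩ {z | 0 < z 0})} = H ⁻¹' (lim0 D) := by
    have h5 : G ⁻¹' D ∩ {z | 0 < z 0} = G ⁻¹' (D ∩ {z | 0 < z none}) := by
      ext z
      constructor
      · rintro ⟨hz1, hz2⟩
        refine ⟨hz1, ?_⟩
        show 0 < G z none
        rw [hG]
        show 0 < z (E none)
        rw [hE0]; exact hz2
      · rintro ⟨hz1, hz2⟩
        refine ⟨hz1, ?_⟩
        have hz2 : 0 < G z none := hz2
        rw [hG] at hz2
        have hz2 : 0 < z (E none) := hz2
        rw [hE0] at hz2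
        exact hz2
    rw [h5, ← G.preimage_closure]
    ext u
    show G (Fin.cons 0 u) ∈ closure (D ∩ {z | 0 < z none}) ↔
      (fun o : Option ι => o.elim (0 : ℝ) (H u)) ∈ closure (D ∩ {z | 0 < z none})
    have h6 : G (Fin.cons 0 u) = (fun o : Option ι => o.elim (0 : ℝ) (H u)) := by
      rw [hG, hH]
      funext o
      rcases o with _ | i
      · rw [hE0]; simp
      · rw [hEs]; simp
    rw [h6]
  rw [h4, ← H.preimage_interior] at h3
  rw [← H.image_preimage (interior (lim0 D)), h3, Set.image_empty]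

theorem lemLT {ι : Type} [Finite ι] {p : ℕ} {D : Set (ι ⊕ Fin (p + 1) → ℝ)}
    (hD : Cc (ι ⊕ Fin (p + 1)) D) (h : interior D = ∅) : interior (limT D) = ∅ := by
  let F : ι ⊕ Fin (p + 1) → Option (ι ⊕ Fin p) := Sum.elim (fun i => some (Sum.inl i))
    (Fin.cons none (fun j => some (Sum.inr j)))
  let F' : Option (ι ⊕ Fin p) → ι ⊕ Fin (p + 1) := fun o => o.elim (Sum.inr 0)
    (Sum.elim Sum.inl (fun j => Sum.inr j.succ))
  let Eq : Option (ι ⊕ Fin p) ≃ ι ⊕ Fin (p + 1) :=
    { toFun := F'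
      invFun := F
      left_inv := by rintro (_ | i | j) <;> simp [F, F']
      right_inv := by
        rintro (i | j)
        · simp [F, F']
        · refine Fin.cases ?_ (fun j => ?_) j <;> simp [F, F'] }
  let G : (Option (ι ⊕ Fin p) → ℝ) ≃ₜ (ι ⊕ Fin (p + 1) → ℝ) :=
    Homeomorph.piCongrLeft (Y := fun _ => ℝ) Eq
  have hG : ∀ x : Option (ι ⊕ Fin p) → ℝ, G x = fun i => x (F i) := by
    intro x
    funext i
    have := Homeomorph.piCongrLeft_apply_apply (Y := fun _ => ℝ) Eq x (Eq.symm i)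
    rw [Equiv.apply_symm_apply] at this
    exact this
  have h1 : Cc (Option (ι ⊕ Fin p)) (G ⁻¹' D) := by
    have : G ⁻¹' D = {x | (fun i => x (F i)) ∈ D} := by
      ext x
      show G x ∈ D ↔ _
      rw [hG]; rfl
    rw [this]
    exact Cc_pull _ hD
  have h2 : interior (G ⁻¹' D) = ∅ := by
    rw [← G.preimage_interior, h, Set.preimage_empty]
  have h3 := lemLO h1 h2
  have h4 : lim0 (G ⁻¹' D) = limT D := by
    have h5 : G ⁻¹' D ∩ {z | 0 < z none} = G ⁻¹' (D ∩ {z | 0 < z (Sum.inr 0)}) := by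
      ext z
      constructor
      · rintro ⟨hz1, hz2⟩
        refine ⟨hz1, ?_⟩
        show 0 < G z (Sum.inr 0)
        rw [hG]
        exact hz2
      · rintro ⟨hz1, hz2⟩
        refine ⟨hz1, ?_⟩
        have hz2 : 0 < G z (Sum.inr 0) := hz2
        rw [hG] at hz2
        exact hz2
    unfold lim0 limT
    rw [h5, ← G.preimage_closure]
    ext u
    show G (fun o : Option (ι ⊕ Fin p) => o.elim (0 : ℝ) u) ∈
      closure (D ∩ {z | 0 < z (Sum.inr 0)}) ↔ _
    have h6 : G (fun o : Option (ι ⊕ Fin p) => o.elim (0 : ℝ) u) =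
        (Sum.elim (fun i => u (Sum.inl i)) (Fin.cons (0 : ℝ) (fun j => u (Sum.inr j))) :
      ι ⊕ Fin (p + 1) → ℝ) := by
      rw [hG]
      funext o
      rcases o with i | j
      · simp [F]
      · refine Fin.cases ?_ (fun j => ?_) j <;> simp [F]
    rw [h6]
    rfl
  rwa [h4] at h3

end OMin
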