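import Pool.Agent.OMin.CcKit
import Pool.Agent.OMin.UF
import Pool.Agent.OMin.Baire

/-! # Small sets have small closures -/

namespace OMin
open Set Filter Topology

namespace LNAux

/-- a finite union of order connected sets is finite or contains an interval -/
theorem fin_or_int {N : ℕ} {S : Set ℝ} {C : Fin N → Set ℝ} (hC : ∀ i, (C i).OrdConnected)
    (hS : S = ⋃ i, C i) : S.Finite ∨ (interior S).Nonempty := by
  by_cases h : ∀ i, (C i).Subsingleton
  · left
    rw [hS]
    exact Set.finite_iUnion fun i => (h i).finite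
  · right
    push Not at h
    obtain ⟨i, hi⟩ := h
    obtain ⟨a, ha, b, hb, hab⟩ := hi
    have key : ∀ a b : ℝ, a ∈ C i → b ∈ C i → a < b → (interior S).Nonempty := by
      intro a b ha hb hab
      have h1 : Icc a b ⊆ S := by
        rw [hS]
        exact ((hC i).out ha hb).trans (subset_iUnion C i)
      have h2 : Ioo a b ⊆ interior S :=
        interior_maximal (Ioo_subset_Icc_self.trans h1) isOpen_Ioo
      exact (nonempty_Ioo.mpr hab).mono h2
    rcases lt_or_gt_of_ne hab with h | h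
    · exact key a b ha hb h
    · exact key b a hb ha h

/-- boxes are in the class -/
theorem box_Cc {n : ℕ} (a b : Fin n → ℝ) : Cc (Fin n) {x | ∀ i, a i < x i ∧ x i < b i} := by
  have h : {x : Fin n → ℝ | ∀ i, a i < x i ∧ x i < b i} =
      ⋂ i, ({x : Fin n → ℝ | (fun _ : Fin n → ℝ => a i) x < (fun x : Fin n → ℝ => x i) x} ∩
        {x : Fin n → ℝ | (fun x : Fin n → ℝ => x i) x < (fun _ : Fin n → ℝ => b i) x}) := by
    ext x; simp
  rw [h]
  exact Cc_iInter fun i => Cc_inter (Cc_lt (EJ_const _) (EJ_coord i)) (Cc_lt (EJ_coord i) (EJ_const _))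

theorem box_open {n : ℕ} (a b : Fin n → ℝ) : IsOpen {x : Fin n → ℝ | ∀ i, a i < x i ∧ x i < b i} := by
  have h : {x : Fin n → ℝ | ∀ i, a i < x i ∧ x i < b i} =
      Set.pi Set.univ (fun i => Ioo (a i) (b i)) := by
    ext x; simp
  rw [h]
  exact isOpen_set_pi Set.finite_univ fun i _ => isOpen_Ioo

theorem exists_box {n : ℕ} {x : Fin n → ℝ} {U : Set (Fin n → ℝ)} (hU : U ∈ 𝓝 x) :
    ∃ a b : Fin n → ℝ, (∀ i, a i < x i ∧ x i < b i) ∧ {y | ∀ i, a i < y i ∧ y i < b i} ⊆ U := by
  obtain ⟨ε, hε, h⟩ := Metric.mem_nhds_iff.mp hU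
  refine ⟨fun i => x i - ε, fun i => x i + ε, fun i => ⟨by linarith, by linarith⟩, ?_⟩
  intro y hy
  apply h
  rw [Metric.mem_ball, dist_pi_lt_iff hε]
  intro i
  have := hy i
  rw [Real.dist_eq, abs_lt]
  constructor <;> linarith [this.1, this.2]

/-- a dense set in the class contains a dense open set, if small sets have small closures -/
theorem dense_residual {n : ℕ} (IH : ∀ A : Set (Fin n → ℝ), Cc (Fin n) A → interior A = ∅ →
      interior (closure A) = ∅) {B : Set (Fin n → ℝ)} (hB : Cc (Fin n) B)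
    {V : Set (Fin n → ℝ)} (hV : IsOpen V)
    (hd : ∀ V' ⊆ V, IsOpen V' → V'.Nonempty → (V' ∩ B).Nonempty) :
    ∀ᶠ x in residual (Fin n → ℝ), x ∈ V → x ∈ B := by
  have hO : IsOpen (interior B ∪ (closure V)ᶜ) := isOpen_interior.union isClosed_closure.isOpen_compl
  have hdense : Dense (interior B ∪ (closure V)ᶜ) := by
    rw [dense_iff_inter_open]
    intro W hW hWne
    by_contra hcon
    rw [Set.not_nonempty_iff_eq_empty] at hcon
    -- W is inside the closure of V
    obtain ⟨w, hw⟩ := hWne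
    have hwV : w ∈ closure V := by
      by_contra h
      have : w ∈ W ∩ (interior B ∪ (closure V)ᶜ) := ⟨hw, Or.inr h⟩
      rw [hcon] at this
      exact this
    obtain ⟨v, hvW, hvV⟩ := mem_closure_iff.mp hwV W hW hw
    obtain ⟨a, b, hab, hsub⟩ := exists_box ((hW.inter hV).mem_nhds ⟨hvW, hvV⟩)
    have h1 : Cc (Fin n) (B ∩ {y | ∀ i, a i < y i ∧ y i < b i}) := Cc_inter hB (box_Cc a b)
    have h2 : interior (B ∩ {y | ∀ i, a i < y i ∧ y i < b i}) = ∅ := by
      rw [Set.eq_empty_iff_forall_notMem]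
      intro y hy
      have hy1 : y ∈ interior B := interior_mono inter_subset_left hy
      have hy2 : y ∈ W := (hsub (interior_subset hy).2).1
      have : y ∈ W ∩ (interior B ∪ (closure V)ᶜ) := ⟨hy2, Or.inl hy1⟩
      rw [hcon] at this
      exact this
    have h3 := IH _ h1 h2
    have h4 : {y | ∀ i, a i < y i ∧ y i < b i} ⊆
        closure (B ∩ {y | ∀ i, a i < y i ∧ y i < b i}) := by
      intro y hy
      rw [mem_closure_iff]
      intro O hO hyO
      obtain ⟨z, hz1, hz2⟩ := hd (O ∩ {y | ∀ i, a i < y i ∧ y i < b i})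
        (fun z hz => (hsub hz.2).2) (hO.inter (box_open a b)) ⟨y, hyO, hy⟩
      exact ⟨z, hz1.1, hz2, hz1.2⟩
    have h5 : v ∈ interior (closure (B ∩ {y | ∀ i, a i < y i ∧ y i < b i})) :=
      interior_maximal h4 (box_open a b) hab
    rw [h3] at h5
    exact h5
  filter_upwards [residual_of_dense_open hO hdense] with x hx hxV
  rcases hx with hx | hx
  · exact interior_subset hx
  · exact absurd (subset_closure hxV) hx

/-- the projection of the part between two heights -/
theorem slab_Cc {n : ℕ} {A : Set (Fin (n + 1) → ℝ)} (hA : Cc (Fin (n + 1)) A) (q r : ℝ) :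
    Cc (Fin n) {x | ∃ s : ℝ, q < s ∧ s < r ∧ (Fin.cons s x : Fin (n + 1) → ℝ) ∈ A} := by
  have h1 : Cc (Option (Fin n)) ({z | (fun i : Fin (n + 1) => z
      ((Fin.cons none some : Fin (n + 1) → Option (Fin n)) i)) ∈ A} ∩
      ({z | (fun _ : Option (Fin n) → ℝ => q) z < (fun z : Option (Fin n) → ℝ => z none) z} ∩
      {z | (fun z : Option (Fin n) → ℝ => z none) z < (fun _ : Option (Fin n) → ℝ => r) z})) :=
    Cc_inter (Cc_pull _ hA) (Cc_inter (Cc_lt (EJ_const _) (EJ_coord _))
      (Cc_lt (EJ_coord _) (EJ_const _)))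
  have h2 := Cc_exists h1
  have h3 : ∀ (s : ℝ) (x : Fin n → ℝ), (fun i : Fin (n + 1) =>
      (fun o : Option (Fin n) => o.elim s x)
        ((Fin.cons none some : Fin (n + 1) → Option (Fin n)) i)) = Fin.cons s x := by
    intro s x
    funext i
    refine Fin.cases ?_ (fun j => ?_) i <;> simp
  convert h2 using 1
  ext x
  constructor
  · rintro ⟨s, hs1, hs2, hs3⟩
    refine ⟨s, ?_, hs1, hs2⟩
    show (fun i : Fin (n + 1) => (fun o : Option (Fin n) => o.elim s x)
        ((Fin.cons none some : Fin (n + 1) → Option (Fin n)) i)) ∈ A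
    rw [h3]; exact hs3
  · rintro ⟨s, hs3, hs1, hs2⟩
    refine ⟨s, hs1, hs2, ?_⟩
    have hs3 : (fun i : Fin (n + 1) => (fun o : Option (Fin n) => o.elim s x)
        ((Fin.cons none some : Fin (n + 1) → Option (Fin n)) i)) ∈ A := hs3
    rwa [h3] at hs3

theorem cont_cons {n : ℕ} :
    Continuous (fun q : ℝ × (Fin n → ℝ) => (Fin.cons q.1 q.2 : Fin (n + 1) → ℝ)) := by
  apply continuous_pi
  intro i
  refine Fin.cases ?_ (fun j => ?_) i
  · simpa using continuous_fst
  · simp only [Fin.cons_succ]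
    exact (continuous_apply j).comp continuous_snd

theorem cont_tail {n : ℕ} : Continuous (fun z : Fin (n + 1) → ℝ => (fun i : Fin n => z i.succ)) :=
  continuous_pi fun i => continuous_apply _

end LNAux

open LNAux

theorem lemN {n : ℕ} {A : Set (Fin n → ℝ)} (hA : Cc (Fin n) A) (h : interior A = ∅) :
    interior (closure A) = ∅ := by
  induction n with
  | zero =>
    have h1 : A = ∅ := by
      rw [Set.eq_empty_iff_forall_notMem]
      intro x hx
      have h2 : A = Set.univ := by
        rw [Set.eq_univ_iff_forall]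
        intro y
        rwa [Subsingleton.elim y x]
      rw [h2, interior_univ] at h
      have : x ∈ (Set.univ : Set (Fin 0 → ℝ)) := mem_univ x
      rw [h] at this
      exact this
    rw [h1, closure_empty, interior_empty]
  | succ n IH =>
    by_contra hne
    rw [← ne_eq, ← Set.nonempty_iff_ne_empty] at hne
    obtain ⟨z, hz⟩ := hne
    -- a box
    have hz' : (Fin.cons (z 0) (fun i : Fin n => z i.succ) : Fin (n + 1) → ℝ) = z := by
      funext i
      refine Fin.cases ?_ (fun j => ?_) i <;> simp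
    have hpre : (fun q : ℝ × (Fin n → ℝ) => (Fin.cons q.1 q.2 : Fin (n + 1) → ℝ)) ⁻¹'
        (interior (closure A)) ∈ 𝓝 (z 0, fun i : Fin n => z i.succ) := by
      apply cont_cons.continuousAt.preimage_mem_nhds
      show interior (closure A) ∈ 𝓝 (Fin.cons (z 0) (fun i : Fin n => z i.succ) :
        Fin (n + 1) → ℝ)
      rw [hz']
      exact isOpen_interior.mem_nhds hz
    obtain ⟨I0, V0, hI0, hz0, hV0, hz1, hsub⟩ := mem_nhds_prod_iff'.mp hpre
    obtain ⟨l, u, ⟨hl, hu⟩, hlu⟩ := mem_nhds_iff_exists_Ioo_subset.mp (hI0.mem_nhds hz0)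
    have hbox : ∀ s ∈ Ioo l u, ∀ x ∈ V0, (Fin.cons s x : Fin (n + 1) → ℝ) ∈ closure A := by
      intro s hs x hx
      have : (s, x) ∈ I0 ×ˢ V0 := ⟨hlu hs, hx⟩
      exact interior_subset (hsub this)
    -- residually many fibres are dense
    have hres : ∀ᶠ x in residual (Fin n → ℝ), ∀ k : ℚ × ℚ, l < k.1 → (k.1 : ℝ) < k.2 → k.2 < u →
        x ∈ V0 → ∃ s : ℝ, (k.1 : ℝ) < s ∧ s < k.2 ∧ (Fin.cons s x : Fin (n + 1) → ℝ) ∈ A := by
      rw [eventually_countable_forall]
      rintro ⟨q, r⟩
      by_cases hk : l < q ∧ (q : ℝ) < r ∧ r < u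
      · obtain ⟨h1, h2, h3⟩ := hk
        have := dense_residual (fun A hA h => IH hA h) (slab_Cc hA (q : ℝ) (r : ℝ)) hV0 (by
          intro V' hV' hVo hVn
          obtain ⟨x, hx⟩ := hVn
          obtain ⟨m, hm1, hm2⟩ := exists_between h2
          have hcl := hbox m ⟨h1.trans hm1, hm2.trans h3⟩ x (hV' hx)
          obtain ⟨w, hw, hwA⟩ := mem_closure_iff.mp hcl
            ({z : Fin (n + 1) → ℝ | z 0 ∈ Ioo (q : ℝ) (r : ℝ)} ∩
              {z | (fun i : Fin n => z i.succ) ∈ V'})
            ((isOpen_Ioo.preimage (continuous_apply _)).inter (hVo.preimage cont_tail))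
            ⟨by simpa using ⟨hm1, hm2⟩, by simpa using hx⟩
          refine ⟨fun i => w i.succ, hw.2, w 0, hw.1.1, hw.1.2, ?_⟩
          have h2 : (Fin.cons (w 0) (fun i : Fin n => w i.succ) : Fin (n + 1) → ℝ) = w := by
            funext i
            refine Fin.cases ?_ (fun j => ?_) i <;> simp
          rw [h2]; exact hwA)
        filter_upwards [this] with x hx _ _ _ hxV
        exact hx hxV
      · refine Eventually.of_forall fun x h1 h2 h3 => ?_
        exact absurd ⟨h1, h2, h3⟩ hk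
    obtain ⟨N, hN⟩ := UF_fiber hA
    obtain ⟨Cm, hCm, hAC⟩ := Cc_Fsigma hA
    have hfin := baire_fiber Cm hCm hAC hV0 ⟨_, hz1⟩ (by
      filter_upwards [hres] with x hx hxV
      obtain ⟨C, hC, hSC⟩ := hN x
      rcases fin_or_int hC hSC with hf | hf
      · exfalso
        -- a finite set is not dense in an interval
        have hlu' : l < u := hl.trans hu
        have hinf : (Ioo l u \ {s : ℝ | (Fin.cons s x : Fin (n + 1) → ℝ) ∈ A}).Infinite :=
          (Ioo_infinite hlu').sdiff hf
        obtain ⟨t, ht1, ht2⟩ := hinf.nonempty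
        have ho : IsOpen (Ioo l u \ {s : ℝ | (Fin.cons s x : Fin (n + 1) → ℝ) ∈ A}) :=
          isOpen_Ioo.sdiff hf.isClosed
        obtain ⟨l', u', ⟨hl', hu'⟩, hlu'⟩ :=
          mem_nhds_iff_exists_Ioo_subset.mp (ho.mem_nhds ⟨ht1, ht2⟩)
        obtain ⟨q, hq1, hq2⟩ := exists_rat_btwn (max_lt hl' ht1.1)
        obtain ⟨r, hr1, hr2⟩ := exists_rat_btwn (lt_min hu' ht1.2)
        obtain ⟨s, hs1, hs2, hs3⟩ := hx (q, r) (lt_of_le_of_lt (le_max_right _ _) hq1)
          (hq2.trans hr1) (lt_of_lt_of_le hr2 (min_le_right _ _)) hxV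
        have := hlu' (show s ∈ Ioo l' u' from
          ⟨lt_of_le_of_lt (le_max_left _ _) (hq1.trans hs1),
            lt_of_lt_of_le (hs2.trans hr2) (min_le_left _ _)⟩)
        exact this.2 hs3
      · exact hf)
    rw [h] at hfin
    exact Set.not_nonempty_empty hfin

theorem lemN' {ι : Type} [Finite ι] {A : Set (ι → ℝ)} (hA : Cc ι A) (h : interior A = ∅) :
    interior (closure A) = ∅ := by
  obtain ⟨n, ⟨e⟩⟩ := Finite.exists_equiv_fin ι
  let H : (Fin n → ℝ) ≃ₜ (ι → ℝ) := Homeomorph.piCongrLeft (Y := fun _ => ℝ) e.symm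
  have hH : ∀ x : Fin n → ℝ, H x = fun i => x (e i) := by
    intro x
    funext i
    have := Homeomorph.piCongrLeft_apply_apply (Y := fun _ => ℝ) e.symm x (e i)
    simpa [H] using this
  have h1 : Cc (Fin n) (H ⁻¹' A) := by
    have : H ⁻¹' A = {x | (fun i => x (e i)) ∈ A} := by
      ext x
      show H x ∈ A ↔ _
      rw [hH]; rfl
    rw [this]
    exact Cc_pull _ hA
  have h2 : interior (H ⁻¹' A) = ∅ := by
    rw [← H.preimage_interior, h, Set.preimage_empty]
  have h3 := lemN h1 h2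
  rw [← H.preimage_closure, ← H.preimage_interior] at h3
  rw [← H.image_preimage (interior (closure A)), h3, Set.image_empty]

end OMin
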